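import Pool.Agent.R776.LI.Defs

namespace R776.LI

open Finset Filter Topology MeasureTheory ProbabilityTheory

/-- the deterministic sandwich along a geometric subsequence -/
theorem as_sandwich {L f : ℕ → ℝ} {ε : ℝ} (hε : 0 < ε)
    (hmono : Monotone L) (hf : Monotone f) {nk : ℕ → ℕ}
    (hnk : ∀ k n, 1 ≤ n → (1 + ε) ^ k ≤ f n → nk k ≤ n)
    (hnk' : ∀ k, (1 + ε) ^ k ≤ f (nk k))
    (hup : ∀ᶠ k in atTop, f (nk k) ≤ (1 + ε) ^ (k + 1))
    (hft : Tendsto f atTop atTop)
    (hev : ∀ᶠ k in atTop, |L (nk k) - f (nk k)| ≤ ε * f (nk k)) (hε1 : ε < 1) :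
    ∀ᶠ n in atTop, (1 - ε) / (1 + ε) ≤ L n / f n ∧ L n / f n ≤ (1 + ε) ^ 3 := by
  have hr : (1 : ℝ) < 1 + ε := by linarith
  obtain ⟨K0, hK0⟩ := eventually_atTop.1 (hup.and hev)
  have h1 := hft.eventually_ge_atTop ((1 + ε) ^ K0)
  filter_upwards [h1, eventually_ge_atTop 1] with n hn hn1
  have hK1 : (1 : ℝ) ≤ (1 + ε) ^ K0 := one_le_pow₀ hr.le
  have hfn : 1 ≤ f n := hK1.trans hn
  obtain ⟨k, hk1, hk2⟩ := exists_nat_pow_near hfn hr
  have hkK : K0 ≤ k := by
    have : (1 + ε) ^ K0 < (1 + ε) ^ (k + 1) := lt_of_le_of_lt hn hk2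
    have := (pow_lt_pow_iff_right₀ hr).1 this
    omega
  have ha : nk k ≤ n := hnk k n hn1 hk1
  have hb : n ≤ nk (k + 1) := by
    by_contra hcon
    push Not at hcon
    have h2 := hf hcon.le
    have h3 := hnk' (k + 1)
    linarith
  obtain ⟨hu1, he1⟩ := hK0 k hkK
  obtain ⟨hu2, he2⟩ := hK0 (k + 1) (by omega)
  have hfpos : 0 < f n := by linarith
  have hL1 : L (nk k) ≤ L n := hmono ha
  have hL2 : L n ≤ L (nk (k + 1)) := hmono hb
  rw [abs_le] at he1 he2
  have hrk : 0 < (1 + ε) ^ k := by positivity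
  have hk2' : f n < (1 + ε) ^ k * (1 + ε) := by rw [← pow_succ]; exact hk2
  constructor
  · rw [div_le_div_iff₀ (by linarith) hfpos]
    have h4 : (1 - ε) * f (nk k) ≤ L n := by
      have := he1.1
      nlinarith
    have h5 : (1 - ε) * (1 + ε) ^ k ≤ L n := by
      have := hnk' k
      nlinarith
    calc (1 - ε) * f n ≤ (1 - ε) * ((1 + ε) ^ k * (1 + ε)) := by
          apply mul_le_mul_of_nonneg_left hk2'.le (by linarith)
      _ = ((1 - ε) * (1 + ε) ^ k) * (1 + ε) := by ring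
      _ ≤ L n * (1 + ε) := by
          apply mul_le_mul_of_nonneg_right h5 (by linarith)
  · rw [div_le_iff₀ hfpos]
    have h6 : L n ≤ (1 + ε) * f (nk (k + 1)) := by
      have := he2.2
      linarith
    calc L n ≤ (1 + ε) * f (nk (k + 1)) := h6
      _ ≤ (1 + ε) * (1 + ε) ^ (k + 1 + 1) := by
          apply mul_le_mul_of_nonneg_left hu2 (by linarith)
      _ = (1 + ε) ^ 3 * (1 + ε) ^ k := by ring
      _ ≤ (1 + ε) ^ 3 * f n := by
          apply mul_le_mul_of_nonneg_left hk1 (by positivity)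

theorem as_of_prob {Ω : Type*} [MeasurableSpace Ω] (μ : Measure Ω) [IsProbabilityMeasure μ]
    (L : ℕ → Ω → ℝ) (f : ℕ → ℝ) (hL : ∀ n, Measurable (L n))
    (hmono : ∀ ω, Monotone (fun n => L n ω)) (hL0 : ∀ n ω, 0 ≤ L n ω)
    (hf : Monotone f) (hfpos : ∀ n, 1 ≤ n → 0 < f n)
    (hft : Tendsto f atTop atTop) (B : ℝ) (hfs : ∀ n, 1 ≤ n → f (n + 1) ≤ f n + B)
    (hP : ∀ ε : ℝ, 0 < ε → ∃ C F0 : ℝ, ∀ n, F0 ≤ f n →
      μ.real {ω | ε * f n < |L n ω - f n|} ≤ C / f n) :
    ∀ᵐ ω ∂μ, Tendsto (fun n => L n ω / f n) atTop (𝓝 1) := by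
  classical
  have hB : 0 ≤ B := by
    have h1 := hfs 1 le_rfl
    have h2 := hf (show 1 ≤ 1 + 1 by norm_num)
    linarith
  have key : ∀ m : ℕ, ∀ᵐ ω ∂μ, ∀ᶠ n in atTop,
      (1 - 1 / ((m : ℝ) + 2)) / (1 + 1 / ((m : ℝ) + 2)) ≤ L n ω / f n ∧
        L n ω / f n ≤ (1 + 1 / ((m : ℝ) + 2)) ^ 3 := by
    intro m
    set ε : ℝ := 1 / ((m : ℝ) + 2) with hεdef
    have hm0 : (0 : ℝ) ≤ m := Nat.cast_nonneg m
    have hε : 0 < ε := by positivity
    have hε1 : ε < 1 := by
      rw [hεdef, div_lt_one (by positivity)]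
      linarith
    have hr : (1 : ℝ) < 1 + ε := by linarith
    have hex : ∀ k : ℕ, ∃ n, 1 ≤ n ∧ (1 + ε) ^ k ≤ f n := by
      intro k
      have h1 := (hft.eventually_ge_atTop ((1 + ε) ^ k)).and (eventually_ge_atTop 1)
      obtain ⟨n, hn1, hn2⟩ := h1.exists
      exact ⟨n, hn2, hn1⟩
    let nk : ℕ → ℕ := fun k => Nat.find (hex k)
    have hnk1 : ∀ k, 1 ≤ nk k := fun k => (Nat.find_spec (hex k)).1
    have hnk' : ∀ k, (1 + ε) ^ k ≤ f (nk k) := fun k => (Nat.find_spec (hex k)).2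
    have hnk : ∀ k n, 1 ≤ n → (1 + ε) ^ k ≤ f n → nk k ≤ n :=
      fun k n h1 h2 => Nat.find_min' (hex k) ⟨h1, h2⟩
    have hub : ∀ k, f (nk k) ≤ (1 + ε) ^ k + (B + f 1) := by
      intro k
      have hpos : 0 < (1 + ε) ^ k := by positivity
      have hf1 := hfpos 1 le_rfl
      rcases Nat.lt_or_ge 1 (nk k) with h | h
      · obtain ⟨j, hj⟩ : ∃ j, nk k = j + 1 := ⟨nk k - 1, by omega⟩
        have hj1 : 1 ≤ j := by omega
        have hlt : f j < (1 + ε) ^ k := by
          by_contra hcon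
          push Not at hcon
          have := hnk k j hj1 hcon
          omega
        rw [hj]
        have := hfs j hj1
        linarith
      · have : nk k = 1 := le_antisymm h (hnk1 k)
        rw [this]
        linarith
    have hpowt : Tendsto (fun k : ℕ => (1 + ε) ^ k) atTop atTop :=
      tendsto_pow_atTop_atTop_of_one_lt hr
    have hup : ∀ᶠ k in atTop, f (nk k) ≤ (1 + ε) ^ (k + 1) := by
      filter_upwards [hpowt.eventually_ge_atTop ((B + f 1) / ε)] with k hk
      have h1 := hub k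
      rw [div_le_iff₀ hε] at hk
      rw [pow_succ]
      nlinarith
    obtain ⟨C, F0, hC⟩ := hP ε hε
    have hev : ∀ᵐ ω ∂μ, ∀ᶠ k in atTop, |L (nk k) ω - f (nk k)| ≤ ε * f (nk k) := by
      obtain ⟨k0, hk0⟩ := eventually_atTop.1 (hpowt.eventually_ge_atTop F0)
      have hsum : ∑' k, μ {ω | ε * f (nk (k + k0)) < |L (nk (k + k0)) ω - f (nk (k + k0))|}
          ≠ ⊤ := by
        have hle : ∀ k, μ {ω | ε * f (nk (k + k0)) < |L (nk (k + k0)) ω - f (nk (k + k0))|}
            ≤ ENNReal.ofReal (|C| * (1 / (1 + ε)) ^ (k + k0)) := by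
          intro k
          have h1 := hC (nk (k + k0)) ((hk0 (k + k0) (by omega)).trans (hnk' _))
          have h2 : C / f (nk (k + k0)) ≤ |C| * (1 / (1 + ε)) ^ (k + k0) := by
            have hp1 : 0 < (1 + ε) ^ (k + k0) := by positivity
            have hp2 := hnk' (k + k0)
            calc C / f (nk (k + k0)) ≤ |C| / f (nk (k + k0)) := by
                  apply div_le_div_of_nonneg_right (le_abs_self C)
                  linarith
              _ ≤ |C| / (1 + ε) ^ (k + k0) := by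
                  apply div_le_div_of_nonneg_left (abs_nonneg C) hp1 hp2
              _ = |C| * (1 / (1 + ε)) ^ (k + k0) := by
                  rw [one_div, inv_pow]; rfl
          rw [Measure.real] at h1
          rw [← ENNReal.ofReal_toReal (measure_ne_top μ _)]
          exact ENNReal.ofReal_le_ofReal (h1.trans h2)
        have hs : Summable (fun k : ℕ => |C| * (1 / (1 + ε)) ^ (k + k0)) := by
          apply Summable.mul_left
          have h3 : Summable (fun k : ℕ => (1 / (1 + ε)) ^ k) := by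
            apply summable_geometric_of_lt_one (by positivity)
            rw [div_lt_one (by linarith)]
            exact hr
          exact (summable_nat_add_iff k0).2 h3
        have h4 := ENNReal.tsum_le_tsum hle
        refine ne_top_of_le_ne_top ?_ h4
        exact hs.tsum_ofReal_ne_top
      have h5 := ae_eventually_notMem hsum
      filter_upwards [h5] with ω hω
      obtain ⟨k1, hk1⟩ := eventually_atTop.1 hω
      refine eventually_atTop.2 ⟨k1 + k0, fun k hk => ?_⟩
      have h6 := hk1 (k - k0) (by omega)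
      rw [show k - k0 + k0 = k by omega] at h6
      exact not_lt.1 h6
    filter_upwards [hev] with ω hω
    exact as_sandwich hε (hmono ω) hf hnk hnk' hup hft hω hε1
  have hall := ae_all_iff.2 key
  have hεt : Tendsto (fun m : ℕ => 1 / ((m : ℝ) + 2)) atTop (𝓝 0) := by
    have h1 : Tendsto (fun m : ℕ => (m : ℝ) + 2) atTop atTop :=
      tendsto_atTop_add_const_right _ _ tendsto_natCast_atTop_atTop
    have h2 := h1.inv_tendsto_atTop
    refine h2.congr (fun m => ?_)
    simp [one_div]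
  have hlo : Tendsto (fun m : ℕ => (1 - 1 / ((m : ℝ) + 2)) / (1 + 1 / ((m : ℝ) + 2)))
      atTop (𝓝 1) := by
    have h1 : Tendsto (fun m : ℕ => 1 - 1 / ((m : ℝ) + 2)) atTop (𝓝 (1 - 0)) :=
      tendsto_const_nhds.sub hεt
    have h2 : Tendsto (fun m : ℕ => 1 + 1 / ((m : ℝ) + 2)) atTop (𝓝 (1 + 0)) :=
      tendsto_const_nhds.add hεt
    have h3 := h1.div h2 (by norm_num)
    rw [sub_zero, add_zero, div_one] at h3
    exact h3
  have hhi : Tendsto (fun m : ℕ => (1 + 1 / ((m : ℝ) + 2)) ^ 3) atTop (𝓝 1) := by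
    have h2 : Tendsto (fun m : ℕ => 1 + 1 / ((m : ℝ) + 2)) atTop (𝓝 (1 + 0)) :=
      tendsto_const_nhds.add hεt
    simpa using h2.pow 3
  filter_upwards [hall] with ω hω
  rw [tendsto_order]
  constructor
  · intro a ha
    obtain ⟨m, hm⟩ := ((tendsto_order.1 hlo).1 a ha).exists
    filter_upwards [hω m] with n hn
    exact lt_of_lt_of_le hm hn.1
  · intro a ha
    obtain ⟨m, hm⟩ := ((tendsto_order.1 hhi).2 a ha).exists
    filter_upwards [hω m] with n hn
    exact lt_of_le_of_lt hn.2 hm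

end R776.LI
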