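import Pool.Agent.R776.LI.Defs

/-! Piece Ana: analysis of the variational functional `G` (helper986). -/

namespace R776.LI

open Finset Filter Topology MeasureTheory ProbabilityTheory

lemma ana_qq_sub {q a b : ℝ} (hq : 0 ≤ q) (ha : 0 ≤ a) (hb : 0 ≤ b) :
    q / (q + b) - q / (q + a) = -((b - a) * (q / ((q + a) * (q + b)))) := by
  rcases hq.eq_or_lt with h | h
  · subst h; simp
  · have h1 : q + a ≠ 0 := by positivity
    have h2 : q + b ≠ 0 := by positivity
    field_simp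
    ring

lemma ana_G_sub {p : ℕ → ℝ} (hp : ∀ i, 0 ≤ p i) (K : ℕ) (T : ℝ) {a b : ℝ} (ha : 0 ≤ a)
    (hb : 0 ≤ b) :
    G p b T 0 K - G p a T 0 K
      = (b - a) * (T - ∑ i ∈ Ico 0 K, p i / ((p i + a) * (p i + b))) := by
  unfold G
  have : ∑ i ∈ Ico 0 K, qq p b i - ∑ i ∈ Ico 0 K, qq p a i
      = -((b - a) * ∑ i ∈ Ico 0 K, p i / ((p i + a) * (p i + b))) := by
    rw [← Finset.sum_sub_distrib, Finset.mul_sum, ← Finset.sum_neg_distrib]
    exact Finset.sum_congr rfl (fun i _ => ana_qq_sub (hp i) ha hb)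
  linear_combination this

lemma ana_cont (q c : ℝ) (hq : 0 ≤ q) : ContinuousOn (fun x : ℝ => q / (q + x)) (Set.Ici 0) := by
  rcases hq.eq_or_lt with h | h
  · subst h
    simp only [zero_div]
    exact continuousOn_const
  · refine ContinuousOn.div continuousOn_const (by fun_prop) ?_
    intro x hx
    have : (0 : ℝ) ≤ x := hx
    positivity

lemma ana_G_cont {p : ℕ → ℝ} (hp : ∀ i, 0 ≤ p i) (K : ℕ) (T : ℝ) :
    ContinuousOn (fun a => G p a T 0 K) (Set.Ici 0) := by
  unfold G qq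
  refine ContinuousOn.add (by fun_prop) ?_
  refine continuousOn_finset_sum _ (fun i _ => ?_)
  exact ana_cont (p i) 0 (hp i)

lemma ana_sum_nonneg {p : ℕ → ℝ} (hp : ∀ i, 0 ≤ p i) (m K : ℕ) {a : ℝ} (ha : 0 ≤ a) :
    0 ≤ ∑ i ∈ Ico m K, qq p a i :=
  Finset.sum_nonneg (fun i _ => qq_nonneg hp ha i)

theorem exists_min {p : ℕ → ℝ} (hp : ∀ i, 0 ≤ p i) (K : ℕ) {T : ℝ} (hT : 0 < T) :
    ∃ a, 0 ≤ a ∧ ∀ α, 0 ≤ α → G p a T 0 K ≤ G p α T 0 K := by
  have hG0 : 0 ≤ G p 0 T 0 K := by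
    unfold G
    have := ana_sum_nonneg hp 0 K (le_refl (0 : ℝ))
    linarith
  have hR : 0 ≤ G p 0 T 0 K / T := div_nonneg hG0 hT.le
  obtain ⟨a, ha, hmin⟩ := (isCompact_Icc (a := (0 : ℝ)) (b := G p 0 T 0 K / T)).exists_isMinOn
    ⟨0, by simp [hR]⟩ ((ana_G_cont hp K T).mono (fun x hx => hx.1))
  refine ⟨a, ha.1, fun α hα => ?_⟩
  by_cases h : α ≤ G p 0 T 0 K / T
  · exact hmin ⟨hα, h⟩
  · push Not at h
    have h0 : G p a T 0 K ≤ G p 0 T 0 K := hmin ⟨le_refl _, hR⟩
    have h1 : G p 0 T 0 K < α * T := by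
      rwa [div_lt_iff₀ hT] at h
    have h2 : α * T ≤ G p α T 0 K := by
      unfold G
      have := ana_sum_nonneg hp 0 K hα
      linarith
    linarith

lemma ana_cont2 (q a : ℝ) (hq : 0 ≤ q) (ha : 0 ≤ a) :
    ContinuousWithinAt (fun x : ℝ => q / ((q + a) * (q + x))) (Set.Ici 0) a := by
  rcases hq.eq_or_lt with h | h
  · subst h
    simp only [zero_div]
    exact continuousWithinAt_const
  · refine ContinuousWithinAt.div continuousWithinAt_const ?_ ?_
    · fun_prop
    · positivity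

/-- one-sided first order condition -/
lemma ana_foc {p : ℕ → ℝ} (hp : ∀ i, 0 ≤ p i) {K : ℕ} {T a : ℝ} (ha : 0 ≤ a)
    (hmin : ∀ α, 0 ≤ α → G p a T 0 K ≤ G p α T 0 K) :
    ∑ i ∈ Ico 0 K, p i / ((p i + a) * (p i + a)) ≤ T := by
  have hc : ContinuousWithinAt (fun x : ℝ => ∑ i ∈ Ico 0 K, p i / ((p i + a) * (p i + x)))
      (Set.Ici 0) a := by
    have := tendsto_finset_sum (Ico 0 K) (fun i _ => (ana_cont2 (p i) a (hp i) ha).tendsto)
    exact this
  have hc' : Tendsto (fun x : ℝ => ∑ i ∈ Ico 0 K, p i / ((p i + a) * (p i + x)))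
      (𝓝[>] a) (𝓝 (∑ i ∈ Ico 0 K, p i / ((p i + a) * (p i + a)))) := by
    refine hc.tendsto.mono_left (nhdsWithin_mono _ ?_)
    intro x hx
    have : a < x := hx
    show (0 : ℝ) ≤ x
    linarith
  refine le_of_tendsto hc' ?_
  filter_upwards [self_mem_nhdsWithin] with x hx
  have hx' : a < x := hx
  have h1 := hmin x (by linarith)
  have h2 := ana_G_sub hp K T ha (show (0 : ℝ) ≤ x by linarith)
  have h3 : 0 ≤ (x - a) * (T - ∑ i ∈ Ico 0 K, p i / ((p i + a) * (p i + x))) := by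
    rw [← h2]; linarith
  have h4 : 0 ≤ T - ∑ i ∈ Ico 0 K, p i / ((p i + a) * (p i + x)) :=
    nonneg_of_mul_nonneg_right h3 (by linarith)
  linarith

/-- two-sided first order condition -/
lemma ana_foc' {p : ℕ → ℝ} (hp : ∀ i, 0 ≤ p i) {K : ℕ} {T a : ℝ} (ha : 0 < a)
    (hmin : ∀ α, 0 ≤ α → G p a T 0 K ≤ G p α T 0 K) :
    T ≤ ∑ i ∈ Ico 0 K, p i / ((p i + a) * (p i + a)) := by
  have hc : ContinuousWithinAt (fun x : ℝ => ∑ i ∈ Ico 0 K, p i / ((p i + a) * (p i + x)))
      (Set.Ici 0) a := by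
    have := tendsto_finset_sum (Ico 0 K) (fun i _ => (ana_cont2 (p i) a (hp i) ha.le).tendsto)
    exact this
  have hmem : Set.Ioo 0 a ∈ 𝓝[<] a := Ioo_mem_nhdsLT ha
  have hc' : Tendsto (fun x : ℝ => ∑ i ∈ Ico 0 K, p i / ((p i + a) * (p i + x)))
      (𝓝[<] a) (𝓝 (∑ i ∈ Ico 0 K, p i / ((p i + a) * (p i + a)))) := by
    have hle : 𝓝[<] a ≤ 𝓝[Set.Ici 0] a := by
      rw [nhdsWithin, nhdsWithin]
      refine le_inf inf_le_left ?_
      rw [le_principal_iff]
      have : Set.Ioo 0 a ∈ 𝓝[<] a := hmem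
      exact mem_of_superset this (fun x hx => hx.1.le)
    exact hc.tendsto.mono_left hle
  refine ge_of_tendsto hc' ?_
  filter_upwards [hmem] with x hx
  have h1 := hmin x hx.1.le
  have h2 := ana_G_sub hp K T ha.le hx.1.le
  have h3 : 0 ≤ (x - a) * (T - ∑ i ∈ Ico 0 K, p i / ((p i + a) * (p i + x))) := by
    rw [← h2]; linarith
  by_contra hcon
  push Not at hcon
  have : (x - a) * (T - ∑ i ∈ Ico 0 K, p i / ((p i + a) * (p i + x))) < 0 :=
    mul_neg_of_neg_of_pos (by linarith [hx.2]) (by linarith)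
  linarith

theorem margin {p : ℕ → ℝ} (hp : ∀ i, 0 ≤ p i) {K : ℕ} {T a b : ℝ} (hT : 0 < T) (ha : 0 ≤ a)
    (hmin : ∀ α, 0 ≤ α → G p a T 0 K ≤ G p α T 0 K) (hab : a ≤ b) :
    ((b - a) * T) ^ 2 / (G p a T 0 K + (b - a) * T) ≤ G p b T 0 K - G p a T 0 K := by
  have hb : 0 ≤ b := le_trans ha hab
  rcases hab.eq_or_lt with h | hlt
  · subst h; simp
  have hd : 0 < b - a := by linarith
  set d := b - a with hdd
  set B : ℝ := ∑ i ∈ Ico 0 K, qq p a i with hB
  have hB0 : 0 ≤ B := ana_sum_nonneg hp 0 K ha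
  have hy : 0 < d * T := by positivity
  have hGB : B ≤ G p a T 0 K := by
    unfold G
    have : 0 ≤ a * T := by positivity
    linarith
  have key : ∑ i ∈ Ico 0 K, p i / ((p i + a) * (p i + b)) ≤ T * B / (B + d * T) := by
    rcases hB0.eq_or_lt with h0 | hBpos
    · have hall : ∀ i ∈ Ico 0 K, qq p a i = 0 := by
        have := (Finset.sum_eq_zero_iff_of_nonneg (fun i _ => qq_nonneg hp ha i)).mp
          (hB.symm.trans h0.symm)
        exact this
      have hz : ∀ i ∈ Ico 0 K, p i / ((p i + a) * (p i + b)) = 0 := by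
        intro i hi
        have h1 := hall i hi
        unfold qq at h1
        rw [← div_div, h1, zero_div]
      rw [Finset.sum_congr rfl hz, ← h0]
      simp
    · have hfoc := ana_foc hp ha hmin
      have hden : 0 < B + d * T := by positivity
      have hterm : ∀ i ∈ Ico 0 K, p i / ((p i + a) * (p i + b))
          ≤ qq p a i * (T / (B + d * T))
            + (B / (B + d * T)) ^ 2 * (p i / ((p i + a) * (p i + a)) - qq p a i * (T / B)) := by
        intro i _
        unfold qq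
        rcases (hp i).eq_or_lt with h | h
        · rw [← h]; simp
        · have e1 : 0 < p i + a := by positivity
          have e2 : 0 < p i + b := by positivity
          have hbe : p i + b = (p i + a) + d := by rw [hdd]; ring
          have hid : p i / (p i + a) * (T / (B + d * T))
            + (B / (B + d * T)) ^ 2 * (p i / ((p i + a) * (p i + a)) - p i / (p i + a) * (T / B))
            - p i / ((p i + a) * (p i + b))
            = p i * d * (B - (p i + a) * T) ^ 2
              / ((p i + a) ^ 2 * (p i + b) * (B + d * T) ^ 2) := by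
            rw [hbe]
            rw [hbe] at e2
            field_simp
            ring
          have hnn : 0 ≤ p i * d * (B - (p i + a) * T) ^ 2
              / ((p i + a) ^ 2 * (p i + b) * (B + d * T) ^ 2) := by positivity
          linarith
      refine le_trans (Finset.sum_le_sum hterm) ?_
      rw [Finset.sum_add_distrib, ← Finset.sum_mul, ← Finset.mul_sum, Finset.sum_sub_distrib,
        ← Finset.sum_mul, ← hB]
      have h1 : ∑ i ∈ Ico 0 K, p i / ((p i + a) * (p i + a)) - B * (T / B) ≤ 0 := by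
        have : B * (T / B) = T := by field_simp
        rw [this]; linarith
      have h2 : (B / (B + d * T)) ^ 2
          * (∑ i ∈ Ico 0 K, p i / ((p i + a) * (p i + a)) - B * (T / B)) ≤ 0 :=
        mul_nonpos_of_nonneg_of_nonpos (by positivity) h1
      have h3 : B * (T / (B + d * T)) = T * B / (B + d * T) := by ring
      linarith
  have hGsub := ana_G_sub hp K T ha hb
  rw [← hdd] at hGsub
  have hG0 : 0 ≤ G p a T 0 K := le_trans hB0 hGB
  have hB2 : 0 < B + d * T := by linarith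
  have hfin : (d * T) ^ 2 / (B + d * T) ≤ G p b T 0 K - G p a T 0 K := by
    rw [hGsub]
    have : (d * T) ^ 2 / (B + d * T) = d * (T - T * B / (B + d * T)) := by
      field_simp
      ring
    rw [this]
    exact mul_le_mul_of_nonneg_left (by linarith) hd.le
  refine le_trans ?_ hfin
  exact div_le_div_of_nonneg_left (by positivity) hB2 (by linarith)

lemma ana_qq_anti {p : ℕ → ℝ} (hp : ∀ i, 0 ≤ p i) {a b : ℝ} (ha : 0 ≤ a) (hab : a ≤ b) (i : ℕ) :
    qq p b i ≤ qq p a i := by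
  unfold qq
  have h := ana_qq_sub (hp i) ha (le_trans ha hab)
  have h2 : 0 ≤ (b - a) * (p i / ((p i + a) * (p i + b))) := by
    have := hp i
    have h3 : 0 ≤ b := le_trans ha hab
    exact mul_nonneg (by linarith) (div_nonneg this (by positivity))
  linarith

theorem left_exit {p : ℕ → ℝ} (hp : ∀ i, 0 ≤ p i) {K m : ℕ} (hm : m ≤ K) {T a b : ℝ}
    (ha : 0 ≤ a) (hab : a ≤ b) :
    (∑ i ∈ Ico 0 m, qq p b i) + G p a T m K ≤ G p a T 0 K := by
  unfold G
  have h1 : ∑ i ∈ Ico 0 m, qq p b i ≤ ∑ i ∈ Ico 0 m, qq p a i :=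
    Finset.sum_le_sum (fun i _ => ana_qq_anti hp ha hab i)
  have h2 := Finset.sum_Ico_consecutive (fun i => qq p a i) (Nat.zero_le m) hm
  linarith

theorem bottom_exit {p : ℕ → ℝ} (hp : ∀ i, 0 ≤ p i) {K : ℕ} {T T' a b η : ℝ} (hT : 0 < T)
    (hη : 0 < η) (hη' : η ≤ 1 / 4) (ha : 0 ≤ a)
    (hmin : ∀ α, 0 ≤ α → G p a T 0 K ≤ G p α T 0 K)
    (hcase : η * G p a T 0 K < a * T) (hb : b = a + η ^ 2 * G p a T 0 K / T)
    (hT'0 : 0 ≤ T') (hT' : T' ≤ (1 - 3 * η) * T) :
    G p (b * (1 + η / 2)) T' 0 K ≤ G p b T' 0 K - η ^ 3 / 4 * G p a T 0 K := by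
  have hG0 : 0 ≤ G p a T 0 K := by
    unfold G
    have h1 := ana_sum_nonneg hp 0 K ha
    have : 0 ≤ a * T := by positivity
    linarith
  have haT : 0 < a * T := lt_of_le_of_lt (by positivity) hcase
  have ha' : 0 < a := by
    by_contra h
    push Not at h
    have : a = 0 := le_antisymm h ha
    rw [this] at haT
    simp at haT
  have hfoc := ana_foc' hp ha' hmin
  have hb1 : a ≤ b := by
    rw [hb]
    have : 0 ≤ η ^ 2 * G p a T 0 K / T := by positivity
    linarith
  have hb2 : b ≤ (1 + η) * a := by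
    rw [hb]
    have : η ^ 2 * G p a T 0 K / T ≤ η * a := by
      rw [div_le_iff₀ hT]
      nlinarith
    linarith
  have hbpos : 0 < b := by linarith
  set β := b * (1 + η / 2) with hβ
  have hβpos : 0 < β := by positivity
  have hβ2 : β ≤ (1 + η) * (1 + η / 2) * a := by
    rw [hβ]
    nlinarith
  have hsub := ana_G_sub hp K T' hbpos.le hβpos.le
  have hsum : (1 - 5 * η / 2) * T ≤ ∑ i ∈ Ico 0 K, p i / ((p i + b) * (p i + β)) := by
    have hpos : 0 ≤ 1 - 5 * η / 2 := by linarith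
    have h1 : (1 - 5 * η / 2) * T ≤
        (1 - 5 * η / 2) * ∑ i ∈ Ico 0 K, p i / ((p i + a) * (p i + a)) :=
      mul_le_mul_of_nonneg_left hfoc hpos
    refine le_trans h1 ?_
    rw [Finset.mul_sum]
    refine Finset.sum_le_sum (fun i _ => ?_)
    have hpi := hp i
    have e1 : 0 < p i + a := by positivity
    have e2 : 0 < p i + b := by positivity
    have e3 : 0 < p i + β := by positivity
    rw [← mul_div_assoc, div_le_div_iff₀ (by positivity) (by positivity)]
    have f1 : p i + b ≤ (1 + η) * (p i + a) := by nlinarith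
    have f2 : p i + β ≤ (1 + η) * (1 + η / 2) * (p i + a) := by
      have : p i ≤ (1 + η) * (1 + η / 2) * p i := by
        have : 1 ≤ (1 + η) * (1 + η / 2) := by nlinarith
        nlinarith
      linarith
    have f3 : (p i + b) * (p i + β)
        ≤ ((1 + η) * (p i + a)) * ((1 + η) * (1 + η / 2) * (p i + a)) :=
      mul_le_mul f1 f2 e3.le (by positivity)
    have f4 : (1 - 5 * η / 2) * ((1 + η) * ((1 + η) * (1 + η / 2))) ≤ 1 := by
      have : (1 - 5 * η / 2) * ((1 + η) * ((1 + η) * (1 + η / 2)))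
        = 1 - 17 * η ^ 2 / 4 - 9 * η ^ 3 / 2 - 5 * η ^ 4 / 4 := by ring
      rw [this]
      have : 0 ≤ 17 * η ^ 2 / 4 + 9 * η ^ 3 / 2 + 5 * η ^ 4 / 4 := by positivity
      linarith
    calc (1 - 5 * η / 2) * p i * ((p i + b) * (p i + β))
        ≤ (1 - 5 * η / 2) * p i
          * (((1 + η) * (p i + a)) * ((1 + η) * (1 + η / 2) * (p i + a))) :=
          mul_le_mul_of_nonneg_left f3 (by positivity)
      _ = p i * ((p i + a) * (p i + a))
          * ((1 - 5 * η / 2) * ((1 + η) * ((1 + η) * (1 + η / 2)))) := by ring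
      _ ≤ p i * ((p i + a) * (p i + a)) * 1 :=
          mul_le_mul_of_nonneg_left f4 (by positivity)
      _ = p i * ((p i + a) * (p i + a)) := by ring
  have hdiff : β - b = b * η / 2 := by rw [hβ]; ring
  have h5 : T' - ∑ i ∈ Ico 0 K, p i / ((p i + b) * (p i + β)) ≤ -(η / 2 * T) := by
    nlinarith
  have h6 : (β - b) * (T' - ∑ i ∈ Ico 0 K, p i / ((p i + b) * (p i + β)))
      ≤ (β - b) * (-(η / 2 * T)) :=
    mul_le_mul_of_nonneg_left h5 (by rw [hdiff]; positivity)
  have h7 : (β - b) * (-(η / 2 * T)) = -(η ^ 2 / 4 * (b * T)) := by rw [hdiff]; ring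
  have h8 : η * G p a T 0 K ≤ b * T := by
    have : a * T ≤ b * T := mul_le_mul_of_nonneg_right hb1 hT.le
    linarith
  have h9 : η ^ 2 / 4 * (η * G p a T 0 K) ≤ η ^ 2 / 4 * (b * T) :=
    mul_le_mul_of_nonneg_left h8 (by positivity)
  have h10 : η ^ 3 / 4 * G p a T 0 K = η ^ 2 / 4 * (η * G p a T 0 K) := by ring
  linarith

theorem G_min_le {p : ℕ → ℝ} (hp : ∀ i, 0 ≤ p i) {K : ℕ} (hs : ∑ i ∈ range K, p i ≤ 1)
    {T a : ℝ} (hT : 0 < T) (hmin : ∀ α, 0 ≤ α → G p a T 0 K ≤ G p α T 0 K) :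
    G p a T 0 K ≤ 2 * Real.sqrt T := by
  have hs0 : 0 < Real.sqrt T := Real.sqrt_pos.mpr hT
  refine le_trans (hmin (1 / Real.sqrt T) (by positivity)) ?_
  unfold G
  have h1 : 1 / Real.sqrt T * T = Real.sqrt T := by
    rw [one_div, inv_mul_eq_div, div_eq_iff hs0.ne']
    exact (Real.mul_self_sqrt hT.le).symm
  have h2 : ∑ i ∈ Ico 0 K, qq p (1 / Real.sqrt T) i ≤ ∑ i ∈ Ico 0 K, p i * Real.sqrt T := by
    refine Finset.sum_le_sum (fun i _ => ?_)
    unfold qq
    have hpi := hp i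
    rw [div_le_iff₀ (by positivity)]
    have : p i * Real.sqrt T * (p i + 1 / Real.sqrt T)
      = p i + p i * Real.sqrt T * p i := by
      field_simp
      ring
    rw [this]
    have : 0 ≤ p i * Real.sqrt T * p i := by positivity
    linarith
  have h3 : ∑ i ∈ Ico 0 K, p i * Real.sqrt T ≤ Real.sqrt T := by
    rw [← Finset.sum_mul, ← Finset.range_eq_Ico]
    calc (∑ i ∈ range K, p i) * Real.sqrt T ≤ 1 * Real.sqrt T :=
          mul_le_mul_of_nonneg_right hs hs0.le
      _ = Real.sqrt T := one_mul _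
  linarith

end R776.LI
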