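import Pool.Agent.R776.LI.Defs

/-!
Deterministic list lemmas for MP_6ef346_pr.
-/

namespace R776.LI

open Finset Filter Topology MeasureTheory ProbabilityTheory

lemma det_src_length (l : List Bool) : (src l).length = l.length := by
  induction l with
  | nil => rfl
  | cons b l ih => cases b <;> simp [src, ih]

lemma det_ins_length (l : List Bool) : ∀ j, (ins j l).length = l.length := by
  induction l with
  | nil => intro j; cases j <;> rfl
  | cons b l ih =>
    intro j
    cases j with
    | zero => cases b <;> simp [ins, det_src_length]
    | succ j => simp [ins, ih]

theorem step_length (lo : ℕ) (e : Option ℕ) (l : List Bool) : (step lo e l).length = l.length := by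
  cases e with
  | none => exact det_src_length l
  | some j =>
    simp only [step]
    split_ifs
    · exact det_ins_length l _
    · rfl

theorem run_length (lo : ℕ) (w : List (Option ℕ)) (l : List Bool) :
    (run lo w l).length = l.length := by
  induction w generalizing l with
  | nil => rfl
  | cons e w ih =>
    show (run lo w (step lo e l)).length = l.length
    rw [ih, step_length]

lemma det_cnt_zero (l : List Bool) : cnt l 0 = 0 := by
  simp [cnt, tot]

lemma det_cnt_nil (i : ℕ) : cnt [] i = 0 := by
  simp [cnt, tot]

lemma det_cnt_true (l : List Bool) (i : ℕ) : cnt (true :: l) (i + 1) = cnt l i + 1 := by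
  simp [cnt, tot]

lemma det_cnt_false (l : List Bool) (i : ℕ) : cnt (false :: l) (i + 1) = cnt l i := by
  simp [cnt, tot]

lemma det_cnt_src (l : List Bool) : ∀ i, cnt (src l) i = cnt l i - 1 := by
  induction l with
  | nil => intro i; simp [src, det_cnt_nil]
  | cons b l ih =>
    intro i
    cases i with
    | zero => simp [det_cnt_zero]
    | succ i =>
      cases b with
      | true => simp [src, det_cnt_true, det_cnt_false]
      | false => simp [src, det_cnt_false, ih]

lemma det_cnt_ins (l : List Bool) : ∀ i j, j < l.length →
    cnt (ins j l) i = if j < i then max (cnt l i) (cnt l j + 1) else cnt l i := by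
  induction l with
  | nil => intro i j hj; simp at hj
  | cons b l ih =>
    intro i j hj
    cases i with
    | zero => simp [det_cnt_zero]
    | succ i =>
      cases j with
      | zero =>
        cases b with
        | true => simp [ins, det_cnt_true, det_cnt_zero]
        | false =>
          simp only [ins, det_cnt_true, det_cnt_false, det_cnt_zero, det_cnt_src,
            Nat.succ_pos, if_true]
          omega
      | succ j =>
        have hj' : j < l.length := by simpa using hj
        have h := ih i j hj'
        cases b with
        | true =>
          simp only [ins, det_cnt_true, h, Nat.succ_lt_succ_iff]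
          split_ifs <;> omega
        | false =>
          simp only [ins, det_cnt_false, h, Nat.succ_lt_succ_iff]

lemma det_ins_ge (l : List Bool) : ∀ j, l.length ≤ j → ins j l = l := by
  induction l with
  | nil => intro j _; cases j <;> rfl
  | cons b l ih =>
    intro j hj
    cases j with
    | zero => simp at hj
    | succ j =>
      have : l.length ≤ j := by simpa using hj
      simp [ins, ih j this]

lemma det_tot_eq (l : List Bool) : tot l = cnt l l.length := by
  simp [cnt]

lemma det_tot_take (l : List Bool) : ∀ k, tot (l.take k) ≤ tot l := by
  induction l with
  | nil => intro k; simp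
  | cons b l ih =>
    intro k
    cases k with
    | zero => simp [tot]
    | succ k => cases b <;> simp [tot, ih]

theorem cnt_mono (l : List Bool) {m m' : ℕ} (h : m ≤ m') : cnt l m ≤ cnt l m' := by
  have : l.take m = (l.take m').take m := by
    rw [List.take_take, min_eq_left h]
  unfold cnt
  rw [this]
  exact det_tot_take _ _

lemma det_cnt_le_tot (l : List Bool) (m : ℕ) : cnt l m ≤ tot l := det_tot_take l m

lemma det_nsrc_take (w : List (Option ℕ)) : ∀ k, nsrc (w.take k) ≤ nsrc w := by
  induction w with
  | nil => intro k; simp
  | cons e w ih =>
    intro k
    cases k with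
    | zero => simp [nsrc]
    | succ k => cases e <;> simp [nsrc, ih]

theorem nsrc_take_mono (w : List (Option ℕ)) {s s' : ℕ} (h : s ≤ s') :
    nsrc (w.take s) ≤ nsrc (w.take s') := by
  have : w.take s = (w.take s').take s := by
    rw [List.take_take, min_eq_left h]
  rw [this]
  exact det_nsrc_take _ _

theorem D_lo_anti (hi : ℕ) {lo lo' : ℕ} (h : lo ≤ lo') (w : List (Option ℕ)) :
    D hi lo' w ≤ D hi lo w := by
  induction w with
  | nil => simp [D]
  | cons e w ih =>
    cases e with
    | none => simpa [D] using ih
    | some j =>
      simp only [D]
      split_ifs with h1 h2 h2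
      · exact max_le_max ih le_rfl
      · exact absurd ⟨h.trans h1.1, h1.2⟩ h2
      · exact ih.trans (le_max_left _ _)
      · exact ih

theorem D_hi_mono {hi hi' : ℕ} (h : hi ≤ hi') (lo : ℕ) (w : List (Option ℕ)) :
    D hi lo w ≤ D hi' lo w := by
  induction w generalizing lo with
  | nil => simp [D]
  | cons e w ih =>
    cases e with
    | none => simpa [D] using ih lo
    | some j =>
      simp only [D]
      split_ifs with h1 h2 h2
      · exact max_le_max (ih lo) (Nat.add_le_add_left (ih (j + 1)) 1)
      · exact absurd ⟨h1.1, h1.2.trans_le h⟩ h2
      · exact (ih lo).trans (le_max_left _ _)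
      · exact ih lo

lemma det_D_cons (hi lo : ℕ) (e : Option ℕ) (w : List (Option ℕ)) :
    D hi lo w ≤ D hi lo (e :: w) := by
  cases e with
  | none => simp [D]
  | some j =>
    simp only [D]
    split_ifs
    · exact le_max_left _ _
    · exact le_rfl

lemma det_D_drop (hi lo : ℕ) (w : List (Option ℕ)) : ∀ k, D hi lo (w.drop k) ≤ D hi lo w := by
  induction w with
  | nil => intro k; simp
  | cons e w ih =>
    intro k
    cases k with
    | zero => simp
    | succ k => exact (ih k).trans (det_D_cons hi lo e w)

theorem D_drop_anti (hi lo : ℕ) (w : List (Option ℕ)) {s s' : ℕ} (h : s ≤ s') :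
    D hi lo (w.drop s') ≤ D hi lo (w.drop s) := by
  have : w.drop s' = (w.drop s).drop (s' - s) := by
    rw [List.drop_drop]
    congr 1
    omega
  rw [this]
  exact det_D_drop _ _ _ _

theorem D_clean (K lo : ℕ) (w : List (Option ℕ)) :
    D K lo (w.map (fun e => some (e.getD K))) = D K lo w := by
  induction w generalizing lo with
  | nil => rfl
  | cons e w ih =>
    cases e with
    | none => simp [D, ih]
    | some j => simp [D, ih]

lemma det_D_use {hi lo j : ℕ} (h1 : lo ≤ j) (h2 : j < hi) (w : List (Option ℕ)) :
    1 + D hi (j + 1) w ≤ D hi lo (some j :: w) := by
  simp only [D, if_pos (And.intro h1 h2)]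
  exact le_max_right _ _

theorem D_add_cnt_le (lo n : ℕ) (w : List (Option ℕ)) (l : List Bool) (hl : l.length = n)
    (m : ℕ) (hm : m ≤ n) :
    D (lo + n) (lo + m) w + cnt l m ≤ nsrc w + tot (run lo w l) := by
  induction w generalizing l m with
  | nil =>
    simp only [D, nsrc, run, Nat.zero_add]
    exact det_cnt_le_tot l m
  | cons e w ih =>
    cases e with
    | none =>
      have h := ih (src l) ((det_src_length l).trans hl) m hm
      rw [det_cnt_src] at h
      show D (lo + n) (lo + m) w + cnt l m ≤ nsrc w + 1 + tot (run lo w (src l))
      omega
    | some j =>
      have hlen : (step lo (some j) l).length = n := (step_length lo (some j) l).trans hl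
      have h := ih (step lo (some j) l) hlen m hm
      have hge : ∀ i, cnt l i ≤ cnt (step lo (some j) l) i := by
        intro i
        simp only [step]
        split_ifs with hj
        · by_cases hjl : j - lo < l.length
          · rw [det_cnt_ins l i (j - lo) hjl]
            split_ifs
            · exact le_max_left _ _
            · exact le_rfl
          · rw [det_ins_ge l (j - lo) (not_lt.mp hjl)]
        · exact le_rfl
      show D (lo + n) (lo + m) (some j :: w) + cnt l m
        ≤ nsrc w + tot (run lo w (step lo (some j) l))
      by_cases hc : lo + m ≤ j ∧ j < lo + n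
      · have h' := ih (step lo (some j) l) hlen (j - lo + 1) (by omega)
        have e1 : lo + (j - lo + 1) = j + 1 := by omega
        rw [e1] at h'
        have hjl : j - lo < l.length := by omega
        have h2 : cnt (step lo (some j) l) (j - lo + 1) ≥ cnt l (j - lo) + 1 := by
          have hlo : lo ≤ j := by omega
          simp only [step, if_pos hlo]
          rw [det_cnt_ins l _ _ hjl, if_pos (Nat.lt_succ_self _)]
          exact le_max_right _ _
        have h3 : cnt l m ≤ cnt l (j - lo) := cnt_mono l (by omega)
        have h4 := hge m
        simp only [D, if_pos hc]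
        rcases le_total (D (lo + n) (lo + m) w) (1 + D (lo + n) (j + 1) w) with h5 | h5
        · rw [max_eq_right h5]; omega
        · rw [max_eq_left h5]; omega
      · have h4 := hge m
        simp only [D, if_neg hc]
        omega

theorem variational (K : ℕ) (w : List (Option ℕ)) (l : List Bool) (hl : l.length = K) :
    (∃ s ≤ w.length, nsrc w + tot (run 0 w l) ≤ nsrc (w.take s) + D K 0 (w.drop s)) ∨
    (∃ m ≤ K, nsrc w + tot (run 0 w l) ≤ cnt l m + D K m w) := by
  induction w generalizing l with
  | nil =>
    right
    refine ⟨K, le_rfl, ?_⟩
    simp only [nsrc, run, D, Nat.zero_add, Nat.add_zero]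
    rw [det_tot_eq, hl]
  | cons e w ih =>
    rcases ih (step 0 e l) ((step_length 0 e l).trans hl) with ⟨s, hs, h⟩ | ⟨m, hm, h⟩
    · left
      refine ⟨s + 1, by simpa using hs, ?_⟩
      cases e with
      | none =>
        simp only [List.take_succ_cons, List.drop_succ_cons, nsrc, run] at h ⊢
        omega
      | some j =>
        simp only [List.take_succ_cons, List.drop_succ_cons, nsrc, run] at h ⊢
        omega
    · cases e with
      | none =>
        have h1 : cnt (step 0 none l) m = cnt l m - 1 := det_cnt_src l m
        by_cases hc : cnt l m = 0
        · left
          refine ⟨1, by simp, ?_⟩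
          simp only [List.take_succ_cons, List.drop_succ_cons, List.take_zero, List.drop_zero,
            nsrc, run]
          have h2 := D_lo_anti K (Nat.zero_le m) w
          omega
        · right
          refine ⟨m, hm, ?_⟩
          simp only [nsrc, run, D]
          omega
      | some j =>
        right
        simp only [nsrc, run]
        have h0 : step 0 (some j) l = ins j l := by simp [step]
        have hD := det_D_cons K m (some j) w
        by_cases hjl : j < l.length
        · have h1 : cnt (step 0 (some j) l) m
              = if j < m then max (cnt l m) (cnt l j + 1) else cnt l m := by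
            rw [h0, det_cnt_ins l m j hjl]
          split_ifs at h1 with hjm
          · rcases le_total (cnt l m) (cnt l j + 1) with h2 | h2
            · rw [max_eq_right h2] at h1
              refine ⟨j, by omega, ?_⟩
              have h3 := det_D_use (hi := K) (le_refl j) (by omega) w
              have h4 := D_lo_anti K (show j + 1 ≤ m from hjm) w
              omega
            · rw [max_eq_left h2] at h1
              exact ⟨m, hm, by omega⟩
          · exact ⟨m, hm, by omega⟩
        · have h1 : step 0 (some j) l = l := by
            rw [h0, det_ins_ge l j (not_lt.mp hjl)]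
          have h1' : cnt (step 0 (some j) l) m = cnt l m := by rw [h1]
          exact ⟨m, hm, by omega⟩

end R776.LI
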