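import Pool.Agent.R776.LI.Stat
import Pool.Agent.R776.LI.Det

namespace R776.LI

open Finset Filter Topology MeasureTheory ProbabilityTheory

/-- indicator of a source -/
noncomputable def mom_isrc (a : Option ℕ) : ℝ := if a = none then 1 else 0

theorem mom_nsrc_cons (a : Option ℕ) (w : List (Option ℕ)) :
    (nsrc (a :: w) : ℝ) = mom_isrc a + nsrc w := by
  cases a with
  | none => simp [nsrc, mom_isrc, add_comm]
  | some j => simp [nsrc, mom_isrc]

theorem mom_isrc_mean {p : ℕ → ℝ} {α : ℝ} {K : ℕ} (h : Adm p α K) :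
    (evE p α K h).E mom_isrc = α := by
  rw [stat_evE_E]
  simp [mom_isrc]

theorem mom_isrc_var {p : ℕ → ℝ} {α : ℝ} {K : ℕ} (h : Adm p α K) :
    (evE p α K h).E (fun a => (mom_isrc a - α) ^ 2) = α * (1 - α) := by
  rw [stat_evE_E]
  have h1 : ∀ j : ℕ, mom_isrc (some j) = 0 := fun j => by simp [mom_isrc]
  have h2 : mom_isrc none = 1 := by simp [mom_isrc]
  simp only [h1, h2]
  rw [← Finset.sum_mul]
  ring

theorem mom_nsrc_mean {p : ℕ → ℝ} {α : ℝ} {K : ℕ} (h : Adm p α K) (T : ℕ) :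
    (wordE (evE p α K h) T).E (fun w => (nsrc w : ℝ) - α * T) = 0 := by
  induction T with
  | zero => simp [wordE_zero_E, nsrc]
  | succ T ih =>
    rw [wordE_succ_E]
    have h1 : (fun a : Option ℕ => (wordE (evE p α K h) T).E
        (fun w => (nsrc (a :: w) : ℝ) - α * ((T + 1 : ℕ) : ℝ)))
        = fun a => mom_isrc a - α := by
      funext a
      have h2 : (fun w : List (Option ℕ) => (nsrc (a :: w) : ℝ) - α * ((T + 1 : ℕ) : ℝ))
          = fun w => (mom_isrc a - α) + ((nsrc w : ℝ) - α * T) := by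
        funext w
        rw [mom_nsrc_cons]
        push_cast
        ring
      rw [h2, Ex.add', Ex.E_const, ih, add_zero]
    rw [h1, Ex.E_sub, Ex.E_const, mom_isrc_mean, sub_self]

theorem mom_nsrc_var_eq {p : ℕ → ℝ} {α : ℝ} {K : ℕ} (h : Adm p α K) (T : ℕ) :
    (wordE (evE p α K h) T).E (fun w => ((nsrc w : ℝ) - α * T) ^ 2) = α * (1 - α) * T := by
  induction T with
  | zero => simp [wordE_zero_E, nsrc]
  | succ T ih =>
    rw [wordE_succ_E]
    have h1 : (fun a : Option ℕ => (wordE (evE p α K h) T).E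
        (fun w => ((nsrc (a :: w) : ℝ) - α * ((T + 1 : ℕ) : ℝ)) ^ 2))
        = fun a => (mom_isrc a - α) ^ 2 + α * (1 - α) * T := by
      funext a
      have h2 : (fun w : List (Option ℕ) => ((nsrc (a :: w) : ℝ) - α * ((T + 1 : ℕ) : ℝ)) ^ 2)
          = fun w => ((mom_isrc a - α) ^ 2 + (2 * (mom_isrc a - α)) * ((nsrc w : ℝ) - α * T))
            + ((nsrc w : ℝ) - α * T) ^ 2 := by
        funext w
        rw [mom_nsrc_cons]
        push_cast
        ring
      rw [h2, Ex.add', Ex.add', Ex.smul', Ex.E_const, mom_nsrc_mean h T, ih]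
      ring
    rw [h1, Ex.add', Ex.E_const, mom_isrc_var]
    push_cast
    ring

theorem nsrc_var {p : ℕ → ℝ} {α : ℝ} {K : ℕ} (h : Adm p α K) (T : ℕ) :
    (wordE (evE p α K h) T).E (fun w => ((nsrc w : ℝ) - α * T) ^ 2) ≤ α * T := by
  rw [mom_nsrc_var_eq]
  have := h.ha
  have h1 : (0 : ℝ) ≤ T := Nat.cast_nonneg T
  nlinarith [mul_nonneg (mul_nonneg this this) h1]

/-- indicator of occupation -/
noncomputable def mom_ib (b : Bool) : ℝ := if b then 1 else 0

theorem mom_cnt_zero (l : List Bool) : cnt l 0 = 0 := by simp [cnt, tot]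

theorem mom_cnt_cons (b : Bool) (l : List Bool) (m : ℕ) :
    (cnt (b :: l) (m + 1) : ℝ) = mom_ib b + cnt l m := by
  cases b with
  | true => simp [cnt, tot, mom_ib, add_comm]
  | false => simp [cnt, tot, mom_ib]

theorem mom_Ico_succ (f : ℕ → ℝ) (lo m : ℕ) :
    ∑ i ∈ Ico lo (lo + (m + 1)), f i = f lo + ∑ i ∈ Ico (lo + 1) (lo + 1 + m), f i := by
  rw [Finset.sum_eq_sum_Ico_succ_bot (by omega)]
  congr 2
  congr 1
  omega

theorem mom_cnt_mean {p : ℕ → ℝ} {α : ℝ} (hp : ∀ i, 0 ≤ p i) (ha : 0 ≤ α) (lo n m : ℕ)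
    (hm : m ≤ n) :
    (stE p α hp ha lo n).E (fun l => (cnt l m : ℝ) - ∑ i ∈ Ico lo (lo + m), qq p α i) = 0 := by
  induction n generalizing lo m with
  | zero =>
    obtain rfl : m = 0 := by omega
    simp [stE_zero_E, cnt, tot]
  | succ n ih =>
    cases m with
    | zero =>
      simp only [mom_cnt_zero]
      rw [Ex.E_const]
      simp
    | succ m =>
      rw [stE_succ_E, mom_Ico_succ]
      have h2 : ∀ b : Bool, (stE p α hp ha (lo + 1) n).E (fun l => (cnt (b :: l) (m + 1) : ℝ)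
          - (qq p α lo + ∑ i ∈ Ico (lo + 1) (lo + 1 + m), qq p α i))
          = mom_ib b - qq p α lo := by
        intro b
        have h3 : (fun l : List Bool => (cnt (b :: l) (m + 1) : ℝ)
            - (qq p α lo + ∑ i ∈ Ico (lo + 1) (lo + 1 + m), qq p α i))
            = fun l => (mom_ib b - qq p α lo)
              + ((cnt l m : ℝ) - ∑ i ∈ Ico (lo + 1) (lo + 1 + m), qq p α i) := by
          funext l
          rw [mom_cnt_cons]
          ring
        rw [h3, Ex.add', Ex.E_const, ih (lo + 1) m (by omega), add_zero]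
      rw [h2, h2]
      simp only [mom_ib, if_true, Bool.false_eq_true, if_false]
      ring

theorem mom_cnt_var_eq {p : ℕ → ℝ} {α : ℝ} (hp : ∀ i, 0 ≤ p i) (ha : 0 ≤ α) (lo n m : ℕ)
    (hm : m ≤ n) :
    (stE p α hp ha lo n).E (fun l => ((cnt l m : ℝ) - ∑ i ∈ Ico lo (lo + m), qq p α i) ^ 2)
      = ∑ i ∈ Ico lo (lo + m), qq p α i * (1 - qq p α i) := by
  induction n generalizing lo m with
  | zero =>
    obtain rfl : m = 0 := by omega
    simp [stE_zero_E, cnt, tot]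
  | succ n ih =>
    cases m with
    | zero =>
      simp only [mom_cnt_zero]
      rw [Ex.E_const]
      simp
    | succ m =>
      rw [stE_succ_E, mom_Ico_succ, mom_Ico_succ]
      have h2 : ∀ b : Bool, (stE p α hp ha (lo + 1) n).E (fun l => ((cnt (b :: l) (m + 1) : ℝ)
          - (qq p α lo + ∑ i ∈ Ico (lo + 1) (lo + 1 + m), qq p α i)) ^ 2)
          = (mom_ib b - qq p α lo) ^ 2
            + ∑ i ∈ Ico (lo + 1) (lo + 1 + m), qq p α i * (1 - qq p α i) := by
        intro b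
        have h3 : (fun l : List Bool => ((cnt (b :: l) (m + 1) : ℝ)
            - (qq p α lo + ∑ i ∈ Ico (lo + 1) (lo + 1 + m), qq p α i)) ^ 2)
            = fun l => ((mom_ib b - qq p α lo) ^ 2 + (2 * (mom_ib b - qq p α lo))
              * ((cnt l m : ℝ) - ∑ i ∈ Ico (lo + 1) (lo + 1 + m), qq p α i))
              + ((cnt l m : ℝ) - ∑ i ∈ Ico (lo + 1) (lo + 1 + m), qq p α i) ^ 2 := by
          funext l
          rw [mom_cnt_cons]
          ring
        rw [h3, Ex.add', Ex.add', Ex.smul', Ex.E_const, mom_cnt_mean hp ha (lo + 1) n m (by omega),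
          ih (lo + 1) m (by omega)]
        ring
      rw [h2, h2]
      simp only [mom_ib, if_true, Bool.false_eq_true, if_false]
      ring

theorem cnt_var {p : ℕ → ℝ} {α : ℝ} (hp : ∀ i, 0 ≤ p i) (ha : 0 ≤ α) (lo n m : ℕ)
    (hm : m ≤ n) :
    (stE p α hp ha lo n).E (fun l => ((cnt l m : ℝ) - ∑ i ∈ Ico lo (lo + m), qq p α i) ^ 2)
      ≤ ∑ i ∈ Ico lo (lo + m), qq p α i := by
  rw [mom_cnt_var_eq hp ha lo n m hm]
  refine Finset.sum_le_sum (fun i _ => ?_)
  nlinarith [mul_nonneg (qq_nonneg hp ha i) (qq_nonneg hp ha i)]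

theorem tot_var {p : ℕ → ℝ} {α : ℝ} (hp : ∀ i, 0 ≤ p i) (ha : 0 ≤ α) (lo n : ℕ) :
    (stE p α hp ha lo n).E (fun l => ((tot l : ℝ) - ∑ i ∈ Ico lo (lo + n), qq p α i) ^ 2)
      ≤ ∑ i ∈ Ico lo (lo + n), qq p α i := by
  refine le_trans (le_of_eq ?_) (cnt_var hp ha lo n n le_rfl)
  refine stE_congr hp ha lo n _ _ (fun l hl => ?_)
  have : cnt l n = tot l := by
    rw [cnt, ← hl, List.take_length]
  rw [this]

/-- uses D_add_cnt_le, stE_run -/
theorem D_upper {p : ℕ → ℝ} {α : ℝ} {K : ℕ} (h : Adm p α K) (lo : ℕ) (hlo : lo ≤ K) (T : ℕ)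
    (r : ℝ) (hr : 0 < r) :
    (wordE (evE p α K h) T).pr (fun w => G p α T lo K + r ≤ (D K lo w : ℝ))
      ≤ 4 * G p α T lo K / r ^ 2 := by
  classical
  set W := wordE (evE p α K h) T with hW
  set S := stE p α h.hp h.ha lo (K - lo) with hS
  set Q := ∑ i ∈ Ico lo K, qq p α i with hQ
  have hQ' : ∑ i ∈ Ico lo (lo + (K - lo)), qq p α i = Q := by
    rw [hQ]; congr 2; omega
  have hG : G p α T lo K = α * T + Q := rfl
  have e1 : W.pr (fun w => G p α T lo K + r ≤ (D K lo w : ℝ))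
      = S.E (fun _ => W.pr (fun w => G p α T lo K + r ≤ (D K lo w : ℝ))) := by
    rw [Ex.E_const]
  rw [e1]
  have e2 : S.E (fun _ => W.pr (fun w => G p α T lo K + r ≤ (D K lo w : ℝ)))
      ≤ S.E (fun l => W.pr (fun w => r / 2 ≤ |(nsrc w : ℝ) - α * T|)
        + W.pr (fun w => r / 2 ≤ |(tot (run lo w l) : ℝ) - Q|)) := by
    refine stE_le _ _ _ _ _ _ (fun l hl => ?_)
    refine le_trans (Ex.pr_mono _ _ (fun w => r / 2 ≤ |(nsrc w : ℝ) - α * T| ∨
      r / 2 ≤ |(tot (run lo w l) : ℝ) - Q|) (fun w hw => ?_)) (Ex.pr_or _ _ _)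
    have h1 := D_add_cnt_le lo (K - lo) w l hl 0 (Nat.zero_le _)
    have h2 : lo + (K - lo) = K := by omega
    rw [h2, mom_cnt_zero, add_zero, add_zero] at h1
    have h3 : (D K lo w : ℝ) ≤ (nsrc w : ℝ) + tot (run lo w l) := by exact_mod_cast h1
    rw [hG] at hw
    by_contra hc
    push Not at hc
    have h4 := (abs_lt.mp hc.1).2
    have h5 := (abs_lt.mp hc.2).2
    linarith
  refine le_trans e2 ?_
  rw [Ex.add', Ex.E_const]
  have e3 : S.E (fun l => W.pr (fun w => r / 2 ≤ |(tot (run lo w l) : ℝ) - Q|))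
      = S.pr (fun l => r / 2 ≤ |(tot l : ℝ) - Q|) :=
    stE_run h lo (K - lo) (by omega) T (fun l => if r / 2 ≤ |(tot l : ℝ) - Q| then 1 else 0)
  rw [e3]
  have h6 := Ex.cheb W (fun w => (nsrc w : ℝ)) (α * T) (α * T) (r / 2) (by positivity)
    (nsrc_var h T)
  have h7 := Ex.cheb S (fun l => (tot l : ℝ)) Q Q (r / 2) (by positivity) (by
    have := tot_var h.hp h.ha lo (K - lo)
    rwa [hQ'] at this)
  have h8 : 4 * G p α T lo K / r ^ 2 = α * T / (r / 2) ^ 2 + Q / (r / 2) ^ 2 := by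
    rw [hG]
    field_simp
    ring
  rw [h8]
  exact add_le_add h6 h7

/-- uses stE_run -/
theorem H_lower {p : ℕ → ℝ} {α : ℝ} {K : ℕ} (h : Adm p α K) (T : ℕ) (r : ℝ) (hr : 0 < r) :
    ((stE p α h.hp h.ha 0 K).E (fun l => (wordE (evE p α K h) T).pr
      (fun w => (nsrc w : ℝ) + tot (run 0 w l) ≤ G p α T 0 K - r)))
      ≤ 4 * G p α T 0 K / r ^ 2 := by
  classical
  set W := wordE (evE p α K h) T with hW
  set S := stE p α h.hp h.ha 0 K with hS
  set Q := ∑ i ∈ Ico 0 K, qq p α i with hQ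
  have hG : G p α T 0 K = α * T + Q := rfl
  have e2 : S.E (fun l => W.pr (fun w => (nsrc w : ℝ) + tot (run 0 w l) ≤ G p α T 0 K - r))
      ≤ S.E (fun l => W.pr (fun w => r / 2 ≤ |(nsrc w : ℝ) - α * T|)
        + W.pr (fun w => r / 2 ≤ |(tot (run 0 w l) : ℝ) - Q|)) := by
    refine Ex.mono' _ _ _ (fun l => ?_)
    refine le_trans (Ex.pr_mono _ _ (fun w => r / 2 ≤ |(nsrc w : ℝ) - α * T| ∨
      r / 2 ≤ |(tot (run 0 w l) : ℝ) - Q|) (fun w hw => ?_)) (Ex.pr_or _ _ _)
    rw [hG] at hw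
    by_contra hc
    push Not at hc
    have h4 := (abs_lt.mp hc.1).1
    have h5 := (abs_lt.mp hc.2).1
    linarith
  refine le_trans e2 ?_
  rw [Ex.add', Ex.E_const]
  have e3 : S.E (fun l => W.pr (fun w => r / 2 ≤ |(tot (run 0 w l) : ℝ) - Q|))
      = S.pr (fun l => r / 2 ≤ |(tot l : ℝ) - Q|) :=
    stE_run h 0 K (by omega) T (fun l => if r / 2 ≤ |(tot l : ℝ) - Q| then 1 else 0)
  rw [e3]
  have h6 := Ex.cheb W (fun w => (nsrc w : ℝ)) (α * T) (α * T) (r / 2) (by positivity)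
    (nsrc_var h T)
  have h7 := Ex.cheb S (fun l => (tot l : ℝ)) Q Q (r / 2) (by positivity) (by
    have := tot_var h.hp h.ha 0 K
    rwa [Nat.zero_add] at this)
  have h8 : 4 * G p α T 0 K / r ^ 2 = α * T / (r / 2) ^ 2 + Q / (r / 2) ^ 2 := by
    rw [hG]
    field_simp
    ring
  rw [h8]
  exact add_le_add h6 h7

end R776.LI
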