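import Pool.Agent.R776.LI.Defs

namespace R776.LI

open Finset Filter Topology MeasureTheory ProbabilityTheory

/-! ### congruence and monotonicity of word functionals -/

theorem wordE_zero_E {A : Type} (P : Ex A) (φ : List A → ℝ) : (wordE P 0).E φ = φ [] := rfl

theorem wordE_succ_E {A : Type} (P : Ex A) (n : ℕ) (φ : List A → ℝ) :
    (wordE P (n + 1)).E φ = P.E (fun a => (wordE P n).E (fun w => φ (a :: w))) := rfl

theorem stE_zero_E {p : ℕ → ℝ} {α : ℝ} (hp : ∀ i, 0 ≤ p i) (ha : 0 ≤ α) (lo : ℕ)
    (φ : List Bool → ℝ) : (stE p α hp ha lo 0).E φ = φ [] := by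
  rw [stE]; rfl

theorem stE_succ_E {p : ℕ → ℝ} {α : ℝ} (hp : ∀ i, 0 ≤ p i) (ha : 0 ≤ α) (lo n : ℕ)
    (φ : List Bool → ℝ) : (stE p α hp ha lo (n + 1)).E φ
      = qq p α lo * (stE p α hp ha (lo + 1) n).E (fun l => φ (true :: l))
        + (1 - qq p α lo) * (stE p α hp ha (lo + 1) n).E (fun l => φ (false :: l)) := by
  rw [stE]; rfl

theorem wordE_le {A : Type} (P : Ex A) (n : ℕ) (φ ψ : List A → ℝ)
    (h : ∀ w, w.length = n → φ w ≤ ψ w) : (wordE P n).E φ ≤ (wordE P n).E ψ := by
  induction n generalizing φ ψ with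
  | zero => exact h [] rfl
  | succ n ih =>
    rw [wordE_succ_E, wordE_succ_E]
    refine P.mono' _ _ (fun a => ih _ _ (fun w hw => h _ ?_))
    simp [hw]

theorem wordE_congr {A : Type} (P : Ex A) (n : ℕ) (φ ψ : List A → ℝ)
    (h : ∀ w, w.length = n → φ w = ψ w) : (wordE P n).E φ = (wordE P n).E ψ :=
  le_antisymm (wordE_le P n _ _ (fun w hw => (h w hw).le))
    (wordE_le P n _ _ (fun w hw => (h w hw).ge))

theorem stE_le {p : ℕ → ℝ} {α : ℝ} (hp : ∀ i, 0 ≤ p i) (ha : 0 ≤ α) (lo n : ℕ)
    (φ ψ : List Bool → ℝ) (h : ∀ l, l.length = n → φ l ≤ ψ l) :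
    (stE p α hp ha lo n).E φ ≤ (stE p α hp ha lo n).E ψ := by
  induction n generalizing φ ψ lo with
  | zero =>
    rw [stE_zero_E, stE_zero_E]
    exact h [] rfl
  | succ n ih =>
    rw [stE_succ_E, stE_succ_E]
    have h1 := ih (lo + 1) (fun l => φ (true :: l)) (fun l => ψ (true :: l))
      (fun l hl => h _ (by simp [hl]))
    have h2 := ih (lo + 1) (fun l => φ (false :: l)) (fun l => ψ (false :: l))
      (fun l hl => h _ (by simp [hl]))
    have h3 := mul_le_mul_of_nonneg_left h1 (qq_nonneg hp ha lo)
    have h4 := mul_le_mul_of_nonneg_left h2 (sub_nonneg.mpr (qq_le_one hp ha lo))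
    linarith

theorem stE_congr {p : ℕ → ℝ} {α : ℝ} (hp : ∀ i, 0 ≤ p i) (ha : 0 ≤ α) (lo n : ℕ)
    (φ ψ : List Bool → ℝ) (h : ∀ l, l.length = n → φ l = ψ l) :
    (stE p α hp ha lo n).E φ = (stE p α hp ha lo n).E ψ :=
  le_antisymm (stE_le hp ha lo n _ _ (fun w hw => (h w hw).le))
    (stE_le hp ha lo n _ _ (fun w hw => (h w hw).ge))

/-! ### elementary facts on `ins` -/

theorem stat_ins_ge (j : ℕ) (l : List Bool) (h : l.length ≤ j) : ins j l = l := by
  induction l generalizing j with
  | nil => cases j <;> rfl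
  | cons b l ih =>
    cases j with
    | zero => simp at h
    | succ j =>
      simp only [ins]
      rw [ih j (by simpa using h)]

theorem stat_step_null (K lo : ℕ) (l : List Bool) (h : lo + l.length ≤ K) :
    step lo (some K) l = l := by
  simp only [step]
  split_ifs with h1
  · exact stat_ins_ge _ _ (by omega)
  · rfl

theorem stat_step_cons_ne (lo j : ℕ) (b : Bool) (l : List Bool) (h : j ≠ lo) :
    step lo (some j) (b :: l) = b :: step (lo + 1) (some j) l := by
  simp only [step]
  by_cases h1 : lo ≤ j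
  · have h2 : lo + 1 ≤ j := by omega
    rw [if_pos h1, if_pos h2]
    obtain ⟨k, hk⟩ : ∃ k, j - lo = k + 1 := ⟨j - lo - 1, by omega⟩
    have h3 : j - (lo + 1) = k := by omega
    rw [hk, h3]
    simp [ins]
  · have h2 : ¬ lo + 1 ≤ j := by omega
    rw [if_neg h1, if_neg h2]

theorem stat_step_self_true (lo : ℕ) (l : List Bool) :
    step lo (some lo) (true :: l) = true :: l := by
  simp [step, ins]

theorem stat_step_self_false (lo : ℕ) (l : List Bool) :
    step lo (some lo) (false :: l) = true :: src l := by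
  simp [step, ins]

theorem stat_step_succ_self (lo : ℕ) (l : List Bool) :
    step (lo + 1) (some lo) l = l := by
  simp [step]

theorem stat_balance {p : ℕ → ℝ} {α : ℝ} (hp : ∀ i, 0 ≤ p i) (ha : 0 ≤ α) (K : ℕ) (lo n : ℕ)
    (hn : lo + n ≤ K) (φ : List Bool → ℝ) :
    α * (stE p α hp ha lo n).E (fun l => φ (src l))
      + ∑ j ∈ range K, p j * (stE p α hp ha lo n).E (fun l => φ (step lo (some j) l))
      = (α + ∑ j ∈ range K, p j) * (stE p α hp ha lo n).E φ := by
  induction n generalizing lo φ with
  | zero =>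
    simp only [stE_zero_E]
    have h1 : ∀ j, step lo (some j) [] = [] := by
      intro j
      simp only [step]
      split_ifs
      · exact stat_ins_ge _ _ (by simp)
      · rfl
    simp only [h1, src]
    rw [← Finset.sum_mul]
    ring
  | succ n ih =>
    have ih1 := ih (lo + 1) (by omega) (fun l => φ (true :: l))
    have ih0 := ih (lo + 1) (by omega) (fun l => φ (false :: l))
    have hlo : lo ∈ range K := by rw [mem_range]; omega
    have hterm : ∀ j ∈ range K, j ≠ lo →
        p j * (stE p α hp ha lo (n + 1)).E (fun l => φ (step lo (some j) l))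
        = qq p α lo * (p j * (stE p α hp ha (lo + 1) n).E
            (fun l => φ (true :: step (lo + 1) (some j) l)))
          + (1 - qq p α lo) * (p j * (stE p α hp ha (lo + 1) n).E
            (fun l => φ (false :: step (lo + 1) (some j) l))) := by
      intro j _ hj
      rw [stE_succ_E]
      simp only [stat_step_cons_ne lo j _ _ hj]
      ring
    have hsum : ∑ j ∈ range K,
        p j * (stE p α hp ha lo (n + 1)).E (fun l => φ (step lo (some j) l))
        = qq p α lo * (∑ j ∈ range K, p j * (stE p α hp ha (lo + 1) n).E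
            (fun l => φ (true :: step (lo + 1) (some j) l)))
          + (1 - qq p α lo) * (∑ j ∈ range K, p j * (stE p α hp ha (lo + 1) n).E
            (fun l => φ (false :: step (lo + 1) (some j) l)))
          + p lo * (1 - qq p α lo) * ((stE p α hp ha (lo + 1) n).E (fun l => φ (true :: src l))
            - (stE p α hp ha (lo + 1) n).E (fun l => φ (false :: l))) := by
      rw [← Finset.add_sum_erase _ _ hlo, ← Finset.add_sum_erase (range K) (fun j => p j *
        (stE p α hp ha (lo + 1) n).E (fun l => φ (true :: step (lo + 1) (some j) l))) hlo,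
        ← Finset.add_sum_erase (range K) (fun j => p j *
        (stE p α hp ha (lo + 1) n).E (fun l => φ (false :: step (lo + 1) (some j) l))) hlo]
      rw [Finset.sum_congr rfl (fun j hj => hterm j (mem_of_mem_erase hj) (ne_of_mem_erase hj)),
        Finset.sum_add_distrib, ← Finset.mul_sum, ← Finset.mul_sum]
      rw [stE_succ_E]
      simp only [stat_step_self_true, stat_step_self_false, stat_step_succ_self]
      ring
    rw [hsum, stE_succ_E, stE_succ_E]
    simp only [src]
    have hq : α * qq p α lo = (1 - qq p α lo) * p lo := by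
      unfold qq
      by_cases h0 : p lo + α = 0
      · have h1 : p lo = 0 := by linarith [hp lo]
        have h2 : α = 0 := by linarith [hp lo]
        rw [h1, h2]; ring
      · field_simp
        ring
    linear_combination (qq p α lo) * ih1 + (1 - qq p α lo) * ih0
      + ((stE p α hp ha (lo + 1) n).E (fun l => φ (false :: l))
        - (stE p α hp ha (lo + 1) n).E (fun l => φ (true :: src l))) * hq

theorem stE_step {p : ℕ → ℝ} {α : ℝ} {K : ℕ} (h : Adm p α K) (lo n : ℕ) (hn : lo + n ≤ K)
    (φ : List Bool → ℝ) :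
    (stE p α h.hp h.ha lo n).E (fun l => (evE p α K h).E (fun e => φ (step lo e l)))
      = (stE p α h.hp h.ha lo n).E φ := by
  have h1 : (stE p α h.hp h.ha lo n).E (fun l => (evE p α K h).E (fun e => φ (step lo e l)))
      = (stE p α h.hp h.ha lo n).E (fun l => (α * φ (src l)
        + ∑ j ∈ range K, p j * φ (step lo (some j) l))
        + (1 - α - ∑ j ∈ range K, p j) * φ l) := by
    refine stE_congr _ _ _ _ _ _ (fun l hl => ?_)
    have h2 : step lo (some K) l = l := stat_step_null K lo l (by omega)
    simp only [evE, h2]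
    rfl
  rw [h1, Ex.add', Ex.add', Ex.smul', Ex.smul', Ex.E_sum]
  have h3 : ∀ j ∈ range K, (stE p α h.hp h.ha lo n).E (fun l => p j * φ (step lo (some j) l))
      = p j * (stE p α h.hp h.ha lo n).E (fun l => φ (step lo (some j) l)) :=
    fun j _ => Ex.smul' _ _ _
  rw [Finset.sum_congr rfl h3, stat_balance h.hp h.ha K lo n hn φ]
  ring

theorem stE_run {p : ℕ → ℝ} {α : ℝ} {K : ℕ} (h : Adm p α K) (lo n : ℕ) (hn : lo + n ≤ K)
    (T : ℕ) (φ : List Bool → ℝ) :
    (stE p α h.hp h.ha lo n).E (fun l => (wordE (evE p α K h) T).E (fun w => φ (run lo w l)))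
      = (stE p α h.hp h.ha lo n).E φ := by
  induction T with
  | zero => rfl
  | succ T ih =>
    simp only [wordE_succ_E, run]
    rw [stE_step h lo n hn (fun l => (wordE (evE p α K h) T).E (fun w => φ (run lo w l)))]
    exact ih

theorem wordE_take {A : Type} (P : Ex A) (s t : ℕ) (φ : List A → ℝ) :
    (wordE P (s + t)).E (fun w => φ (w.take s)) = (wordE P s).E φ := by
  induction s generalizing φ with
  | zero =>
    simp only [List.take_zero]
    rw [Ex.E_const]
    rfl
  | succ s ih =>
    have e : s + 1 + t = (s + t) + 1 := by omega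
    rw [e, wordE_succ_E, wordE_succ_E]
    congr 1
    funext a
    simp only [List.take_succ_cons]
    exact ih (fun w => φ (a :: w))

theorem wordE_drop {A : Type} (P : Ex A) (s t : ℕ) (φ : List A → ℝ) :
    (wordE P (s + t)).E (fun w => φ (w.drop s)) = (wordE P t).E φ := by
  induction s with
  | zero => simp
  | succ s ih =>
    have e : s + 1 + t = (s + t) + 1 := by omega
    rw [e, wordE_succ_E]
    simp only [List.drop_succ_cons]
    rw [ih, Ex.E_const]

theorem stat_evE_E {p : ℕ → ℝ} {α : ℝ} {K : ℕ} (h : Adm p α K) (φ : Option ℕ → ℝ) :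
    (evE p α K h).E φ = α * φ none + ∑ j ∈ range K, p j * φ (some j)
      + (1 - α - ∑ j ∈ range K, p j) * φ (some K) := rfl

theorem wordE_clean {p : ℕ → ℝ} {α : ℝ} {K : ℕ} (h : Adm p α K) (h0 : Adm p 0 K) (T : ℕ)
    (φ : List (Option ℕ) → ℝ) :
    (wordE (evE p α K h) T).E (fun w => φ (w.map (fun e => some (e.getD K))))
      = (wordE (evE p 0 K h0) T).E φ := by
  induction T generalizing φ with
  | zero => rfl
  | succ T ih =>
    rw [wordE_succ_E, wordE_succ_E]
    have h1 : (fun a : Option ℕ => (wordE (evE p α K h) T).E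
        (fun w => φ ((a :: w).map (fun e => some (e.getD K)))))
        = fun a => (wordE (evE p 0 K h0) T).E (fun w => φ (some (a.getD K) :: w)) := by
      funext a
      simp only [List.map_cons]
      exact ih (fun w => φ (some (a.getD K) :: w))
    rw [h1, stat_evE_E h, stat_evE_E h0]
    simp only [Option.getD_none, Option.getD_some]
    ring

end R776.LI
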