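import Pool.Agent.R776.LI.Det
import Pool.Agent.R776.LI.Stat
import Pool.Agent.R776.LI.Mom
import Pool.Agent.R776.LI.Ana

namespace R776.LI

open Finset Filter Topology

theorem Adm.zero {p : ℕ → ℝ} {α : ℝ} {K : ℕ} (h : Adm p α K) : Adm p 0 K :=
  ⟨h.hp, le_rfl, by linarith [h.ha, h.hs]⟩

theorem pr_clean0 {p : ℕ → ℝ} {α : ℝ} {K : ℕ} (h : Adm p α K) (h0 : Adm p 0 K) (T lo : ℕ)
    (S : ℕ → Prop) :
    (wordE (evE p α K h) T).pr (fun w => S (D K lo w))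
      = (wordE (evE p 0 K h0) T).pr (fun w => S (D K lo w)) := by
  classical
  unfold Ex.pr
  rw [← wordE_clean h h0 T]
  simp only [D_clean]

theorem pr_clean {p : ℕ → ℝ} {α α' : ℝ} {K : ℕ} (h : Adm p α K) (h' : Adm p α' K) (T lo : ℕ)
    (S : ℕ → Prop) :
    (wordE (evE p α K h) T).pr (fun w => S (D K lo w))
      = (wordE (evE p α' K h') T).pr (fun w => S (D K lo w)) := by
  rw [pr_clean0 h h.zero, pr_clean0 h' h.zero]

theorem grid (σ : ℕ → ℝ) (hσ : Monotone σ) (h0 : 0 ≤ σ 0) (K N : ℕ) (r : ℝ) (hr : 0 < r)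
    (hN : σ K < N * r) :
    ∃ u v : ℕ → ℕ, (∀ j, u j ≤ K) ∧ (∀ j, v j ≤ K) ∧
      ∀ m, m ≤ K → ∃ j, j < N ∧ u j ≤ m ∧ m ≤ v j ∧ σ (v j) ≤ σ (u j) + r := by
  classical
  refine ⟨fun j => if h : ∃ m, m ≤ K ∧ (j : ℝ) * r ≤ σ m then Nat.find h else 0,
    fun j => Nat.findGreatest (fun m => σ m ≤ ((j : ℝ) + 1) * r) K, ?_, ?_, ?_⟩
  · intro j
    by_cases h : ∃ m, m ≤ K ∧ (j : ℝ) * r ≤ σ m
    · simp only [dif_pos h]
      exact (Nat.find_spec h).1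
    · simp only [dif_neg h]
      exact Nat.zero_le _
  · intro j
    exact Nat.findGreatest_le K
  · intro m hm
    have hσm : 0 ≤ σ m := le_trans h0 (hσ (Nat.zero_le m))
    have hq : 0 ≤ σ m / r := div_nonneg hσm hr.le
    have h1 : (⌊σ m / r⌋₊ : ℝ) ≤ σ m / r := Nat.floor_le hq
    have h2 : σ m / r < (⌊σ m / r⌋₊ : ℝ) + 1 := Nat.lt_floor_add_one _
    have h1' : (⌊σ m / r⌋₊ : ℝ) * r ≤ σ m := by rwa [le_div_iff₀ hr] at h1
    have h2' : σ m ≤ ((⌊σ m / r⌋₊ : ℝ) + 1) * r := by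
      rw [div_lt_iff₀ hr] at h2
      exact h2.le
    have hex : ∃ m', m' ≤ K ∧ ((⌊σ m / r⌋₊ : ℕ) : ℝ) * r ≤ σ m' := ⟨m, hm, h1'⟩
    refine ⟨⌊σ m / r⌋₊, ?_, ?_, ?_, ?_⟩
    · have h3 : (⌊σ m / r⌋₊ : ℝ) * r < N * r := lt_of_le_of_lt (h1'.trans (hσ hm)) hN
      have h4 := lt_of_mul_lt_mul_right h3 hr.le
      exact_mod_cast h4
    · simp only [dif_pos hex]
      exact Nat.find_min' hex ⟨hm, h1'⟩
    · exact Nat.le_findGreatest hm h2'
    · simp only [dif_pos hex]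
      have h5 := (Nat.find_spec hex).2
      have h6 : σ (Nat.findGreatest (fun m' => σ m' ≤ ((⌊σ m / r⌋₊ : ℝ) + 1) * r) K)
          ≤ ((⌊σ m / r⌋₊ : ℝ) + 1) * r :=
        Nat.findGreatest_spec (P := fun m' => σ m' ≤ ((⌊σ m / r⌋₊ : ℝ) + 1) * r) hm h2'
      linarith

theorem qq_anti {p : ℕ → ℝ} (hp : ∀ i, 0 ≤ p i) {a b : ℝ} (ha : 0 ≤ a) (hab : a ≤ b) (i : ℕ) :
    qq p b i ≤ qq p a i := by
  unfold qq
  rcases (hp i).eq_or_lt with h | h
  · rw [← h]; simp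
  · exact div_le_div_of_nonneg_left h.le (by linarith) (by linarith)

theorem G_ge {p : ℕ → ℝ} (hp : ∀ i, 0 ≤ p i) {a T : ℝ} (ha : 0 ≤ a) (m K : ℕ) :
    a * T ≤ G p a T m K := by
  unfold G
  have : 0 ≤ ∑ i ∈ Ico m K, qq p a i := Finset.sum_nonneg (fun i _ => qq_nonneg hp ha i)
  linarith

theorem G_m_le {p : ℕ → ℝ} (hp : ∀ i, 0 ≤ p i) {a T : ℝ} (ha : 0 ≤ a) (m K : ℕ) :
    G p a T m K ≤ G p a T 0 K := by
  unfold G
  have : ∑ i ∈ Ico m K, qq p a i ≤ ∑ i ∈ Ico 0 K, qq p a i :=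
    Finset.sum_le_sum_of_subset_of_nonneg (Finset.Ico_subset_Ico (Nat.zero_le m) le_rfl)
      (fun i _ _ => qq_nonneg hp ha i)
  linarith

/-- common smallness estimates -/
theorem small_params {p : ℕ → ℝ} {K T : ℕ} {a η : ℝ} (hη : 0 < η) (hη' : η ≤ 1 / 16)
    (h0 : Adm p 0 K) (hs : ∑ i ∈ range K, p i ≤ 1 - η) (hT : 0 < T) (ha : 0 ≤ a)
    (hmin : ∀ α, 0 ≤ α → G p a T 0 K ≤ G p α T 0 K) (hF : 16 / η ≤ G p a T 0 K) :
    (a + η ^ 2 * G p a T 0 K / T) * (1 + η / 2) ≤ η := by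
  have hTr : (0 : ℝ) < T := by exact_mod_cast hT
  set f := G p a T 0 K with hf
  have hfpos : 0 < f := lt_of_lt_of_le (by positivity) hF
  have h1 : f ≤ 2 * Real.sqrt T := G_min_le h0.hp (by linarith) hTr hmin
  have h2 : a * T ≤ f := G_ge h0.hp ha 0 K
  have h3 : f ^ 2 ≤ 4 * T := by
    have : f ^ 2 ≤ (2 * Real.sqrt T) ^ 2 := by gcongr
    rw [mul_pow, Real.sq_sqrt hTr.le] at this
    linarith
  have h4 : f / T ≤ 4 / f := by
    rw [div_le_div_iff₀ hTr hfpos]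
    nlinarith
  have h5 : 4 / f ≤ η / 4 := by
    rw [div_le_iff₀ hfpos]
    rw [div_le_iff₀ hη] at hF
    nlinarith
  have h6 : a ≤ f / T := by
    rw [le_div_iff₀ hTr]; exact h2
  have h7 : η ^ 2 * f / T = η ^ 2 * (f / T) := by ring
  rw [h7]
  have h8 : f / T ≤ η / 4 := h4.trans h5
  have h9 : 0 ≤ f / T := by positivity
  have h10 : η ^ 2 * (f / T) ≤ 1 * (η / 4) := by
    apply mul_le_mul _ h8 h9 (by norm_num)
    nlinarith
  have h11 : a ≤ η / 4 := h6.trans h8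
  have h12 : a + η ^ 2 * (f / T) ≤ η / 2 := by linarith
  have h13 : 0 ≤ a + η ^ 2 * (f / T) := by positivity
  calc (a + η ^ 2 * (f / T)) * (1 + η / 2) ≤ (η / 2) * 2 := by
        apply mul_le_mul h12 (by linarith) (by positivity) (by positivity)
    _ = η := by ring

theorem upper_core (η : ℝ) (hη : 0 < η) (hη' : η ≤ 1 / 16) : ∃ C F0 : ℝ, 0 < F0 ∧
    ∀ (p : ℕ → ℝ) (K T : ℕ) (a : ℝ) (h0 : Adm p 0 K), ∑ i ∈ range K, p i ≤ 1 - η → 0 < T →
      0 ≤ a → (∀ α, 0 ≤ α → G p a T 0 K ≤ G p α T 0 K) → F0 ≤ G p a T 0 K →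
      (wordE (evE p 0 K h0) T).pr (fun w => (1 + η) * G p a T 0 K < (D K 0 w : ℝ))
        ≤ C / G p a T 0 K := by
  refine ⟨4 / η ^ 2, 16 / η, by positivity, ?_⟩
  intro p K T a h0 hs hT ha hmin hF
  have hsm := small_params hη hη' h0 hs hT ha hmin hF
  have hTr : (0 : ℝ) < T := by exact_mod_cast hT
  have hfpos : 0 < G p a T 0 K := lt_of_lt_of_le (by positivity) hF
  have haη : a ≤ η := by
    refine le_trans ?_ hsm
    have : 0 ≤ η ^ 2 * G p a T 0 K / T := by positivity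
    have h2 : a ≤ a + η ^ 2 * G p a T 0 K / T := by linarith
    refine h2.trans ?_
    have h3 : 0 ≤ a + η ^ 2 * G p a T 0 K / T := by linarith
    nlinarith
  have hA : Adm p a K := ⟨h0.hp, ha, by linarith⟩
  have e1 := pr_clean0 hA h0 T 0 (fun d => (1 + η) * G p a T 0 K < (d : ℝ))
  rw [← e1]
  have h2 := D_upper hA 0 (Nat.zero_le K) T (η * G p a T 0 K) (by positivity)
  refine le_trans (Ex.pr_mono _ _ _ (fun w hw => ?_)) (h2.trans (le_of_eq ?_))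
  · linarith
  · field_simp

theorem pr_J_snd {A B : Type} (P : Ex A) (Q : Ex B) (S : B → Prop) :
    ((P.bind (fun l => Q.map (fun w => (l, w)))).pr (fun x : A × B => S x.2)) = Q.pr S := by
  classical
  unfold Ex.pr
  simp only [Ex.bind_E, Ex.map_E]
  exact P.E_const (Q.E fun a => if S a then 1 else 0)

theorem pr_J_fst {A B : Type} (P : Ex A) (Q : Ex B) (S : A → Prop) :
    ((P.bind (fun l => Q.map (fun w => (l, w)))).pr (fun x : A × B => S x.1)) = P.pr S := by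
  classical
  unfold Ex.pr
  simp only [Ex.bind_E, Ex.map_E]
  congr 1
  funext a
  exact Q.E_const (if S a then 1 else 0)

theorem cheb_up {A : Type} (P : Ex A) (Z : A → ℝ) (m v r : ℝ) (hr : 0 < r)
    (hv : P.E (fun a => (Z a - m) ^ 2) ≤ v) : P.pr (fun a => m + r ≤ Z a) ≤ v / r ^ 2 := by
  refine le_trans (Ex.pr_mono _ _ _ (fun a ha => ?_)) (P.cheb Z m v r hr hv)
  have : r ≤ Z a - m := by linarith
  exact this.trans (le_abs_self _)


theorem det_core {p : ℕ → ℝ} {K T N : ℕ} {η f a b β r : ℝ} (u v u' v' : ℕ → ℕ)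
    (hη : 0 < η) (hη' : η ≤ 1 / 16) (hf0 : 0 < f) (hr : r = η ^ 4 / 64 * f) (hb0 : 0 ≤ b)
    (hgrid : ∀ m, m ≤ K → ∃ j, j < N ∧ u j ≤ m ∧ m ≤ v j ∧
      ∑ i ∈ Ico 0 (v j), qq p b i ≤ ∑ i ∈ Ico 0 (u j), qq p b i + r)
    (hgrid' : ∀ s, s ≤ T → ∃ j, j < N ∧ u' j ≤ s ∧ s ≤ v' j ∧ b * (v' j : ℝ) ≤ b * (u' j : ℝ) + r)
    (huK : ∀ j, u j ≤ K) (huT : ∀ j, u' j ≤ T) (hvT : ∀ j, v' j ≤ T)
    (hmar : η ^ 4 / 2 * f ≤ G p b T 0 K - f)
    (hleft : ∀ m, m ≤ K → ∑ i ∈ Ico 0 m, qq p b i + G p a T m K ≤ f)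
    (hbot : ∀ T' : ℝ, η * f < a * T → 0 ≤ T' → T' ≤ (1 - 3 * η) * T →
      G p β T' 0 K ≤ G p b T' 0 K - η ^ 3 / 4 * f)
    (hbT : b * T = a * T + η ^ 2 * f) (haT : a * T ≤ f)
    (l : List Bool) (w : List (Option ℕ)) (hl : l.length = K) (hw : w.length = T)
    (hE0 : G p b T 0 K - r < (nsrc w : ℝ) + tot (run 0 w l))
    (hL1 : ∀ j, j < N → (cnt l (v j) : ℝ) < (∑ i ∈ Ico 0 (v j), qq p b i) + r)
    (hL2 : ∀ j, j < N → (D K (u j) w : ℝ) < G p a T (u j) K + r)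
    (hB1 : ∀ j, j < N → (nsrc (w.take (v' j)) : ℝ) < b * (v' j : ℝ) + r)
    (hB2 : ∀ j, j < N → (D K 0 (w.drop (u' j)) : ℝ) < G p β ((T : ℝ) - u' j) 0 K + r) :
    (1 - 8 * η) * f ≤ (D K 0 w : ℝ) := by
  have hη4 : 0 < η ^ 4 * f := by positivity
  have hr4 : 4 * r = η ^ 4 * f / 16 := by rw [hr]; ring
  have hη3 : η ^ 4 * f ≤ η ^ 3 * f / 16 := by
    have : η ^ 4 * f = η ^ 3 * f * η := by ring
    rw [this]
    have h3 : 0 < η ^ 3 * f := by positivity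
    nlinarith
  have hη2 : η ^ 2 * f ≤ η * f / 16 := by
    have : η ^ 2 * f = η * f * η := by ring
    rw [this]
    have h3 : 0 < η * f := by positivity
    nlinarith
  have hη32 : η ^ 3 * f ≤ η ^ 2 * f / 16 := by
    have : η ^ 3 * f = η ^ 2 * f * η := by ring
    rw [this]
    have h3 : 0 < η ^ 2 * f := by positivity
    nlinarith
  have hηf : 0 < η * f := by positivity
  rcases variational K w l hl with ⟨s, hs, h⟩ | ⟨m, hm, h⟩
  · rw [hw] at hs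
    have h' : (nsrc w : ℝ) + tot (run 0 w l) ≤ nsrc (w.take s) + D K 0 (w.drop s) := by
      exact_mod_cast h
    obtain ⟨j, hj, h1, h2, h3⟩ := hgrid' s hs
    have h4 : (nsrc (w.take s) : ℝ) ≤ nsrc (w.take (v' j)) := by
      exact_mod_cast nsrc_take_mono w h2
    have h5 := hB1 j hj
    have h6 : (D K 0 (w.drop s) : ℝ) ≤ D K 0 w := by
      have := D_drop_anti K 0 w (Nat.zero_le s)
      simp only [List.drop_zero] at this
      exact_mod_cast this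
    by_cases hcase : η * f < a * T
    · by_cases hu : 3 * η * T ≤ (u' j : ℝ)
      · exfalso
        have h7 : (D K 0 (w.drop s) : ℝ) ≤ D K 0 (w.drop (u' j)) := by
          exact_mod_cast D_drop_anti K 0 w h1
        have h8 := hB2 j hj
        have h9 : (u' j : ℝ) ≤ T := by exact_mod_cast huT j
        have h10 := hbot ((T : ℝ) - u' j) hcase (by linarith) (by linarith)
        have h11 : G p b ((T : ℝ) - u' j) 0 K + b * (u' j : ℝ) = G p b T 0 K := by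
          unfold G; ring
        linarith
      · push Not at hu
        have h7 : b * (u' j : ℝ) ≤ b * (3 * η * T) := mul_le_mul_of_nonneg_left hu.le hb0
        have h8 : b * (3 * η * T) = 3 * η * (b * T) := by ring
        have h9 : 3 * η * (b * T) ≤ 3 * η * (f + η * f / 16) := by
          apply mul_le_mul_of_nonneg_left _ (by positivity)
          linarith
        have h10 : 3 * η * (f + η * f / 16) = 3 * (η * f) + 3 / 16 * (η ^ 2 * f) := by ring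
        linarith
    · push Not at hcase
      have h7 : b * (v' j : ℝ) ≤ b * T := by
        apply mul_le_mul_of_nonneg_left _ hb0
        exact_mod_cast hvT j
      linarith
  · exfalso
    have h' : (nsrc w : ℝ) + tot (run 0 w l) ≤ cnt l m + D K m w := by exact_mod_cast h
    obtain ⟨j, hj, h1, h2, h3⟩ := hgrid m hm
    have h4 : (cnt l m : ℝ) ≤ cnt l (v j) := by exact_mod_cast cnt_mono l h2
    have h5 : (D K m w : ℝ) ≤ D K (u j) w := by exact_mod_cast D_lo_anti K h1 w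
    have h6 := hL1 j hj
    have h7 := hL2 j hj
    have h8 := hleft (u j) (huK j)
    linarith

theorem ar1 {aT f η : ℝ} (hη : 0 < η) (hη' : η ≤ 1 / 16) (hf : 0 < f) (h : aT ≤ f) :
    aT + η ^ 2 * f ≤ 2 * f := by
  have : η ^ 2 ≤ 1 := by nlinarith
  nlinarith

theorem ar2 {aT f η : ℝ} (hη : 0 < η) (hη' : η ≤ 1 / 16) (hf : 0 < f) (h : aT ≤ f) :
    (aT + η ^ 2 * f) * (1 + η / 2) ≤ 2 * f := by
  have h1 : η ^ 2 ≤ 1 / 256 := by nlinarith
  have h2 : aT + η ^ 2 * f ≤ (1 + 1 / 256) * f := by nlinarith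
  calc (aT + η ^ 2 * f) * (1 + η / 2) ≤ ((1 + 1 / 256) * f) * (1 + η / 2) :=
        mul_le_mul_of_nonneg_right h2 (by positivity)
    _ ≤ ((1 + 1 / 256) * f) * (1 + 1 / 32) :=
        mul_le_mul_of_nonneg_left (by linarith) (by positivity)
    _ ≤ 2 * f := by linarith

theorem sum_le_const {N : ℕ} {g : ℕ → ℝ} {c : ℝ} (h : ∀ j, g j ≤ c) :
    ∑ j ∈ range N, g j ≤ N * c := by
  calc ∑ j ∈ range N, g j ≤ ∑ _j ∈ range N, c := Finset.sum_le_sum (fun j _ => h j)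
    _ = N * c := by simp

theorem lower_core (η : ℝ) (hη : 0 < η) (hη' : η ≤ 1 / 16) : ∃ C F0 : ℝ, 0 < F0 ∧
    ∀ (p : ℕ → ℝ) (K T : ℕ) (a : ℝ) (h0 : Adm p 0 K), ∑ i ∈ range K, p i ≤ 1 - η → 0 < T →
      0 ≤ a → (∀ α, 0 ≤ α → G p a T 0 K ≤ G p α T 0 K) → F0 ≤ G p a T 0 K →
      (wordE (evE p 0 K h0) T).pr (fun w => (D K 0 w : ℝ) < (1 - 8 * η) * G p a T 0 K)
        ≤ C / G p a T 0 K := by
  classical
  obtain ⟨c, hc⟩ : ∃ c : ℝ, c = η ^ 4 / 64 := ⟨_, rfl⟩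
  have hcpos : 0 < c := by rw [hc]; positivity
  obtain ⟨N, hN⟩ : ∃ N : ℕ, N = ⌊2 / c⌋₊ + 1 := ⟨_, rfl⟩
  have hNc : 2 < N * c := by
    have h1 : 2 / c < (⌊2 / c⌋₊ : ℝ) + 1 := Nat.lt_floor_add_one _
    rw [div_lt_iff₀ hcpos] at h1
    rw [hN]; push_cast; exact h1
  refine ⟨(8 + 19 * N) / c ^ 2, 16 / η, by positivity, ?_⟩
  intro p K T a h0 hs hT ha hmin hF
  have hsm := small_params hη hη' h0 hs hT ha hmin hF
  have hTr : (0 : ℝ) < T := by exact_mod_cast hT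
  have hfpos : 0 < G p a T 0 K := lt_of_lt_of_le (by positivity) hF
  have haT : a * T ≤ G p a T 0 K := G_ge h0.hp ha 0 K
  have hleft : ∀ m, m ≤ K → ∀ b, a ≤ b →
    (∑ i ∈ Ico 0 m, qq p b i) + G p a T m K ≤ G p a T 0 K := fun m hm b hab =>
      left_exit h0.hp hm ha hab
  have hGm : ∀ m, G p a T m K ≤ G p a T 0 K := fun m => G_m_le h0.hp ha m K
  have hmargin : ∀ b, a ≤ b → ((b - a) * T) ^ 2 / (G p a T 0 K + (b - a) * T)
      ≤ G p b T 0 K - G p a T 0 K := fun b hab => margin h0.hp hTr ha hmin hab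
  have hbot : ∀ (T' b : ℝ), η * G p a T 0 K < a * T → b = a + η ^ 2 * G p a T 0 K / T →
      0 ≤ T' → T' ≤ (1 - 3 * η) * T →
      G p (b * (1 + η / 2)) T' 0 K ≤ G p b T' 0 K - η ^ 3 / 4 * G p a T 0 K :=
    fun T' b h1 h2 h3 h4 => bottom_exit h0.hp hTr hη (by linarith) ha hmin h1 h2 h3 h4
  obtain ⟨f, hf⟩ : ∃ f : ℝ, f = G p a T 0 K := ⟨_, rfl⟩
  rw [← hf] at hsm hfpos haT hF hmargin
  rw [← hf]
  simp only [← hf] at hleft hGm hbot
  obtain ⟨b, hb⟩ : ∃ b : ℝ, b = a + η ^ 2 * f / T := ⟨_, rfl⟩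
  obtain ⟨β, hβ⟩ : ∃ β : ℝ, β = b * (1 + η / 2) := ⟨_, rfl⟩
  rw [← hb, ← hβ] at hsm
  have hab : a ≤ b := by
    rw [hb]
    have : 0 ≤ η ^ 2 * f / T := by positivity
    linarith
  have hb0 : 0 ≤ b := ha.trans hab
  have hbβ : b ≤ β := by rw [hβ]; nlinarith
  have hβ0 : 0 ≤ β := hb0.trans hbβ
  have hAa : Adm p a K := ⟨h0.hp, ha, by linarith⟩
  have hAb : Adm p b K := ⟨h0.hp, hb0, by linarith⟩
  have hAβ : Adm p β K := ⟨h0.hp, hβ0, by linarith⟩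
  obtain ⟨r, hr⟩ : ∃ r : ℝ, r = c * f := ⟨_, rfl⟩
  have hrpos : 0 < r := by rw [hr]; positivity
  have hNr : 2 * f < N * r := by
    rw [hr]
    nlinarith
  have hy : (b - a) * T = η ^ 2 * f := by
    rw [hb]; field_simp; ring
  have hη2 : η ^ 2 ≤ 1 := by nlinarith
  have hmar : η ^ 4 / 2 * f ≤ G p b T 0 K - f := by
    refine le_trans ?_ (hmargin b hab)
    rw [hy, le_div_iff₀ (by positivity)]
    have h1 : η ^ 4 / 2 * f * (f + η ^ 2 * f) = η ^ 4 * f ^ 2 * ((1 + η ^ 2) / 2) := by ring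
    rw [h1]
    have h2 : (η ^ 2 * f) ^ 2 = η ^ 4 * f ^ 2 * 1 := by ring
    rw [h2]
    apply mul_le_mul_of_nonneg_left _ (by positivity)
    linarith
  have hσ : ∀ m, m ≤ K → ∑ i ∈ Ico 0 m, qq p b i ≤ f := by
    intro m hm
    have h1 := hleft m hm b hab
    have h2 : 0 ≤ G p a T m K := le_trans (by positivity) (G_ge h0.hp ha m K)
    linarith
  have hbT : b * T = a * T + η ^ 2 * f := by linarith [hy, sub_mul b a (T : ℝ)]
  have hbT2 : b * T ≤ 2 * f := by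
    rw [hbT]
    exact ar1 hη hη' hfpos haT
  have hGb : G p b T 0 K ≤ 2 * f := by
    have h1 : ∑ i ∈ Ico 0 K, qq p b i ≤ ∑ i ∈ Ico 0 K, qq p a i :=
      Finset.sum_le_sum (fun i _ => qq_anti h0.hp ha hab i)
    have h2 : G p b T 0 K = b * T + ∑ i ∈ Ico 0 K, qq p b i := rfl
    have h3 : f = a * T + ∑ i ∈ Ico 0 K, qq p a i := hf
    rw [h2, hbT]
    have h4 : η ^ 2 * f ≤ 1 * f := mul_le_mul_of_nonneg_right hη2 hfpos.le
    linarith
  have hGbpos : f ≤ G p b T 0 K := by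
    have : 0 ≤ η ^ 4 / 2 * f := by positivity
    linarith
  obtain ⟨u, v, huK, hvK, hgrid⟩ := grid (fun m => ∑ i ∈ Ico 0 m, qq p b i)
    (fun m m' hmm => Finset.sum_le_sum_of_subset_of_nonneg (Finset.Ico_subset_Ico le_rfl hmm)
      (fun i _ _ => qq_nonneg h0.hp hb0 i)) (by simp) K N r hrpos
    (by have := hσ K le_rfl; linarith)
  obtain ⟨u', v', huT, hvT, hgrid'⟩ := grid (fun s => b * (s : ℝ))
    (fun s s' hss => mul_le_mul_of_nonneg_left (by exact_mod_cast hss) hb0) (by simp) T N r hrpos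
    (by linarith)
  -- joint law
  obtain ⟨J, hJ⟩ : ∃ J : Ex (List Bool × List (Option ℕ)), J =
    (stE p b h0.hp hb0 0 K).bind (fun l => (wordE (evE p b K hAb) T).map (fun w => (l, w))) :=
    ⟨_, rfl⟩
  have hJs : ∀ S : List (Option ℕ) → Prop, J.pr (fun x => S x.2)
      = (wordE (evE p b K hAb) T).pr S := fun S => by rw [hJ]; exact pr_J_snd _ _ S
  have hJf : ∀ S : List Bool → Prop, J.pr (fun x => S x.1)
      = (stE p b h0.hp hb0 0 K).pr S := fun S => by rw [hJ]; exact pr_J_fst _ _ S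
  have hE0 : J.pr (fun x => (nsrc x.2 : ℝ) + tot (run 0 x.2 x.1) ≤ G p b T 0 K - r)
      ≤ 8 * f / r ^ 2 := by
    have h1 := H_lower hAb T r hrpos
    rw [hJ]
    refine le_trans h1 ?_
    exact div_le_div_of_nonneg_right (by linarith) (by positivity)
  have hL1 : ∀ j, J.pr (fun x => (∑ i ∈ Ico 0 (v j), qq p b i) + r ≤ (cnt x.1 (v j) : ℝ))
      ≤ f / r ^ 2 := by
    intro j
    rw [hJf (fun l => (∑ i ∈ Ico 0 (v j), qq p b i) + r ≤ (cnt l (v j) : ℝ))]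
    refine cheb_up _ (fun l => (cnt l (v j) : ℝ)) _ _ r hrpos ?_
    have h1 := cnt_var h0.hp hb0 0 K (v j) (hvK j)
    simp only [zero_add] at h1
    exact h1.trans (hσ _ (hvK j))
  have hL2 : ∀ j, J.pr (fun x => G p a T (u j) K + r ≤ (D K (u j) x.2 : ℝ))
      ≤ 4 * f / r ^ 2 := by
    intro j
    rw [hJs (fun w => G p a T (u j) K + r ≤ (D K (u j) w : ℝ))]
    rw [pr_clean hAb hAa T (u j) (fun d => G p a T (u j) K + r ≤ (d : ℝ))]
    refine le_trans (D_upper hAa (u j) (huK j) T r hrpos) ?_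
    exact div_le_div_of_nonneg_right (by linarith [hGm (u j)]) (by positivity)
  have hB1 : ∀ j, J.pr (fun x => b * (v' j : ℝ) + r ≤ (nsrc (x.2.take (v' j)) : ℝ))
      ≤ 2 * f / r ^ 2 := by
    intro j
    rw [hJs (fun w => b * (v' j : ℝ) + r ≤ (nsrc (w.take (v' j)) : ℝ))]
    have h1 : v' j + (T - v' j) = T := Nat.add_sub_cancel' (hvT j)
    have h2 : (wordE (evE p b K hAb) T).pr
        (fun w => b * (v' j : ℝ) + r ≤ (nsrc (w.take (v' j)) : ℝ))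
        = (wordE (evE p b K hAb) (v' j)).pr (fun w => b * (v' j : ℝ) + r ≤ (nsrc w : ℝ)) := by
      unfold Ex.pr
      rw [← wordE_take (evE p b K hAb) (v' j) (T - v' j), h1]
    rw [h2]
    refine cheb_up _ (fun w => (nsrc w : ℝ)) _ _ r hrpos ?_
    refine (nsrc_var hAb (v' j)).trans ?_
    have h3 : (v' j : ℝ) ≤ T := by exact_mod_cast hvT j
    have h4 : b * (v' j : ℝ) ≤ b * T := mul_le_mul_of_nonneg_left h3 hb0
    linarith
  have hcast : ∀ j, ((T - u' j : ℕ) : ℝ) = (T : ℝ) - (u' j : ℝ) := fun j => by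
    rw [Nat.cast_sub (huT j)]
  have hB2 : ∀ j, J.pr (fun x => G p β ((T : ℝ) - u' j) 0 K + r
      ≤ (D K 0 (x.2.drop (u' j)) : ℝ)) ≤ 12 * f / r ^ 2 := by
    intro j
    rw [hJs (fun w => G p β ((T : ℝ) - u' j) 0 K + r ≤ (D K 0 (w.drop (u' j)) : ℝ))]
    have h1 : u' j + (T - u' j) = T := Nat.add_sub_cancel' (huT j)
    have h2 : (wordE (evE p b K hAb) T).pr
        (fun w => G p β ((T : ℝ) - u' j) 0 K + r ≤ (D K 0 (w.drop (u' j)) : ℝ))
        = (wordE (evE p b K hAb) (T - u' j)).pr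
          (fun w => G p β ((T : ℝ) - u' j) 0 K + r ≤ (D K 0 w : ℝ)) := by
      unfold Ex.pr
      rw [← wordE_drop (evE p b K hAb) (u' j) (T - u' j), h1]
    rw [h2, pr_clean hAb hAβ (T - u' j) 0
      (fun d => G p β ((T : ℝ) - u' j) 0 K + r ≤ (d : ℝ)), ← hcast j]
    refine le_trans (D_upper hAβ 0 (Nat.zero_le K) (T - u' j) r hrpos) ?_
    have h3 : G p β ((T - u' j : ℕ) : ℝ) 0 K ≤ 3 * f := by
      have h4 : ∑ i ∈ Ico 0 K, qq p β i ≤ ∑ i ∈ Ico 0 K, qq p b i :=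
        Finset.sum_le_sum (fun i _ => qq_anti h0.hp hb0 hbβ i)
      have h5 := hσ K le_rfl
      have h6 : β * ((T - u' j : ℕ) : ℝ) ≤ β * T := by
        apply mul_le_mul_of_nonneg_left _ hβ0
        exact_mod_cast Nat.sub_le T (u' j)
      have h7 : β * T = b * T * (1 + η / 2) := by rw [hβ]; ring
      have h11 : b * T * (1 + η / 2) ≤ 2 * f := by
        rw [hbT]
        exact ar2 hη hη' hfpos haT
      unfold G
      linarith
    have h12 : 4 * G p β ((T - u' j : ℕ) : ℝ) 0 K ≤ 12 * f := by linarith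
    exact div_le_div_of_nonneg_right h12 (by positivity)
  -- conclusion
  have key : (wordE (evE p 0 K h0) T).pr (fun w => (D K 0 w : ℝ) < (1 - 8 * η) * f)
      ≤ 8 * f / r ^ 2 + (N * (f / r ^ 2) + (N * (4 * f / r ^ 2)
        + (N * (2 * f / r ^ 2) + N * (12 * f / r ^ 2)))) := by
    rw [← pr_clean hAb h0 T 0 (fun d => (d : ℝ) < (1 - 8 * η) * f),
      ← hJs (fun w => (D K 0 w : ℝ) < (1 - 8 * η) * f)]
    have hcover : J.pr (fun x => (D K 0 x.2 : ℝ) < (1 - 8 * η) * f) ≤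
      J.pr (fun x => ((nsrc x.2 : ℝ) + tot (run 0 x.2 x.1) ≤ G p b T 0 K - r) ∨
        ((∃ j, j < N ∧ (∑ i ∈ Ico 0 (v j), qq p b i) + r ≤ (cnt x.1 (v j) : ℝ)) ∨
        ((∃ j, j < N ∧ G p a T (u j) K + r ≤ (D K (u j) x.2 : ℝ)) ∨
        ((∃ j, j < N ∧ b * (v' j : ℝ) + r ≤ (nsrc (x.2.take (v' j)) : ℝ)) ∨
        (∃ j, j < N ∧ G p β ((T : ℝ) - u' j) 0 K + r ≤ (D K 0 (x.2.drop (u' j)) : ℝ)))))) := by
      rw [hJ]
      unfold Ex.pr
      simp only [Ex.bind_E, Ex.map_E]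
      refine stE_le h0.hp hb0 0 K _ _ (fun l hl => ?_)
      refine wordE_le _ T _ _ (fun w hw => ?_)
      by_cases hbad : ((nsrc w : ℝ) + tot (run 0 w l) ≤ G p b T 0 K - r) ∨
        ((∃ j, j < N ∧ (∑ i ∈ Ico 0 (v j), qq p b i) + r ≤ (cnt l (v j) : ℝ)) ∨
        ((∃ j, j < N ∧ G p a T (u j) K + r ≤ (D K (u j) w : ℝ)) ∨
        ((∃ j, j < N ∧ b * (v' j : ℝ) + r ≤ (nsrc (w.take (v' j)) : ℝ)) ∨
        (∃ j, j < N ∧ G p β ((T : ℝ) - u' j) 0 K + r ≤ (D K 0 (w.drop (u' j)) : ℝ)))))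
      · rw [if_pos hbad]
        split_ifs <;> norm_num
      · rw [if_neg hbad]
        simp only [not_or, not_exists, not_and, not_le] at hbad
        obtain ⟨b0, b1, b2, b3, b4⟩ := hbad
        have := det_core u v u' v' hη hη' hfpos (hr.trans (by rw [hc])) hb0 hgrid hgrid' huK huT
          hvT hmar (fun m hm => hleft m hm b hab)
          (fun T' h1 h2 h3 => by rw [hβ]; exact hbot T' b h1 hb h2 h3) hbT haT l w hl hw
          b0 b1 b2 b3 b4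
        rw [if_neg (not_lt.mpr this)]
    refine hcover.trans ?_
    refine (Ex.pr_or _ _ _).trans (add_le_add hE0 ?_)
    refine (Ex.pr_or _ _ _).trans (add_le_add ?_ ?_)
    · exact (Ex.pr_exists_range J N _).trans (sum_le_const hL1)
    refine (Ex.pr_or _ _ _).trans (add_le_add ?_ ?_)
    · exact (Ex.pr_exists_range J N _).trans (sum_le_const hL2)
    refine (Ex.pr_or _ _ _).trans (add_le_add ?_ ?_)
    · exact (Ex.pr_exists_range J N _).trans (sum_le_const hB1)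
    · exact (Ex.pr_exists_range J N _).trans (sum_le_const hB2)
  refine key.trans (le_of_eq ?_)
  rw [hr]
  field_simp
  ring

end R776.LI
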