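import Mathlib

/-!
Definitions for MP_6ef346_pr (longest increasing subsequence of i.i.d. integer samples).
Finitely additive expectations on lists (event words), the stationary particle system, and the
functionals `D` (longest increasing chain), `lis`, `fP`.
-/

namespace R776.LI

open Finset

/-- A normalised positive linear functional on all real functions on `A`. -/
structure Ex (A : Type) where
  E : (A → ℝ) → ℝ
  add' : ∀ f g : A → ℝ, E (fun a => f a + g a) = E f + E g
  smul' : ∀ (c : ℝ) (f : A → ℝ), E (fun a => c * f a) = c * E f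
  mono' : ∀ f g : A → ℝ, (∀ a, f a ≤ g a) → E f ≤ E g
  one' : E (fun _ => 1) = 1

namespace Ex

variable {A B : Type}

/-- point mass -/
def pure (a : A) : Ex A where
  E φ := φ a
  add' _ _ := rfl
  smul' _ _ := rfl
  mono' _ _ h := h a
  one' := rfl

/-- composition -/
def bind (P : Ex A) (Q : A → Ex B) : Ex B where
  E φ := P.E (fun a => (Q a).E φ)
  add' f g := by
    simp only [(Q _).add']
    exact P.add' _ _
  smul' c f := by
    simp only [(Q _).smul']
    exact P.smul' _ _
  mono' f g h := P.mono' _ _ (fun a => (Q a).mono' _ _ h)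
  one' := by
    simp only [(Q _).one']
    exact P.one'

/-- image -/
def map (P : Ex A) (u : A → B) : Ex B where
  E φ := P.E (fun a => φ (u a))
  add' _ _ := P.add' _ _
  smul' _ _ := P.smul' _ _
  mono' _ _ h := P.mono' _ _ (fun a => h (u a))
  one' := P.one'

open Classical in
/-- probability of an event -/
noncomputable def pr (P : Ex A) (S : A → Prop) : ℝ := P.E (fun a => if S a then 1 else 0)

@[simp] lemma pure_E (a : A) (φ : A → ℝ) : (pure a).E φ = φ a := rfl

@[simp] lemma bind_E (P : Ex A) (Q : A → Ex B) (φ : B → ℝ) :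
    (P.bind Q).E φ = P.E (fun a => (Q a).E φ) := rfl

@[simp] lemma map_E (P : Ex A) (u : A → B) (φ : B → ℝ) :
    (P.map u).E φ = P.E (fun a => φ (u a)) := rfl

lemma E_const (P : Ex A) (c : ℝ) : P.E (fun _ => c) = c := by
  have := P.smul' c (fun _ => 1)
  simpa [P.one'] using this

lemma E_sub (P : Ex A) (f g : A → ℝ) : P.E (fun a => f a - g a) = P.E f - P.E g := by
  have h := P.add' f (fun a => (-1) * g a)
  rw [P.smul'] at h
  have e : (fun a => f a + (-1) * g a) = fun a => f a - g a := by
    funext a; ring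
  rw [e] at h
  linarith

lemma E_mul_const (P : Ex A) (c : ℝ) (f : A → ℝ) : P.E (fun a => f a * c) = P.E f * c := by
  have := P.smul' c f
  rw [mul_comm (P.E f) c, ← this]
  congr 1
  funext a
  ring

lemma E_sum {ι : Type} (P : Ex A) (s : Finset ι) (f : ι → A → ℝ) :
    P.E (fun a => ∑ i ∈ s, f i a) = ∑ i ∈ s, P.E (f i) := by
  classical
  induction s using Finset.induction_on with
  | empty => simpa using P.E_const 0
  | insert i s hi ih =>
    simp only [Finset.sum_insert hi]
    rw [P.add', ih]

lemma E_nonneg (P : Ex A) (f : A → ℝ) (h : ∀ a, 0 ≤ f a) : 0 ≤ P.E f := by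
  have := P.mono' (fun _ => 0) f h
  rwa [P.E_const] at this

lemma pr_nonneg (P : Ex A) (S : A → Prop) : 0 ≤ P.pr S := by
  classical
  exact P.E_nonneg _ (fun a => by split_ifs <;> norm_num)

lemma pr_le_one (P : Ex A) (S : A → Prop) : P.pr S ≤ 1 := by
  classical
  have := P.mono' (fun a => if S a then 1 else 0) (fun _ => 1) (fun a => by split_ifs <;> norm_num)
  rw [P.one'] at this
  unfold pr
  convert this

lemma pr_mono (P : Ex A) (S S' : A → Prop) (h : ∀ a, S a → S' a) : P.pr S ≤ P.pr S' := by
  classical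
  refine P.mono' _ _ (fun a => ?_)
  by_cases h1 : S a
  · simp [h1, h a h1]
  · simp only [h1, if_false]
    split_ifs <;> norm_num

lemma pr_or (P : Ex A) (S S' : A → Prop) : P.pr (fun a => S a ∨ S' a) ≤ P.pr S + P.pr S' := by
  classical
  unfold pr
  rw [← P.add']
  refine P.mono' _ _ (fun a => ?_)
  by_cases h1 : S a <;> by_cases h2 : S' a <;> simp [h1, h2]

lemma pr_exists_range (P : Ex A) (n : ℕ) (S : ℕ → A → Prop) :
    P.pr (fun a => ∃ i, i < n ∧ S i a) ≤ ∑ i ∈ range n, P.pr (S i) := by
  classical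
  unfold pr
  rw [← P.E_sum]
  refine P.mono' _ _ (fun a => ?_)
  by_cases h : ∃ i, i < n ∧ S i a
  · rw [if_pos h]
    obtain ⟨i, hi, hS⟩ := h
    have h1 : (1 : ℝ) = (if S i a then 1 else 0) := by simp [hS]
    refine le_trans (le_of_eq h1) ?_
    exact Finset.single_le_sum (f := fun i => if S i a then (1 : ℝ) else 0)
      (fun j _ => by split_ifs <;> norm_num) (mem_range.mpr hi)
  · rw [if_neg h]
    exact Finset.sum_nonneg (fun j _ => by split_ifs <;> norm_num)

/-- Chebyshev -/
lemma cheb (P : Ex A) (Z : A → ℝ) (m v r : ℝ) (hr : 0 < r) (hv : P.E (fun a => (Z a - m) ^ 2) ≤ v) :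
    P.pr (fun a => r ≤ |Z a - m|) ≤ v / r ^ 2 := by
  classical
  rw [le_div_iff₀ (by positivity)]
  unfold pr
  rw [← P.E_mul_const]
  refine le_trans (P.mono' _ _ (fun a => ?_)) hv
  by_cases h : r ≤ |Z a - m|
  · simp only [h, if_true, one_mul]
    calc r ^ 2 ≤ |Z a - m| ^ 2 := by gcongr
      _ = (Z a - m) ^ 2 := sq_abs _
  · simp only [h, if_false, zero_mul]
    positivity

@[simp] lemma pr_map (P : Ex A) (u : A → B) (S : B → Prop) :
    (P.map u).pr S = P.pr (fun a => S (u a)) := rfl

lemma pr_bind (P : Ex A) (Q : A → Ex B) (S : B → Prop) :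
    (P.bind Q).pr S = P.E (fun a => (Q a).pr S) := rfl

end Ex

/-! ### events: `none` is a source, `some j` a letter (`some K` is the null letter) -/

/-- admissible parameters for one time slot -/
structure Adm (p : ℕ → ℝ) (α : ℝ) (K : ℕ) : Prop where
  hp : ∀ i, 0 ≤ p i
  ha : 0 ≤ α
  hs : α + ∑ i ∈ range K, p i ≤ 1

/-- law of one time slot: source with probability `α`, letter `j < K` with probability `p j`,
null letter `K` otherwise -/
noncomputable def evE (p : ℕ → ℝ) (α : ℝ) (K : ℕ) (h : Adm p α K) : Ex (Option ℕ) where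
  E φ := α * φ none + ∑ j ∈ range K, p j * φ (some j)
    + (1 - α - ∑ j ∈ range K, p j) * φ (some K)
  add' f g := by
    simp only [mul_add, Finset.sum_add_distrib]
    ring
  smul' c f := by
    have : ∑ j ∈ range K, p j * (c * f (some j)) = c * ∑ j ∈ range K, p j * f (some j) := by
      rw [Finset.mul_sum]
      exact Finset.sum_congr rfl (fun j _ => by ring)
    rw [this]
    ring
  mono' f g hfg := by
    have h1 : α * f none ≤ α * g none := mul_le_mul_of_nonneg_left (hfg _) h.ha
    have h2 : ∑ j ∈ range K, p j * f (some j) ≤ ∑ j ∈ range K, p j * g (some j) :=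
      Finset.sum_le_sum (fun j _ => mul_le_mul_of_nonneg_left (hfg _) (h.hp j))
    have h3 : (1 - α - ∑ j ∈ range K, p j) * f (some K)
        ≤ (1 - α - ∑ j ∈ range K, p j) * g (some K) :=
      mul_le_mul_of_nonneg_left (hfg _) (by linarith [h.hs])
    linarith
  one' := by
    simp only [mul_one]
    ring

/-- `n` independent slots -/
noncomputable def wordE {A : Type} (P : Ex A) : ℕ → Ex (List A)
  | 0 => Ex.pure []
  | n + 1 => P.bind (fun a => (wordE P n).map (fun w => a :: w))

/-- occupation probability of site `i` -/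
noncomputable def qq (p : ℕ → ℝ) (α : ℝ) (i : ℕ) : ℝ := p i / (p i + α)

lemma qq_nonneg {p : ℕ → ℝ} {α : ℝ} (hp : ∀ i, 0 ≤ p i) (ha : 0 ≤ α) (i : ℕ) : 0 ≤ qq p α i :=
  div_nonneg (hp i) (add_nonneg (hp i) ha)

lemma qq_le_one {p : ℕ → ℝ} {α : ℝ} (hp : ∀ i, 0 ≤ p i) (ha : 0 ≤ α) (i : ℕ) : qq p α i ≤ 1 :=
  div_le_one_of_le₀ (by linarith) (add_nonneg (hp i) ha)

/-- a coin -/
noncomputable def coin (q : ℝ) (h0 : 0 ≤ q) (h1 : q ≤ 1) : Ex Bool where
  E φ := q * φ true + (1 - q) * φ false
  add' f g := by ring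
  smul' c f := by ring
  mono' f g h := by
    have h1 := mul_le_mul_of_nonneg_left (h true) h0
    have h2 := mul_le_mul_of_nonneg_left (h false) (sub_nonneg.mpr h1)
    nlinarith [h true, h false]
  one' := by ring

/-- stationary law of the occupation variables of the sites `lo, …, lo+n-1` -/
noncomputable def stE (p : ℕ → ℝ) (α : ℝ) (hp : ∀ i, 0 ≤ p i) (ha : 0 ≤ α) :
    ℕ → ℕ → Ex (List Bool)
  | _, 0 => Ex.pure []
  | lo, n + 1 => (coin (qq p α lo) (qq_nonneg hp ha lo) (qq_le_one hp ha lo)).bind
      (fun b => (stE p α hp ha (lo + 1) n).map (fun l => b :: l))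

/-! ### deterministic dynamics -/

/-- a source removes the smallest occupied site -/
def src : List Bool → List Bool
  | [] => []
  | true :: l => false :: l
  | false :: l => false :: src l

/-- letter `j` occupies site `j` and (if `j` was empty) removes the next larger occupied site -/
def ins : ℕ → List Bool → List Bool
  | _, [] => []
  | 0, true :: l => true :: l
  | 0, false :: l => true :: src l
  | j + 1, b :: l => b :: ins j l

/-- one time slot on the sites `lo, lo+1, …` -/
def step (lo : ℕ) : Option ℕ → List Bool → List Bool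
  | none, l => src l
  | some j, l => if lo ≤ j then ins (j - lo) l else l

/-- the dynamics along a word -/
def run (lo : ℕ) : List (Option ℕ) → List Bool → List Bool
  | [], l => l
  | e :: w, l => run lo w (step lo e l)

/-- number of sources in a word -/
def nsrc : List (Option ℕ) → ℕ
  | [] => 0
  | none :: w => nsrc w + 1
  | some _ :: w => nsrc w

/-- number of occupied sites -/
def tot : List Bool → ℕ
  | [] => 0
  | true :: l => tot l + 1
  | false :: l => tot l

/-- number of occupied sites among the first `i` -/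
def cnt (l : List Bool) (i : ℕ) : ℕ := tot (l.take i)

/-- `D hi lo w`: longest strictly increasing chain of letters of `w` in `[lo, hi)` -/
def D (hi : ℕ) : ℕ → List (Option ℕ) → ℕ
  | _, [] => 0
  | lo, none :: w => D hi lo w
  | lo, some j :: w => if lo ≤ j ∧ j < hi then max (D hi lo w) (1 + D hi (j + 1) w) else D hi lo w

/-! ### the variational functional -/

/-- `G p α T m K = α T + ∑_{m ≤ i < K} p_i/(p_i+α)` -/
noncomputable def G (p : ℕ → ℝ) (α T : ℝ) (m K : ℕ) : ℝ := α * T + ∑ i ∈ Ico m K, qq p α i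

/-- the truncated version of `f_t` -/
noncomputable def FK (p : ℕ → ℝ) (K : ℕ) (t : ℝ) : ℝ :=
  sInf ((fun x : ℝ => x + ∑ i ∈ range K, t * p i / (t * p i + x)) '' Set.Ici 0)

/-- `f_t = inf_{x ≥ 0} (x + ∑_i t p_i/(t p_i + x))` (the sum being in `[0,∞]`, and a term with
`p_i = 0` being `0`) -/
noncomputable def fP (p : ℕ → ℝ) (t : ℝ) : ℝ :=
  (⨅ x : {x : ℝ // 0 ≤ x}, (ENNReal.ofReal (x : ℝ)
    + ∑' i, ENNReal.ofReal (t * p i / (t * p i + (x : ℝ))))).toReal

/-- the length of the longest strictly increasing subsequence of `x 0, …, x (n-1)` -/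
noncomputable def lis (n : ℕ) (x : Fin n → ℕ) : ℕ :=
  sSup {k : ℕ | ∃ i : Fin k → Fin n, StrictMono i ∧ StrictMono (fun j => x (i j))}

end R776.LI
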