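import Pool.Agent.R776.LI.Defs

/-! Piece FinSupp: finite support case (helper986). -/

namespace R776.LI

open Finset Filter Topology MeasureTheory ProbabilityTheory

theorem fP_eventually_card (p : ℕ → ℝ) (hp : ∀ i, 0 ≤ p i) (S : Finset ℕ)
    (hS : ∀ i, 0 < p i ↔ i ∈ S) : ∀ᶠ n : ℕ in atTop, fP p n = S.card := by
  have hz : ∀ i, i ∉ S → p i = 0 := by
    intro i hi
    by_contra h
    exact hi ((hS i).mp (lt_of_le_of_ne (hp i) (Ne.symm h)))
  obtain ⟨N, hN⟩ := exists_nat_ge (∑ i ∈ S, 1 / p i)
  filter_upwards [eventually_ge_atTop (N + 1)] with n hn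
  have hn1 : (0 : ℝ) < n := by
    have : 0 < n := by omega
    exact_mod_cast this
  have hnN : ∑ i ∈ S, 1 / p i ≤ (n : ℝ) := by
    refine le_trans hN ?_
    exact_mod_cast (by omega : N ≤ n)
  have hval : ∀ x : ℝ, 0 ≤ x → (ENNReal.ofReal x
      + ∑' i, ENNReal.ofReal ((n : ℝ) * p i / ((n : ℝ) * p i + x)))
      = ENNReal.ofReal (x + ∑ i ∈ S, (n : ℝ) * p i / ((n : ℝ) * p i + x)) := by
    intro x hx
    rw [tsum_eq_sum (s := S), ENNReal.ofReal_add hx, ENNReal.ofReal_sum_of_nonneg]
    · intro i _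
      have := hp i
      positivity
    · refine Finset.sum_nonneg (fun i _ => ?_)
      have := hp i
      positivity
    · intro i hi
      rw [hz i hi]
      simp
  unfold fP
  have hinf : (⨅ x : {x : ℝ // 0 ≤ x}, (ENNReal.ofReal (x : ℝ)
      + ∑' i, ENNReal.ofReal ((n : ℝ) * p i / ((n : ℝ) * p i + (x : ℝ)))))
      = ENNReal.ofReal (S.card : ℝ) := by
    refine le_antisymm ?_ ?_
    · refine iInf_le_of_le ⟨0, le_refl _⟩ ?_
      rw [hval 0 (le_refl _)]
      refine le_of_eq ?_
      congr 1
      have : ∀ i ∈ S, (n : ℝ) * p i / ((n : ℝ) * p i + 0) = 1 := by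
        intro i hi
        have hpi := (hS i).mpr hi
        rw [add_zero, div_self (by positivity)]
      rw [Finset.sum_congr rfl this]
      simp
    · refine le_iInf (fun x => ?_)
      obtain ⟨x, hx⟩ := x
      rw [hval x hx]
      refine ENNReal.ofReal_le_ofReal ?_
      have h1 : ∀ i ∈ S, 1 - x / n * (1 / p i) ≤ (n : ℝ) * p i / ((n : ℝ) * p i + x) := by
        intro i hi
        have hpi := (hS i).mpr hi
        have e : (n : ℝ) * p i / ((n : ℝ) * p i + x) - (1 - x / n * (1 / p i))
            = x ^ 2 / ((n : ℝ) * p i * ((n : ℝ) * p i + x)) := by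
          field_simp
          ring
        have : 0 ≤ x ^ 2 / ((n : ℝ) * p i * ((n : ℝ) * p i + x)) := by positivity
        linarith
      have h2 := Finset.sum_le_sum h1
      rw [Finset.sum_sub_distrib, ← Finset.mul_sum] at h2
      simp only [Finset.sum_const, nsmul_eq_mul, mul_one] at h2
      have h3 : x / n * ∑ i ∈ S, 1 / p i ≤ x := by
        calc x / n * ∑ i ∈ S, 1 / p i ≤ x / n * n :=
              mul_le_mul_of_nonneg_left hnN (by positivity)
          _ = x := by field_simp
      linarith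
  rw [hinf]
  exact ENNReal.toReal_ofReal (by positivity)

lemma fin_det (x : ℕ → ℕ) (S : Finset ℕ) (h1 : ∀ k, x k ∈ S)
    (h2 : ∀ i ∈ S, ∃ᶠ k in atTop, x k = i) :
    ∀ᶠ n : ℕ in atTop, lis n (fun k : Fin n => x k) = S.card := by
  have h3 : ∀ m : ℕ, ∃ᶠ k in atTop,
      (∀ h : m < S.card, x k = S.orderEmbOfFin rfl ⟨m, h⟩) := by
    intro m
    by_cases h : m < S.card
    · refine (h2 (S.orderEmbOfFin rfl ⟨m, h⟩) (S.orderEmbOfFin_mem rfl _)).mono ?_
      intro k hk _
      exact hk
    · exact Filter.Frequently.of_forall (fun k hk => absurd hk h)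
  obtain ⟨φ, hφ, hφ2⟩ := extraction_forall_of_frequently h3
  filter_upwards [eventually_ge_atTop (φ S.card)] with n hn
  have hbd : ∀ k ∈ {k : ℕ | ∃ i : Fin k → Fin n, StrictMono i ∧
      StrictMono (fun j => x (i j))}, k ≤ S.card := by
    rintro k ⟨i, _, hi2⟩
    have := Finset.card_le_card_of_injOn (s := (Finset.univ : Finset (Fin k))) (t := S)
      (fun j => x (i j)) (fun j _ => h1 _) (fun a _ b _ hab => hi2.injective hab)
    simpa using this
  unfold lis
  refine le_antisymm ?_ ?_
  · exact csSup_le ⟨0, Fin.elim0, fun a => a.elim0, fun a => a.elim0⟩ hbd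
  · refine le_csSup ⟨S.card, hbd⟩ ?_
    refine ⟨fun m => ⟨φ m, lt_of_lt_of_le (hφ m.2) hn⟩, ?_, ?_⟩
    · intro a b hab
      exact hφ hab
    · intro a b hab
      show x (φ a) < x (φ b)
      rw [hφ2 a a.2, hφ2 b b.2]
      exact (S.orderEmbOfFin rfl).strictMono hab

theorem lis_eventually_card {Ω : Type*} [MeasurableSpace Ω] (μ : Measure Ω)
    [IsProbabilityMeasure μ] (X : ℕ → Ω → ℕ) (hX : ∀ k, Measurable (X k)) (hind : iIndepFun X μ)
    (p : ℕ → ℝ) (hp : ∀ k i, μ.real {ω | X k ω = i} = p i) (S : Finset ℕ)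
    (hS : ∀ i, 0 < p i ↔ i ∈ S) :
    ∀ᵐ ω ∂μ, ∀ᶠ n : ℕ in atTop, lis n (fun k : Fin n => X k ω) = S.card := by
  have hz : ∀ i, i ∉ S → p i = 0 := by
    intro i hi
    by_contra h
    refine hi ((hS i).mp (lt_of_le_of_ne ?_ (Ne.symm h)))
    rw [← hp 0 i]
    exact measureReal_nonneg
  have hA : ∀ᵐ ω ∂μ, ∀ k, X k ω ∈ S := by
    rw [ae_all_iff]
    intro k
    have : ∀ᵐ ω ∂μ, ∀ i : ℕ, i ∉ S → X k ω ≠ i := by
      rw [ae_all_iff]
      intro i
      by_cases hi : i ∈ S
      · exact ae_of_all _ (fun ω h => absurd hi h)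
      · have h0 : μ {ω | X k ω = i} = 0 := by
          have := hp k i
          rw [hz i hi] at this
          exact (measureReal_eq_zero_iff).mp this
        have h1 : ∀ᵐ ω ∂μ, ¬ (X k ω = i) := by
          rw [ae_iff]
          simpa using h0
        filter_upwards [h1] with ω hω _
        exact hω
    filter_upwards [this] with ω hω
    by_contra hcon
    exact hω _ hcon rfl
  have hB : ∀ᵐ ω ∂μ, ∀ i ∈ S, ∃ᶠ k in atTop, X k ω = i := by
    rw [ae_all_iff]
    intro i
    by_cases hi : i ∈ S
    · have hms : ∀ k, MeasurableSet {ω | X k ω = i} := fun k =>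
        (hX k) (measurableSet_singleton i)
      have hset : iIndepSet (fun k => {ω | X k ω = i}) μ := by
        rw [iIndepSet_iff_meas_biInter hms]
        intro s
        have := hind.measure_inter_preimage_eq_mul s (sets := fun _ => {i})
          (fun k _ => measurableSet_singleton i)
        exact this
      have hsum : ∑' k, μ {ω | X k ω = i} = ⊤ := by
        have hc : ∀ k, μ {ω | X k ω = i} = ENNReal.ofReal (p i) := by
          intro k
          rw [← hp k i, ofReal_measureReal]
        simp only [hc]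
        refine ENNReal.tsum_const_eq_top_of_ne_zero ?_
        have := (hS i).mpr hi
        simpa using this
      have h1 := measure_limsup_eq_one hms hset hsum
      have hml : MeasurableSet (limsup (fun k => {ω | X k ω = i}) atTop) :=
        MeasurableSet.measurableSet_limsup hms
      have h2 : ∀ᵐ ω ∂μ, ω ∈ limsup (fun k => {ω | X k ω = i}) atTop := by
        rw [ae_iff]
        have := (prob_compl_eq_zero_iff hml).mpr h1
        exact this
      filter_upwards [h2] with ω hω _
      rw [mem_limsup_iff_frequently_mem] at hω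
      exact hω
    · exact ae_of_all _ (fun ω h => absurd h hi)
  filter_upwards [hA, hB] with ω h1 h2
  exact fin_det (fun k => X k ω) S h1 h2

end R776.LI
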