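import Pool.Agent.R776.LI.Defs

/-!
Thinning comparison for MP_6ef346_pr.
-/

namespace R776.LI

open Finset Filter Topology MeasureTheory ProbabilityTheory

lemma thin_D_insert (K : ℕ) (u v : List (Option ℕ)) (e : Option ℕ) (lo : ℕ) :
    D K lo (u ++ v) ≤ D K lo (u ++ e :: v) := by
  induction u generalizing lo with
  | nil =>
    cases e with
    | none => simp [D]
    | some j =>
      simp only [List.nil_append, D]
      split_ifs
      · exact le_max_left _ _
      · exact le_rfl
  | cons a u ih =>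
    cases a with
    | none => simpa [D] using ih lo
    | some j =>
      simp only [List.cons_append, D]
      split_ifs
      · exact max_le_max (ih lo) (Nat.add_le_add_left (ih (j + 1)) 1)
      · exact ih lo

lemma thin_D_null (K : ℕ) (u v : List (Option ℕ)) (lo : ℕ) :
    D K lo (u ++ some K :: v) = D K lo (u ++ v) := by
  induction u generalizing lo with
  | nil => simp [D]
  | cons a u ih =>
    cases a with
    | none => simpa [D] using ih lo
    | some j =>
      simp only [List.cons_append, D]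
      rw [ih lo, ih (j + 1)]

lemma thin_ev_eq {p : ℕ → ℝ} {K : ℕ} (h0 : Adm p 0 K) {η : ℝ}
    (h0' : Adm (fun i => (1 - η) * p i) 0 K) (ψ : Option ℕ → ℝ) :
    (evE (fun i => (1 - η) * p i) 0 K h0').E ψ
      = (1 - η) * (evE p 0 K h0).E ψ + η * ψ (some K) := by
  have e1 : ∑ j ∈ range K, (1 - η) * p j * ψ (some j)
      = (1 - η) * ∑ j ∈ range K, p j * ψ (some j) := by
    rw [Finset.mul_sum]
    exact Finset.sum_congr rfl (fun j _ => by ring)
  have e2 : ∑ j ∈ range K, (1 - η) * p j = (1 - η) * ∑ j ∈ range K, p j := by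
    rw [Finset.mul_sum]
  show 0 * ψ none + ∑ j ∈ range K, (1 - η) * p j * ψ (some j)
    + (1 - 0 - ∑ j ∈ range K, (1 - η) * p j) * ψ (some K)
    = (1 - η) * (0 * ψ none + ∑ j ∈ range K, p j * ψ (some j)
    + (1 - 0 - ∑ j ∈ range K, p j) * ψ (some K)) + η * ψ (some K)
  rw [e1, e2]
  ring

lemma thin_ev_le {p : ℕ → ℝ} {K : ℕ} (h0 : Adm p 0 K) (ψ : Option ℕ → ℝ)
    (h : ∀ j, ψ (some j) ≤ ψ (some K)) : (evE p 0 K h0).E ψ ≤ ψ (some K) := by
  have e1 : ∑ j ∈ range K, p j * ψ (some j) ≤ ∑ j ∈ range K, p j * ψ (some K) :=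
    Finset.sum_le_sum (fun j _ => mul_le_mul_of_nonneg_left (h j) (h0.hp j))
  show 0 * ψ none + ∑ j ∈ range K, p j * ψ (some j)
    + (1 - 0 - ∑ j ∈ range K, p j) * ψ (some K) ≤ ψ (some K)
  rw [← Finset.sum_mul] at e1
  linarith

lemma thin_wordE_succ {A : Type} (P : Ex A) (n : ℕ) (φ : List A → ℝ) :
    (wordE P (n + 1)).E φ = P.E (fun a => (wordE P n).E (fun w => φ (a :: w))) := rfl

lemma thin_lower_aux {p : ℕ → ℝ} {K : ℕ} (h0 : Adm p 0 K) {η : ℝ} (hη : 0 ≤ η)
    (h0' : Adm (fun i => (1 - η) * p i) 0 K) (n : ℕ) :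
    ∀ φ : List (Option ℕ) → ℝ, (∀ u v j, φ (u ++ some j :: v) ≤ φ (u ++ some K :: v)) →
    (wordE (evE p 0 K h0) n).E φ
      ≤ (wordE (evE (fun i => (1 - η) * p i) 0 K h0') n).E φ := by
  induction n with
  | zero => intro φ _; exact le_rfl
  | succ n ih =>
    intro φ hφ
    rw [thin_wordE_succ, thin_wordE_succ]
    refine le_trans ((evE p 0 K h0).mono' _
      (fun a => (wordE (evE (fun i => (1 - η) * p i) 0 K h0') n).E (fun w => φ (a :: w)))
      (fun a => ih _ (fun u v j => ?_))) ?_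
    · exact hφ (a :: u) v j
    · have h2 := thin_ev_le h0
        (fun a => (wordE (evE (fun i => (1 - η) * p i) 0 K h0') n).E (fun w => φ (a :: w)))
        (fun j => (wordE (evE (fun i => (1 - η) * p i) 0 K h0') n).mono' _ _
          (fun w => hφ [] w j))
      rw [thin_ev_eq h0 h0']
      nlinarith [mul_nonneg hη (sub_nonneg.mpr h2)]

theorem thin_lower {p : ℕ → ℝ} {K : ℕ} (h0 : Adm p 0 K) {η : ℝ} (hη : 0 ≤ η) (hη1 : η ≤ 1)
    (h0' : Adm (fun i => (1 - η) * p i) 0 K) (n : ℕ) (c : ℝ) :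
    (wordE (evE p 0 K h0) n).pr (fun w => (D K 0 w : ℝ) < c)
      ≤ (wordE (evE (fun i => (1 - η) * p i) 0 K h0') n).pr (fun w => (D K 0 w : ℝ) < c) := by
  classical
  unfold Ex.pr
  refine thin_lower_aux h0 hη h0' n _ (fun u v j => ?_)
  have h1 : D K 0 (u ++ some K :: v) ≤ D K 0 (u ++ some j :: v) := by
    rw [thin_D_null]
    exact thin_D_insert K u v (some j) 0
  have h2 : (D K 0 (u ++ some K :: v) : ℝ) ≤ (D K 0 (u ++ some j :: v) : ℝ) := by
    exact_mod_cast h1
  by_cases h3 : (D K 0 (u ++ some j :: v) : ℝ) < c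
  · rw [if_pos h3, if_pos (lt_of_le_of_lt h2 h3)]
  · rw [if_neg h3]
    split_ifs <;> norm_num

/-- `P(Bin(T, 1-η) ≥ n)` -/
noncomputable def thinB (η : ℝ) : ℕ → ℕ → ℝ
  | _, 0 => 1
  | 0, _ + 1 => 0
  | T + 1, n + 1 => (1 - η) * thinB η T n + η * thinB η T (n + 1)

lemma thinB_zero (η : ℝ) (T : ℕ) : thinB η T 0 = 1 := by
  cases T <;> rfl

lemma thinB_bounds {η : ℝ} (hη : 0 ≤ η) (hη1 : η ≤ 1) (T : ℕ) :
    ∀ n, 0 ≤ thinB η T n ∧ thinB η T n ≤ 1 := by
  induction T with
  | zero =>
    intro n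
    cases n with
    | zero => simp [thinB]
    | succ n => simp [thinB]
  | succ T ih =>
    intro n
    cases n with
    | zero => simp [thinB]
    | succ n =>
      have h1 := ih n
      have h2 := ih (n + 1)
      have h3 : 0 ≤ 1 - η := by linarith
      simp only [thinB]
      constructor
      · have := mul_nonneg h3 h1.1
        have := mul_nonneg hη h2.1
        linarith
      · have := mul_le_mul_of_nonneg_left h1.2 h3
        have := mul_le_mul_of_nonneg_left h2.2 hη
        linarith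

lemma thinB_markov {η : ℝ} (hη : 0 ≤ η) (hη1 : η ≤ 1) (T : ℕ) :
    ∀ n : ℕ, ((T : ℝ) + 1 - n) * (1 - thinB η T n) ≤ η * T := by
  induction T with
  | zero =>
    intro n
    cases n with
    | zero => simp [thinB]
    | succ n =>
      simp only [thinB]
      push_cast
      have : (0 : ℝ) ≤ n := Nat.cast_nonneg n
      linarith
  | succ T ih =>
    intro n
    cases n with
    | zero =>
      simp only [thinB]
      push_cast
      have : (0 : ℝ) ≤ T := Nat.cast_nonneg T
      have := mul_nonneg hη (add_nonneg this zero_le_one)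
      linarith
    | succ n =>
      have h1 := ih n
      have h2 := ih (n + 1)
      have h3 : 0 ≤ 1 - η := by linarith
      have hb := thinB_bounds hη hη1 T (n + 1)
      simp only [thinB]
      push_cast at h1 h2 ⊢
      have h4 := mul_le_mul_of_nonneg_left h1 h3
      have h5 := mul_le_mul_of_nonneg_left h2 hη
      have h6 := mul_nonneg hη hb.1
      nlinarith

lemma thin_upper_aux {p : ℕ → ℝ} {K : ℕ} (h0 : Adm p 0 K) {η : ℝ} (hη : 0 ≤ η) (hη1 : η ≤ 1)
    (h0' : Adm (fun i => (1 - η) * p i) 0 K) (T : ℕ) :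
    ∀ (n : ℕ) (φ : List (Option ℕ) → ℝ), (∀ w, 0 ≤ φ w) →
    (∀ u v e, φ (u ++ v) ≤ φ (u ++ e :: v)) → (∀ u v, φ (u ++ some K :: v) = φ (u ++ v)) →
    thinB η T n * (wordE (evE p 0 K h0) n).E φ
      ≤ (wordE (evE (fun i => (1 - η) * p i) 0 K h0') T).E φ := by
  induction T with
  | zero =>
    intro n φ hn _ _
    cases n with
    | zero =>
      simp only [thinB, one_mul]
      exact le_rfl
    | succ n =>
      simp only [thinB, zero_mul]
      exact hn []
  | succ T ih =>
    intro n φ hn hm hK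
    cases n with
    | zero =>
      rw [thinB_zero, one_mul, thin_wordE_succ]
      show φ [] ≤ _
      have h1 : ∀ a, φ [] ≤ (wordE (evE (fun i => (1 - η) * p i) 0 K h0') T).E
          (fun w => φ (a :: w)) := by
        intro a
        have h2 := ih 0 (fun w => φ (a :: w)) (fun w => hn _) (fun u v e => hm (a :: u) v e)
          (fun u v => hK (a :: u) v)
        rw [thinB_zero, one_mul] at h2
        exact le_trans (hm [] [] a) h2
      have h3 := (evE (fun i => (1 - η) * p i) 0 K h0').mono' _ _ h1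
      rwa [Ex.E_const] at h3
    | succ n =>
      rw [thin_wordE_succ (evE (fun i => (1 - η) * p i) 0 K h0'), thin_ev_eq h0 h0']
      have hA : (evE p 0 K h0).E (fun a => thinB η T n *
          (wordE (evE p 0 K h0) n).E (fun w => φ (a :: w)))
          ≤ (evE p 0 K h0).E (fun a =>
          (wordE (evE (fun i => (1 - η) * p i) 0 K h0') T).E (fun w => φ (a :: w))) := by
        refine (evE p 0 K h0).mono' _ _ (fun a => ?_)
        exact ih n (fun w => φ (a :: w)) (fun w => hn _) (fun u v e => hm (a :: u) v e)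
          (fun u v => hK (a :: u) v)
      rw [Ex.smul', ← thin_wordE_succ] at hA
      have hB := ih (n + 1) φ hn hm hK
      have hB' : (wordE (evE (fun i => (1 - η) * p i) 0 K h0') T).E (fun w => φ (some K :: w))
          = (wordE (evE (fun i => (1 - η) * p i) 0 K h0') T).E φ := by
        congr 1
        funext w
        exact hK [] w
      have h3 : 0 ≤ 1 - η := by linarith
      have hA' := mul_le_mul_of_nonneg_left hA h3
      have hB'' := mul_le_mul_of_nonneg_left hB hη
      simp only [thinB]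
      rw [hB']
      nlinarith

theorem thin_upper {p : ℕ → ℝ} {K : ℕ} (h0 : Adm p 0 K) {η : ℝ} (hη : 0 ≤ η) (hη1 : η < 1 / 2)
    (h0' : Adm (fun i => (1 - η) * p i) 0 K) (n T : ℕ) (hT : 0 < T) (hn : (n : ℝ) ≤ (1 - 2 * η) * T)
    (c : ℝ) :
    (wordE (evE p 0 K h0) n).pr (fun w => c < (D K 0 w : ℝ))
      ≤ 2 * (wordE (evE (fun i => (1 - η) * p i) 0 K h0') T).pr (fun w => c < (D K 0 w : ℝ)) := by
  classical
  have hη1' : η ≤ 1 := by linarith
  have hB := thinB_markov hη hη1' T n
  have hb := thinB_bounds hη hη1' T n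
  have hTr : (0 : ℝ) < T := by exact_mod_cast hT
  have hhalf : 1 / 2 ≤ thinB η T n := by
    by_contra hcon
    rw [not_le] at hcon
    have h1 : 2 * η * T + 1 ≤ (T : ℝ) + 1 - n := by linarith
    have h2 : (2 * η * T + 1) * (1 - thinB η T n) ≤ ((T : ℝ) + 1 - n) * (1 - thinB η T n) :=
      mul_le_mul_of_nonneg_right h1 (by linarith)
    have h3 : 0 ≤ η * T := mul_nonneg hη hTr.le
    nlinarith
  have hmain := thin_upper_aux h0 hη hη1' h0' T n
    (fun w => if c < (D K 0 w : ℝ) then (1 : ℝ) else 0)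
    (fun w => by split_ifs <;> norm_num)
    (fun u v e => by
      have h2 : (D K 0 (u ++ v) : ℝ) ≤ (D K 0 (u ++ e :: v) : ℝ) := by
        exact_mod_cast thin_D_insert K u v e 0
      by_cases h3 : c < (D K 0 (u ++ v) : ℝ)
      · rw [if_pos h3, if_pos (lt_of_lt_of_le h3 h2)]
      · rw [if_neg h3]
        split_ifs <;> norm_num)
    (fun u v => by
      rw [thin_D_null])
  have hpos : 0 ≤ (wordE (evE p 0 K h0) n).pr (fun w => c < (D K 0 w : ℝ)) := Ex.pr_nonneg _ _
  have e1 : (wordE (evE p 0 K h0) n).pr (fun w => c < (D K 0 w : ℝ))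
      = (wordE (evE p 0 K h0) n).E (fun w => if c < (D K 0 w : ℝ) then (1 : ℝ) else 0) := by
    unfold Ex.pr
    congr 1
  have e2 : (wordE (evE (fun i => (1 - η) * p i) 0 K h0') T).pr (fun w => c < (D K 0 w : ℝ))
      = (wordE (evE (fun i => (1 - η) * p i) 0 K h0') T).E
        (fun w => if c < (D K 0 w : ℝ) then (1 : ℝ) else 0) := by
    unfold Ex.pr
    congr 1
  rw [← e1, ← e2] at hmain
  nlinarith

end R776.LI
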