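import Pool.Agent.R776.LI.Stat

namespace R776.LI

open Finset Filter Topology MeasureTheory ProbabilityTheory

/-! ### `lis` and `D` -/

theorem trans_D_le (hi : ℕ) (n : ℕ) : ∀ (lo : ℕ) (x : Fin n → ℕ),
    ∃ k, D hi lo (List.ofFn (fun k => some (x k))) ≤ k ∧ ∃ i : Fin k → Fin n, StrictMono i ∧
      StrictMono (fun j => x (i j)) ∧ ∀ j, lo ≤ x (i j) := by
  induction n with
  | zero =>
    intro lo x
    exact ⟨0, by simp [D], Fin.elim0, fun a => a.elim0, fun a => a.elim0, fun a => a.elim0⟩
  | succ n ih =>
    intro lo x
    have hw : List.ofFn (fun k => some (x k))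
        = some (x 0) :: List.ofFn (fun k : Fin n => some (x k.succ)) := by
      rw [List.ofFn_succ]
    have hfirst : ∀ D0, D0 ≤ D hi lo (List.ofFn (fun k : Fin n => some (x k.succ))) →
        ∃ k, D0 ≤ k ∧ ∃ i : Fin k → Fin (n + 1), StrictMono i ∧
          StrictMono (fun j => x (i j)) ∧ ∀ j, lo ≤ x (i j) := by
      intro D0 hD0
      obtain ⟨k, hk, i, hi1, hi2, hi3⟩ := ih lo (fun k => x k.succ)
      exact ⟨k, hD0.trans hk, fun j => (i j).succ, (Fin.strictMono_succ).comp hi1, hi2, hi3⟩
    rw [hw]
    by_cases h : lo ≤ x 0 ∧ x 0 < hi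
    · simp only [D, if_pos h]
      by_cases h2 : 1 + D hi (x 0 + 1) (List.ofFn (fun k : Fin n => some (x k.succ)))
          ≤ D hi lo (List.ofFn (fun k : Fin n => some (x k.succ)))
      · rw [max_eq_left h2]
        exact hfirst _ le_rfl
      · push Not at h2
        rw [max_eq_right h2.le]
        obtain ⟨k, hk, i, hi1, hi2, hi3⟩ := ih (x 0 + 1) (fun k => x k.succ)
        refine ⟨k + 1, by omega, Fin.cons 0 (fun j => (i j).succ), ?_, ?_, ?_⟩
        · intro a b hab
          induction a using Fin.cases with
          | zero =>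
            induction b using Fin.cases with
            | zero => exact absurd hab (lt_irrefl _)
            | succ b => simp [Fin.succ_pos]
          | succ a =>
            induction b using Fin.cases with
            | zero => exact absurd hab (by simp)
            | succ b =>
              simp only [Fin.cons_succ]
              exact Fin.succ_lt_succ_iff.mpr (hi1 (Fin.succ_lt_succ_iff.mp hab))
        · intro a b hab
          induction a using Fin.cases with
          | zero =>
            induction b using Fin.cases with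
            | zero => exact absurd hab (lt_irrefl _)
            | succ b =>
              simp only [Fin.cons_zero, Fin.cons_succ]
              have : x 0 + 1 ≤ x (i b).succ := hi3 b
              omega
          | succ a =>
            induction b using Fin.cases with
            | zero => exact absurd hab (by simp)
            | succ b =>
              simp only [Fin.cons_succ]
              exact hi2 (Fin.succ_lt_succ_iff.mp hab)
        · intro a
          induction a using Fin.cases with
          | zero => simpa using h.1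
          | succ a =>
            simp only [Fin.cons_succ]
            have : x 0 + 1 ≤ x (i a).succ := hi3 a
            omega
    · simp only [D, if_neg h]
      exact hfirst _ le_rfl

theorem trans_le_D (hi : ℕ) (n : ℕ) : ∀ (lo : ℕ) (x : Fin n → ℕ) (k : ℕ) (i : Fin k → Fin n),
    StrictMono i → StrictMono (fun j => x (i j)) → (∀ j, lo ≤ x (i j)) → (∀ j, x j < hi) →
      k ≤ D hi lo (List.ofFn (fun k => some (x k))) := by
  induction n with
  | zero =>
    intro lo x k i _ _ _ _
    cases k with
    | zero => simp
    | succ k => exact (i 0).elim0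
  | succ n ih =>
    intro lo x k i h1 h2 h3 h4
    have hw : List.ofFn (fun k => some (x k))
        = some (x 0) :: List.ofFn (fun k : Fin n => some (x k.succ)) := by
      rw [List.ofFn_succ]
    rw [hw]
    cases k with
    | zero => simp
    | succ k =>
      by_cases h0 : i 0 = 0
      · have hpos : ∀ j : Fin k, i j.succ ≠ 0 := by
          intro j hj
          have := h1 (Fin.succ_pos j)
          rw [h0, hj] at this
          exact lt_irrefl _ this
        have hlo : lo ≤ x 0 := by
          have := h3 0
          rwa [h0] at this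
        have h5 := ih (x 0 + 1) (fun k => x k.succ) k (fun j => (i j.succ).pred (hpos j))
          (fun a b hab => by
            rw [Fin.pred_lt_pred_iff]
            exact h1 (Fin.succ_lt_succ_iff.mpr hab))
          (fun a b hab => by
            simp only [Fin.succ_pred]
            exact h2 (Fin.succ_lt_succ_iff.mpr hab))
          (fun j => by
            simp only [Fin.succ_pred]
            have := h2 (Fin.succ_pos j)
            simp only [h0] at this
            omega)
          (fun j => h4 _)
        simp only [D]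
        rw [if_pos ⟨hlo, h4 0⟩]
        refine le_trans ?_ (le_max_right _ _)
        omega
      · have hpos : ∀ j, i j ≠ 0 := by
          intro j hj
          have := h1.monotone (Fin.zero_le j)
          rw [hj] at this
          exact h0 (Fin.le_zero_iff.mp this)
        have h5 := ih lo (fun k => x k.succ) (k + 1) (fun j => (i j).pred (hpos j))
          (fun a b hab => by
            rw [Fin.pred_lt_pred_iff]
            exact h1 hab)
          (fun a b hab => by
            simp only [Fin.succ_pred]
            exact h2 hab)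
          (fun j => by
            simp only [Fin.succ_pred]
            exact h3 j)
          (fun j => h4 _)
        simp only [D]
        split_ifs
        · exact le_trans h5 (le_max_left _ _)
        · exact h5

theorem trans_bdd (n : ℕ) (x : Fin n → ℕ) :
    BddAbove {k : ℕ | ∃ i : Fin k → Fin n, StrictMono i ∧ StrictMono (fun j => x (i j))} := by
  refine ⟨n, ?_⟩
  rintro k ⟨i, hi, _⟩
  have := Fintype.card_le_of_injective i hi.injective
  simpa using this

theorem D_le_lis (n : ℕ) (x : Fin n → ℕ) (K : ℕ) :
    D K 0 (List.ofFn (fun k => some (x k))) ≤ lis n x := by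
  obtain ⟨k, hk, i, h1, h2, _⟩ := trans_D_le K n 0 x
  exact hk.trans (le_csSup (trans_bdd n x) ⟨i, h1, h2⟩)

theorem lis_eq_D (n : ℕ) (x : Fin n → ℕ) (K : ℕ) (h : ∀ k, x k < K) :
    lis n x = D K 0 (List.ofFn (fun k => some (x k))) := by
  refine le_antisymm ?_ (D_le_lis n x K)
  refine csSup_le ⟨0, Fin.elim0, fun a => a.elim0, fun a => a.elim0⟩ ?_
  rintro k ⟨i, h1, h2⟩
  exact trans_le_D K n 0 x k i h1 h2 (fun _ => Nat.zero_le _) h

theorem lis_mono (x : ℕ → ℕ) : Monotone (fun n => lis n (fun k : Fin n => x k)) := by
  intro n m hnm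
  refine csSup_le_csSup (trans_bdd m (fun k => x k)) ⟨0, Fin.elim0, fun a => a.elim0, fun a => a.elim0⟩ ?_
  rintro k ⟨i, h1, h2⟩
  exact ⟨fun j => Fin.castLE hnm (i j), (Fin.strictMono_castLE hnm).comp h1, h2⟩

theorem lis_measurable {Ω : Type*} [MeasurableSpace Ω] (X : ℕ → Ω → ℕ)
    (hX : ∀ k, Measurable (X k)) (n : ℕ) :
    Measurable (fun ω => (lis n (fun k : Fin n => X k ω) : ℝ)) := by
  have h1 : Measurable (fun ω => (fun k : Fin n => X k ω)) :=
    measurable_pi_lambda _ (fun k => hX k)
  have h2 : Measurable (fun x : Fin n → ℕ => (lis n x : ℝ)) := measurable_of_countable _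
  exact h2.comp h1

/-! ### transfer of probabilities -/

/-- lumped probabilities -/
noncomputable def trans_q (p : ℕ → ℝ) (K j : ℕ) : ℝ :=
  if j < K then p j else 1 - ∑ i ∈ range K, p i

theorem trans_ev {p : ℕ → ℝ} {K : ℕ} (h0 : Adm p 0 K) (φ : Option ℕ → ℝ) :
    (evE p 0 K h0).E φ = ∑ j : Fin (K + 1), trans_q p K j * φ (some (j : ℕ)) := by
  rw [stat_evE_E, Fin.sum_univ_castSucc, Finset.sum_range]
  simp [trans_q, Finset.sum_range]

theorem trans_word {p : ℕ → ℝ} {K : ℕ} (h0 : Adm p 0 K) (n : ℕ) (φ : List (Option ℕ) → ℝ) :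
    (wordE (evE p 0 K h0) n).E φ = ∑ y : Fin n → Fin (K + 1),
      (∏ k, trans_q p K (y k)) * φ (List.ofFn (fun k => some ((y k : ℕ)))) := by
  induction n generalizing φ with
  | zero => simp [wordE_zero_E]
  | succ n ih =>
    rw [wordE_succ_E, trans_ev]
    rw [← (Fin.consEquiv (fun _ : Fin (n + 1) => Fin (K + 1))).sum_comp, Fintype.sum_prod_type]
    refine Finset.sum_congr rfl (fun j _ => ?_)
    rw [ih, Finset.mul_sum]
    refine Finset.sum_congr rfl (fun y _ => ?_)
    simp only [Fin.consEquiv_apply, Fin.prod_univ_succ, Fin.cons_zero, Fin.cons_succ,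
      List.ofFn_succ]
    ring

theorem trans_D_clean (K : ℕ) (n : ℕ) : ∀ (lo : ℕ) (x : Fin n → ℕ),
    D K lo (List.ofFn (fun k => some (x k)))
      = D K lo (List.ofFn (fun k => some (min (x k) K))) := by
  induction n with
  | zero => intro lo x; simp
  | succ n ih =>
    intro lo x
    rw [List.ofFn_succ, List.ofFn_succ]
    simp only [D]
    by_cases h : x 0 < K
    · rw [min_eq_left h.le, ih lo, ih (x 0 + 1)]
    · have h1 : ¬ (min (x 0) K < K) := by omega
      simp only [h, h1, and_false, if_false]
      exact ih _ _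

theorem trans_law {Ω : Type*} [MeasurableSpace Ω] (μ : Measure Ω)
    [IsProbabilityMeasure μ] (X : ℕ → Ω → ℕ) (hX : ∀ k, Measurable (X k))
    (p : ℕ → ℝ) (hp : ∀ k i, μ.real {ω | X k ω = i} = p i) (K : ℕ) (k j : ℕ) (hj : j ≤ K) :
    μ.real {ω | min (X k ω) K = j} = trans_q p K j := by
  unfold trans_q
  split_ifs with h
  · rw [← hp k j]
    congr 1
    ext ω
    simp only [Set.mem_ofPred_eq]
    omega
  · have hjK : j = K := by omega
    subst hjK
    have h1 : {ω | min (X k ω) j = j} = (⋃ i ∈ range j, {ω | X k ω = i})ᶜ := by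
      ext ω
      simp only [Set.mem_ofPred_eq, Set.mem_compl_iff, Set.mem_iUnion, mem_range, not_exists]
      constructor
      · intro h2 i hi h3
        omega
      · intro h2
        by_contra h3
        exact h2 (X k ω) (by omega) rfl
    have hm : ∀ i, MeasurableSet {ω | X k ω = i} := fun i => hX k (measurableSet_singleton i)
    rw [h1, probReal_compl_eq_one_sub (Finset.measurableSet_biUnion _ (fun i _ => hm i)),
      measureReal_biUnion_finset ?_ (fun i _ => hm i)]
    · simp only [hp]
    · intro a _ b _ hab
      rw [Function.onFun, Set.disjoint_left]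
      intro ω h2 h3
      exact hab (h2.symm.trans h3)

theorem trans_cyl {Ω : Type*} [MeasurableSpace Ω] (μ : Measure Ω)
    [IsProbabilityMeasure μ] (X : ℕ → Ω → ℕ) (hX : ∀ k, Measurable (X k)) (hind : iIndepFun X μ)
    (p : ℕ → ℝ) (hp : ∀ k i, μ.real {ω | X k ω = i} = p i) (K : ℕ) (n : ℕ)
    (y : Fin n → Fin (K + 1)) :
    μ.real {ω | ∀ k : Fin n, min (X k ω) K = y k} = ∏ k, trans_q p K (y k) := by
  have h1 : {ω | ∀ k : Fin n, min (X k ω) K = y k}
      = ⋂ k ∈ range n, X k ⁻¹' {m | ∀ h : k < n, min m K = y ⟨k, h⟩} := by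
    ext ω
    simp only [Set.mem_ofPred_eq, Set.mem_iInter, mem_range, Set.mem_preimage]
    constructor
    · intro h k hk hk'
      exact h ⟨k, hk'⟩
    · intro h k
      exact h k k.2 k.2
  have h2 := hind.measure_inter_preimage_eq_mul (range n)
    (sets := fun k => {m | ∀ h : k < n, min m K = y ⟨k, h⟩}) (fun k _ => MeasurableSet.of_discrete)
  rw [h1, measureReal_def, h2, ENNReal.toReal_prod, Finset.prod_range]
  refine Finset.prod_congr rfl (fun k _ => ?_)
  rw [← trans_law μ X hX p hp K k (y k) (by have := (y k).2; omega), measureReal_def]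
  congr 2
  ext ω
  simp

theorem pr_transfer {Ω : Type*} [MeasurableSpace Ω] (μ : Measure Ω)
    [IsProbabilityMeasure μ] (X : ℕ → Ω → ℕ) (hX : ∀ k, Measurable (X k)) (hind : iIndepFun X μ)
    (p : ℕ → ℝ) (hp : ∀ k i, μ.real {ω | X k ω = i} = p i) (K : ℕ) (h0 : Adm p 0 K) (n : ℕ)
    (S : ℕ → Prop) :
    μ.real {ω | S (D K 0 (List.ofFn (fun k : Fin n => some (X k ω))))}
      = (wordE (evE p 0 K h0) n).pr (fun w => S (D K 0 w)) := by
  classical
  unfold Ex.pr
  rw [trans_word h0 n (fun w => if S (D K 0 w) then 1 else 0)]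
  have h1 : {ω | S (D K 0 (List.ofFn (fun k : Fin n => some (X k ω))))}
      = ⋃ y ∈ (Finset.univ.filter (fun y : Fin n → Fin (K + 1) =>
          S (D K 0 (List.ofFn (fun k => some ((y k : ℕ))))))),
        {ω | ∀ k : Fin n, min (X k ω) K = y k} := by
    ext ω
    simp only [Set.mem_ofPred_eq, Set.mem_iUnion, Finset.mem_filter, Finset.mem_univ, true_and,
      exists_prop]
    rw [trans_D_clean K n 0 (fun k => X k ω)]
    constructor
    · intro h
      exact ⟨fun k => ⟨min (X k ω) K, by omega⟩, h, fun k => rfl⟩
    · rintro ⟨y, hy, h⟩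
      have h2 : (fun k : Fin n => some (min (X k ω) K)) = fun k => some ((y k : ℕ)) := by
        funext k
        rw [h k]
      rw [h2]
      exact hy
  have hm : ∀ y : Fin n → Fin (K + 1), MeasurableSet {ω | ∀ k : Fin n, min (X k ω) K = y k} := by
    intro y
    have : {ω | ∀ k : Fin n, min (X k ω) K = y k} = ⋂ k : Fin n, {ω | min (X k ω) K = y k} := by
      ext ω; simp
    rw [this]
    refine MeasurableSet.iInter (fun k => ?_)
    exact (hX k) (MeasurableSet.of_discrete (s := {m | min m K = (y k : ℕ)}))
  rw [h1, measureReal_biUnion_finset ?_ (fun y _ => hm y)]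
  · rw [Finset.sum_filter]
    refine Finset.sum_congr rfl (fun y _ => ?_)
    rw [trans_cyl μ X hX hind p hp K n y]
    split_ifs <;> simp
  · intro a _ b _ hab
    rw [Function.onFun, Set.disjoint_left]
    intro ω h2 h3
    apply hab
    funext k
    exact Fin.ext ((h2 k).symm.trans (h3 k))

end R776.LI
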