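import Pool.Agent.R776.LI.Defs

namespace R776.LI

open Finset Filter Topology MeasureTheory ProbabilityTheory

/-- the functional minimised in `FK` -/
noncomputable def var_F (p : ℕ → ℝ) (K : ℕ) (t x : ℝ) : ℝ :=
  x + ∑ i ∈ range K, t * p i / (t * p i + x)

lemma var_h_nonneg {u x : ℝ} (hu : 0 ≤ u) (hx : 0 ≤ x) : 0 ≤ u / (u + x) :=
  div_nonneg hu (add_nonneg hu hx)

lemma var_h_mono {u u' x : ℝ} (hu : 0 ≤ u) (huu : u ≤ u') (hx : 0 ≤ x) :
    u / (u + x) ≤ u' / (u' + x) := by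
  rcases hu.eq_or_lt with h | h
  · rw [← h, zero_div]
    exact var_h_nonneg (hu.trans huu) hx
  · have hu' : 0 < u' := lt_of_lt_of_le h huu
    rw [div_le_div_iff₀ (by linarith) (by linarith)]
    nlinarith [mul_le_mul_of_nonneg_right huu hx]

lemma var_F_nonneg {p : ℕ → ℝ} (hp : ∀ i, 0 ≤ p i) (K : ℕ) {t x : ℝ} (ht : 0 ≤ t) (hx : 0 ≤ x) :
    0 ≤ var_F p K t x := by
  unfold var_F
  exact add_nonneg hx (Finset.sum_nonneg (fun i _ => var_h_nonneg (mul_nonneg ht (hp i)) hx))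

lemma var_FK_le {p : ℕ → ℝ} (hp : ∀ i, 0 ≤ p i) (K : ℕ) {t x : ℝ} (ht : 0 ≤ t) (hx : 0 ≤ x) :
    FK p K t ≤ var_F p K t x := by
  unfold FK
  refine csInf_le ⟨0, ?_⟩ ⟨x, hx, rfl⟩
  rintro y ⟨z, hz, rfl⟩
  exact var_F_nonneg hp K ht hz

lemma var_le_FK {p : ℕ → ℝ} (K : ℕ) {t c : ℝ} (h : ∀ x, 0 ≤ x → c ≤ var_F p K t x) :
    c ≤ FK p K t := by
  unfold FK
  refine le_csInf ⟨_, ⟨0, Set.self_mem_Ici, rfl⟩⟩ ?_
  rintro y ⟨z, hz, rfl⟩
  exact h z hz

lemma var_F_eq_G {p : ℕ → ℝ} (K : ℕ) {T : ℝ} (hT : 0 < T) (α : ℝ) :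
    var_F p K T (α * T) = G p α T 0 K := by
  unfold var_F G qq
  rw [Nat.Ico_zero_eq_range]
  congr 1
  refine Finset.sum_congr rfl (fun i _ => ?_)
  rw [show T * p i + α * T = T * (p i + α) by ring, mul_div_mul_left _ _ hT.ne']

theorem FK_eq_G {p : ℕ → ℝ} (hp : ∀ i, 0 ≤ p i) {K : ℕ} {T a : ℝ} (hT : 0 < T) (ha : 0 ≤ a)
    (hmin : ∀ α, 0 ≤ α → G p a T 0 K ≤ G p α T 0 K) : FK p K T = G p a T 0 K := by
  apply le_antisymm
  · rw [← var_F_eq_G K hT a]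
    exact var_FK_le hp K hT.le (mul_nonneg ha hT.le)
  · refine var_le_FK K (fun x hx => ?_)
    have h1 := hmin (x / T) (div_nonneg hx hT.le)
    rw [← var_F_eq_G K hT (x / T), div_mul_cancel₀ _ hT.ne'] at h1
    exact h1

lemma var_F_scale {p : ℕ → ℝ} (hp : ∀ i, 0 ≤ p i) (K : ℕ) {t c x : ℝ} (ht : 0 < t) (hc : 1 ≤ c)
    (hx : 0 ≤ x) : var_F p K (c * t) (c * x) ≤ c * var_F p K t x := by
  unfold var_F
  have hc0 : 0 < c := by linarith
  have h1 : ∀ i ∈ range K, c * t * p i / (c * t * p i + c * x) = t * p i / (t * p i + x) := by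
    intro i _
    rw [show c * t * p i = c * (t * p i) by ring, ← mul_add, mul_div_mul_left _ _ hc0.ne']
  rw [Finset.sum_congr rfl h1, mul_add]
  have h2 : 0 ≤ ∑ i ∈ range K, t * p i / (t * p i + x) :=
    Finset.sum_nonneg (fun i _ => var_h_nonneg (mul_nonneg ht.le (hp i)) hx)
  nlinarith

theorem FK_scale {p : ℕ → ℝ} (hp : ∀ i, 0 ≤ p i) (K : ℕ) {t c : ℝ} (ht : 0 < t) (hc : 1 ≤ c) :
    FK p K (c * t) ≤ c * FK p K t := by
  have hc0 : 0 < c := by linarith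
  have h1 : FK p K (c * t) / c ≤ FK p K t := by
    refine var_le_FK K (fun x hx => ?_)
    rw [div_le_iff₀ hc0, mul_comm _ c]
    exact (var_FK_le hp K (by positivity) (mul_nonneg hc0.le hx)).trans (var_F_scale hp K ht hc hx)
  rw [div_le_iff₀ hc0] at h1
  linarith

theorem FK_mono {p : ℕ → ℝ} (hp : ∀ i, 0 ≤ p i) (K : ℕ) {t t' : ℝ} (ht : 0 < t) (htt : t ≤ t') :
    FK p K t ≤ FK p K t' := by
  refine var_le_FK K (fun x hx => (var_FK_le hp K ht.le hx).trans ?_)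
  unfold var_F
  have : ∀ i ∈ range K, t * p i / (t * p i + x) ≤ t' * p i / (t' * p i + x) := fun i _ =>
    var_h_mono (mul_nonneg ht.le (hp i)) (mul_le_mul_of_nonneg_right htt (hp i)) hx
  linarith [Finset.sum_le_sum this]

theorem FK_smul {p : ℕ → ℝ} (K : ℕ) (c t : ℝ) :
    FK (fun i => c * p i) K t = FK p K (c * t) := by
  unfold FK
  congr 2
  funext x
  congr 1
  refine Finset.sum_congr rfl (fun i _ => ?_)
  rw [show t * (c * p i) = c * t * p i by ring]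

/-- the functional in `[0,∞]` -/
noncomputable def var_Phi (p : ℕ → ℝ) (t x : ℝ) : ENNReal :=
  ENNReal.ofReal x + ∑' i, ENNReal.ofReal (t * p i / (t * p i + x))

lemma var_fP_eq (p : ℕ → ℝ) (t : ℝ) :
    fP p t = (⨅ x : {x : ℝ // 0 ≤ x}, var_Phi p t x).toReal := rfl

lemma var_ofReal_F {p : ℕ → ℝ} (hp : ∀ i, 0 ≤ p i) (K : ℕ) {t x : ℝ} (ht : 0 ≤ t) (hx : 0 ≤ x) :
    ENNReal.ofReal (var_F p K t x)
      = ENNReal.ofReal x + ∑ i ∈ range K, ENNReal.ofReal (t * p i / (t * p i + x)) := by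
  unfold var_F
  rw [ENNReal.ofReal_add hx
    (Finset.sum_nonneg (fun i _ => var_h_nonneg (mul_nonneg ht (hp i)) hx)),
    ENNReal.ofReal_sum_of_nonneg (fun i _ => var_h_nonneg (mul_nonneg ht (hp i)) hx)]

lemma var_ofReal_F_le {p : ℕ → ℝ} (hp : ∀ i, 0 ≤ p i) (K : ℕ) {t x : ℝ} (ht : 0 ≤ t)
    (hx : 0 ≤ x) : ENNReal.ofReal (var_F p K t x) ≤ var_Phi p t x := by
  rw [var_ofReal_F hp K ht hx]
  exact add_le_add le_rfl (ENNReal.sum_le_tsum _)

lemma var_Phi_le {p : ℕ → ℝ} (hp : ∀ i, 0 ≤ p i) {t x : ℝ} (ht : 0 ≤ t) (hx : 0 ≤ x)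
    {c : ENNReal} (h : ∀ K, ENNReal.ofReal (var_F p K t x) ≤ c) : var_Phi p t x ≤ c := by
  unfold var_Phi
  rw [ENNReal.tsum_eq_iSup_nat, ENNReal.add_iSup]
  refine iSup_le (fun K => ?_)
  rw [← var_ofReal_F hp K ht hx]
  exact h K

lemma var_F_sqrt_le {p : ℕ → ℝ} (hp : ∀ i, 0 ≤ p i) (hs : ∀ K, ∑ i ∈ range K, p i ≤ 1) (K : ℕ)
    {t : ℝ} (ht : 0 < t) : var_F p K t (Real.sqrt t) ≤ 2 * Real.sqrt t := by
  unfold var_F
  have hst : 0 < Real.sqrt t := Real.sqrt_pos.2 ht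
  have h1 : ∀ i ∈ range K, t * p i / (t * p i + Real.sqrt t) ≤ Real.sqrt t * p i := by
    intro i _
    have h0 : 0 ≤ t * p i := mul_nonneg ht.le (hp i)
    calc t * p i / (t * p i + Real.sqrt t) ≤ t * p i / Real.sqrt t := by
          apply div_le_div_of_nonneg_left h0 hst
          linarith
      _ = Real.sqrt t * p i := by
          rw [div_eq_iff hst.ne']
          nlinarith [Real.mul_self_sqrt ht.le]
  have h2 := Finset.sum_le_sum h1
  rw [← Finset.mul_sum] at h2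
  have h3 := mul_le_mul_of_nonneg_left (hs K) hst.le
  linarith

lemma var_iInf_le {p : ℕ → ℝ} (hp : ∀ i, 0 ≤ p i) (hs : ∀ K, ∑ i ∈ range K, p i ≤ 1)
    {t : ℝ} (ht : 0 < t) :
    (⨅ x : {x : ℝ // 0 ≤ x}, var_Phi p t x) ≤ ENNReal.ofReal (2 * Real.sqrt t) := by
  refine (iInf_le _ ⟨Real.sqrt t, Real.sqrt_nonneg t⟩).trans ?_
  refine var_Phi_le hp ht.le (Real.sqrt_nonneg t) (fun K => ?_)
  exact ENNReal.ofReal_le_ofReal (var_F_sqrt_le hp hs K ht)

lemma var_iInf_ne_top {p : ℕ → ℝ} (hp : ∀ i, 0 ≤ p i) (hs : ∀ K, ∑ i ∈ range K, p i ≤ 1)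
    {t : ℝ} (ht : 0 < t) : (⨅ x : {x : ℝ // 0 ≤ x}, var_Phi p t x) ≠ ⊤ :=
  ne_top_of_le_ne_top ENNReal.ofReal_ne_top (var_iInf_le hp hs ht)

lemma var_fP_le {p : ℕ → ℝ} (hp : ∀ i, 0 ≤ p i) (hs : ∀ K, ∑ i ∈ range K, p i ≤ 1)
    {t : ℝ} (ht : 0 < t) : fP p t ≤ 2 * Real.sqrt t := by
  rw [var_fP_eq]
  exact ENNReal.toReal_le_of_le_ofReal (by positivity) (var_iInf_le hp hs ht)

lemma var_fP_nonneg (p : ℕ → ℝ) (t : ℝ) : 0 ≤ fP p t := ENNReal.toReal_nonneg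

theorem FK_le_fP {p : ℕ → ℝ} (hp : ∀ i, 0 ≤ p i) (hs : ∀ K, ∑ i ∈ range K, p i ≤ 1) (K : ℕ)
    {t : ℝ} (ht : 0 < t) : FK p K t ≤ fP p t := by
  rw [var_fP_eq]
  rw [← ENNReal.ofReal_le_iff_le_toReal (var_iInf_ne_top hp hs ht)]
  refine le_iInf (fun x => ?_)
  refine le_trans ?_ (var_ofReal_F_le hp K ht.le x.2)
  exact ENNReal.ofReal_le_ofReal (var_FK_le hp K ht.le x.2)

lemma var_F_mono_K {p : ℕ → ℝ} (hp : ∀ i, 0 ≤ p i) {K K' : ℕ} (hK : K ≤ K') {t x : ℝ}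
    (ht : 0 ≤ t) (hx : 0 ≤ x) : var_F p K t x ≤ var_F p K' t x := by
  unfold var_F
  have := Finset.sum_le_sum_of_subset_of_nonneg (f := fun i => t * p i / (t * p i + x))
    (Finset.range_mono hK) (fun i _ _ => var_h_nonneg (mul_nonneg ht (hp i)) hx)
  linarith

lemma var_FK_mono_K {p : ℕ → ℝ} (hp : ∀ i, 0 ≤ p i) {t : ℝ} (ht : 0 < t) :
    Monotone (fun K => FK p K t) := by
  intro K K' hK
  refine var_le_FK K' (fun x hx => ?_)
  exact (var_FK_le hp K ht.le hx).trans (var_F_mono_K hp hK ht.le hx)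

lemma var_F_continuousOn {p : ℕ → ℝ} (hp : ∀ i, 0 ≤ p i) (K : ℕ) {t : ℝ} (ht : 0 ≤ t) :
    ContinuousOn (var_F p K t) (Set.Ici 0) := by
  unfold var_F
  refine continuousOn_id.add (continuousOn_finsetSum _ (fun i _ => ?_))
  rcases (mul_nonneg ht (hp i)).eq_or_lt with h | h
  · simp only [← h, zero_div]
    exact continuousOn_const
  · refine continuousOn_const.div (continuousOn_const.add continuousOn_id) (fun x hx => ?_)
    have hx' : (0 : ℝ) ≤ x := hx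
    exact (by linarith : (0 : ℝ) < t * p i + x).ne'

theorem FK_tendsto {p : ℕ → ℝ} (hp : ∀ i, 0 ≤ p i) (hs : ∀ K, ∑ i ∈ range K, p i ≤ 1)
    {t : ℝ} (ht : 0 < t) : Tendsto (fun K => FK p K t) atTop (𝓝 (fP p t)) := by
  have hbdd : BddAbove (Set.range (fun K => FK p K t)) := by
    refine ⟨fP p t, ?_⟩
    rintro y ⟨K, rfl⟩
    exact FK_le_fP hp hs K ht
  have hlim := tendsto_atTop_ciSup (var_FK_mono_K hp ht) hbdd
  set c := ⨆ K, FK p K t with hc
  have hle : ∀ K, FK p K t ≤ c := fun K => le_ciSup hbdd K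
  have hcle : c ≤ fP p t := ciSup_le (fun K => FK_le_fP hp hs K ht)
  have hc0 : 0 ≤ c := (var_le_FK 0 (fun x hx => var_F_nonneg hp 0 ht.le hx)).trans (hle 0)
  have hge : fP p t ≤ c := by
    -- near minimisers
    have hex : ∀ K : ℕ, ∃ x : ℝ, 0 ≤ x ∧ var_F p K t x ≤ c + 1 / ((K : ℝ) + 1) := by
      intro K
      by_contra hcon
      push Not at hcon
      have h1 := var_le_FK (p := p) K (t := t) (c := c + 1 / ((K : ℝ) + 1))
        (fun x hx => (hcon x hx).le)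
      have h2 := hle K
      have h3 : (0 : ℝ) < 1 / ((K : ℝ) + 1) := by positivity
      linarith
    choose x hx0 hx1 using hex
    have hxb : ∀ K, x K ∈ Set.Icc (0 : ℝ) (c + 1) := by
      intro K
      refine ⟨hx0 K, ?_⟩
      have h1 := hx1 K
      have h2 : (1 : ℝ) / ((K : ℝ) + 1) ≤ 1 := by
        rw [div_le_one (by positivity)]
        have : (0 : ℝ) ≤ K := Nat.cast_nonneg K
        linarith
      have h3 : x K ≤ var_F p K t (x K) := by
        unfold var_F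
        have := Finset.sum_nonneg (s := range K)
          (fun i _ => var_h_nonneg (mul_nonneg ht.le (hp i)) (hx0 K))
        linarith
      linarith
    obtain ⟨y, hy, φ, hφ, hφt⟩ := isCompact_Icc.tendsto_subseq hxb
    have hy0 : 0 ≤ y := hy.1
    have hF : ∀ K, var_F p K t y ≤ c := by
      intro K
      have hcont := (var_F_continuousOn hp K ht.le) y hy0
      have h1 : Tendsto (fun n => var_F p K t (x (φ n))) atTop (𝓝 (var_F p K t y)) := by
        apply hcont.tendsto.comp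
        rw [tendsto_nhdsWithin_iff]
        exact ⟨hφt, Eventually.of_forall (fun n => hx0 (φ n))⟩
      have h2 : Tendsto (fun n : ℕ => c + 1 / ((φ n : ℝ) + 1)) atTop (𝓝 (c + 0)) :=
        tendsto_const_nhds.add
          ((tendsto_one_div_add_atTop_nhds_zero_nat (𝕜 := ℝ)).comp hφ.tendsto_atTop)
      rw [add_zero] at h2
      refine le_of_tendsto_of_tendsto h1 h2 ?_
      filter_upwards [hφ.tendsto_atTop.eventually_ge_atTop K] with n hn
      exact (var_F_mono_K hp hn ht.le (hx0 (φ n))).trans (hx1 (φ n))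
    rw [var_fP_eq]
    refine ENNReal.toReal_le_of_le_ofReal hc0 ?_
    refine (iInf_le _ ⟨y, hy0⟩).trans ?_
    exact var_Phi_le hp ht.le hy0 (fun K => ENNReal.ofReal_le_ofReal (hF K))
  rw [le_antisymm hge hcle]
  exact hlim

theorem fP_mono {p : ℕ → ℝ} (hp : ∀ i, 0 ≤ p i) (hs : ∀ K, ∑ i ∈ range K, p i ≤ 1)
    {t t' : ℝ} (ht : 0 < t) (htt : t ≤ t') : fP p t ≤ fP p t' :=
  le_of_tendsto_of_tendsto' (FK_tendsto hp hs ht) (FK_tendsto hp hs (lt_of_lt_of_le ht htt))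
    (fun K => FK_mono hp K ht htt)

theorem fP_zero {p : ℕ → ℝ} : fP p 0 = 0 := by
  rw [var_fP_eq]
  have h : (⨅ x : {x : ℝ // 0 ≤ x}, var_Phi p 0 x) ≤ 0 := by
    refine (iInf_le _ ⟨0, le_rfl⟩).trans ?_
    unfold var_Phi
    simp
  rw [le_antisymm h bot_le]
  rfl

theorem fP_add_one {p : ℕ → ℝ} (hp : ∀ i, 0 ≤ p i) (hs : ∀ K, ∑ i ∈ range K, p i ≤ 1)
    (n : ℕ) (hn : 1 ≤ n) : fP p ((n + 1 : ℕ) : ℝ) ≤ fP p n + 2 := by
  have hn0 : (0 : ℝ) < n := by exact_mod_cast hn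
  have hn1 : (1 : ℝ) ≤ n := by exact_mod_cast hn
  have hc : (1 : ℝ) ≤ 1 + 1 / n := by
    have : (0 : ℝ) < 1 / n := by positivity
    linarith
  have he : ((n + 1 : ℕ) : ℝ) = (1 + 1 / (n : ℝ)) * n := by
    push_cast
    field_simp
  have h1 : fP p ((n + 1 : ℕ) : ℝ) ≤ (1 + 1 / (n : ℝ)) * fP p n := by
    refine le_of_tendsto_of_tendsto' (FK_tendsto hp hs (by positivity))
      ((FK_tendsto hp hs hn0).const_mul (1 + 1 / (n : ℝ))) (fun K => ?_)
    rw [he]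
    exact FK_scale hp K hn0 hc
  have h2 := var_fP_le hp hs hn0
  have h3 : Real.sqrt n ≤ n := by
    rw [Real.sqrt_le_left hn0.le]
    nlinarith
  have h4 : fP p n / n ≤ 2 := by
    rw [div_le_iff₀ hn0]
    linarith
  calc fP p ((n + 1 : ℕ) : ℝ) ≤ (1 + 1 / (n : ℝ)) * fP p n := h1
    _ = fP p n + fP p n / n := by ring
    _ ≤ fP p n + 2 := by linarith

theorem fP_pos {p : ℕ → ℝ} (hp : ∀ i, 0 ≤ p i) (hs : ∀ K, ∑ i ∈ range K, p i ≤ 1)
    (i : ℕ) (hi : 0 < p i) {t : ℝ} (ht : 0 < t) : 0 < fP p t := by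
  have hu : 0 < t * p i := mul_pos ht hi
  have h1 : min (1 / 2) (t * p i) ≤ FK p (i + 1) t := by
    refine var_le_FK _ (fun x hx => ?_)
    have h2 : t * p i / (t * p i + x) ≤ ∑ j ∈ range (i + 1), t * p j / (t * p j + x) :=
      Finset.single_le_sum (f := fun j => t * p j / (t * p j + x))
        (fun j _ => var_h_nonneg (mul_nonneg ht.le (hp j)) hx) (mem_range.2 (Nat.lt_succ_self i))
    unfold var_F
    rcases le_total x (t * p i) with h | h
    · have h3 : 1 / 2 ≤ t * p i / (t * p i + x) := by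
        rw [div_le_div_iff₀ (by norm_num) (by linarith)]
        linarith
      have := min_le_left (1 / 2) (t * p i)
      linarith
    · have h3 : 0 ≤ t * p i / (t * p i + x) := var_h_nonneg hu.le hx
      have := min_le_right (1 / 2) (t * p i)
      linarith
  have h2 := FK_le_fP hp hs (i + 1) ht
  have h3 : 0 < min (1 / 2) (t * p i) := lt_min (by norm_num) hu
  linarith

theorem fP_tendsto {p : ℕ → ℝ} (hp : ∀ i, 0 ≤ p i) (hs : ∀ K, ∑ i ∈ range K, p i ≤ 1)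
    (hinf : {i | 0 < p i}.Infinite) : Tendsto (fun n : ℕ => fP p n) atTop atTop := by
  rw [tendsto_atTop]
  intro b
  obtain ⟨M, hM⟩ := exists_nat_ge b
  obtain ⟨S, hS, hcard⟩ := hinf.exists_subset_card_eq M
  obtain ⟨K, hK⟩ : ∃ K : ℕ, ∀ i ∈ S, i < K := by
    refine ⟨S.sup id + 1, fun i hi => ?_⟩
    have := Finset.le_sup (f := id) hi
    simp only [id_eq] at this
    omega
  have h1 : ∀ᶠ n : ℕ in atTop, ∑ i ∈ S, 1 / p i ≤ (n : ℝ) :=
    tendsto_natCast_atTop_atTop.eventually_ge_atTop _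
  filter_upwards [h1, eventually_ge_atTop 1] with n hn hn1
  have hn0 : (0 : ℝ) < n := by exact_mod_cast hn1
  refine le_trans ?_ (FK_le_fP hp hs K hn0)
  refine var_le_FK _ (fun x hx => ?_)
  have h2 : ∑ i ∈ S, (n : ℝ) * p i / (n * p i + x)
      ≤ ∑ i ∈ range K, (n : ℝ) * p i / (n * p i + x) :=
    Finset.sum_le_sum_of_subset_of_nonneg (fun i hi => mem_range.2 (hK i hi))
      (fun i _ _ => var_h_nonneg (mul_nonneg hn0.le (hp i)) hx)
  have h3 : ∀ i ∈ S, 1 - x * (1 / p i) / n ≤ (n : ℝ) * p i / (n * p i + x) := by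
    intro i hi
    have hpi : 0 < p i := hS hi
    have hnp : 0 < (n : ℝ) * p i := mul_pos hn0 hpi
    have e1 : x * (1 / p i) / n = x / (n * p i) := by
      field_simp
    rw [e1]
    have e2 : (n : ℝ) * p i / (n * p i + x) = 1 - x / (n * p i + x) := by
      field_simp
      ring
    rw [e2]
    have : x / (n * p i + x) ≤ x / (n * p i) :=
      div_le_div_of_nonneg_left hx hnp (by linarith)
    linarith
  have h4 := Finset.sum_le_sum h3
  have h5 : ∑ i ∈ S, (1 - x * (1 / p i) / n) = M - x * (∑ i ∈ S, 1 / p i) / n := by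
    rw [Finset.sum_sub_distrib, Finset.sum_const, hcard, nsmul_eq_mul, mul_one, ← Finset.sum_div,
      ← Finset.mul_sum]
  have h6 : x * (∑ i ∈ S, 1 / p i) / n ≤ x := by
    rw [div_le_iff₀ hn0]
    exact mul_le_mul_of_nonneg_left hn hx
  unfold var_F
  linarith

end R776.LI
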