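import Pool.Agent.R776.LI.Core
import Pool.Agent.R776.LI.AS
import Pool.Agent.R776.LI.FinSupp
import Pool.Agent.R776.LI.Var
import Pool.Agent.R776.LI.Thin
import Pool.Agent.R776.LI.Trans

namespace R776.LI

open Finset Filter Topology MeasureTheory ProbabilityTheory

theorem FK_nonneg {p : ℕ → ℝ} (hp : ∀ i, 0 ≤ p i) (K : ℕ) {t : ℝ} (ht : 0 ≤ t) :
    0 ≤ FK p K t := by
  unfold FK
  apply Real.sInf_nonneg
  rintro y ⟨x, hx, rfl⟩
  have hx' : (0 : ℝ) ≤ x := hx
  have : 0 ≤ ∑ i ∈ range K, t * p i / (t * p i + x) :=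
    Finset.sum_nonneg (fun i _ => div_nonneg (mul_nonneg ht (hp i))
      (add_nonneg (mul_nonneg ht (hp i)) hx'))
  simp only
  linarith

theorem FK_le_sqrt {p : ℕ → ℝ} (hp : ∀ i, 0 ≤ p i) {K : ℕ} (hs : ∑ i ∈ range K, p i ≤ 1)
    {t : ℝ} (ht : 0 < t) : FK p K t ≤ 2 * Real.sqrt t := by
  obtain ⟨a, ha, hmin⟩ := exists_min hp K ht
  rw [FK_eq_G hp ht ha hmin]
  exact G_min_le hp hs ht hmin

/-- Two-sided bound for the truncated problem -/
theorem both_p (ε : ℝ) (hε : 0 < ε) (hε1 : ε < 1) : ∃ C F0 : ℝ, 0 ≤ C ∧ 0 < F0 ∧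
    ∀ (p : ℕ → ℝ) (K n : ℕ) (h0 : Adm p 0 K), F0 ≤ FK p K n →
      (wordE (evE p 0 K h0) n).pr (fun w => (D K 0 w : ℝ) < (1 - ε) * FK p K n) ≤ C / FK p K n ∧
      (wordE (evE p 0 K h0) n).pr (fun w => (1 + ε) * FK p K n < (D K 0 w : ℝ))
        ≤ C / FK p K n := by
  obtain ⟨η, hη, hη', hηε⟩ : ∃ η : ℝ, 0 < η ∧ η ≤ 1 / 16 ∧ 9 * η ≤ ε :=
    ⟨min (1 / 16) (ε / 9), by positivity, min_le_left _ _, by
      have := min_le_right (1 / 16) (ε / 9); linarith⟩
  obtain ⟨C1, F1, hF1, H1⟩ := lower_core η hη hη'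
  obtain ⟨C2, F2, hF2, H2⟩ := upper_core η hη hη'
  refine ⟨2 * |C1| + 2 * |C2|, 2 * F1 + F2 + 2 / η, by positivity, by positivity, ?_⟩
  intro p K n h0 hF
  have hp := h0.hp
  have hs : ∑ i ∈ range K, p i ≤ 1 := by linarith [h0.hs]
  have hη1 : 0 < 1 - η := by linarith
  have h0' : Adm (fun i => (1 - η) * p i) 0 K := by
    refine ⟨fun i => mul_nonneg hη1.le (hp i), le_rfl, ?_⟩
    rw [← Finset.mul_sum]
    nlinarith [Finset.sum_nonneg (fun i (_ : i ∈ range K) => hp i)]
  have hs' : ∑ i ∈ range K, (1 - η) * p i ≤ 1 - η := by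
    rw [← Finset.mul_sum]
    nlinarith [Finset.sum_nonneg (fun i (_ : i ∈ range K) => hp i)]
  have hFpos : 0 < FK p K n := lt_of_lt_of_le (by positivity) hF
  have hn0 : 0 < n := by
    rcases Nat.eq_zero_or_pos n with h | h
    · exfalso
      subst h
      have : FK p K ((0 : ℕ) : ℝ) ≤ 0 := by
        unfold FK
        apply csInf_le
        · refine ⟨0, ?_⟩
          rintro y ⟨x, hx, rfl⟩
          have hx' : (0 : ℝ) ≤ x := hx
          simp [hx']
        · exact ⟨0, by simp, by simp⟩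
      linarith
    · exact h
  have hnr : (0 : ℝ) < n := by exact_mod_cast hn0
  obtain ⟨F, hFdef⟩ : ∃ F : ℝ, F = FK p K n := ⟨_, rfl⟩
  have hn1 : 1 ≤ η * n := by
    have h1 : FK p K n ≤ 2 * Real.sqrt n := FK_le_sqrt hp hs hnr
    have h2 : 2 / η ≤ 2 * Real.sqrt n := by linarith
    have h3 : 1 / η ≤ Real.sqrt n := by
      have : 2 / η = 2 * (1 / η) := by ring
      linarith
    have h4 : (1 / η) ^ 2 ≤ n := by
      have : (1 / η) ^ 2 ≤ (Real.sqrt n) ^ 2 := by gcongr
      rwa [Real.sq_sqrt hnr.le] at this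
    have h5 : 1 / η ≤ n := by
      have h6 : 1 ≤ 1 / η := by
        rw [le_div_iff₀ hη]; linarith
      nlinarith
    rw [div_le_iff₀ hη] at h5
    linarith
  constructor
  · -- lower
    obtain ⟨a, ha, hmin⟩ := exists_min (p := fun i => (1 - η) * p i) h0'.hp K hnr
    have hfa : FK (fun i => (1 - η) * p i) K n = G (fun i => (1 - η) * p i) a n 0 K :=
      FK_eq_G h0'.hp hnr ha hmin
    have hsc : FK (fun i => (1 - η) * p i) K n = FK p K ((1 - η) * n) := FK_smul K (1 - η) n
    have h1 : (1 - η) * FK p K n ≤ FK p K ((1 - η) * n) := by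
      have h2 := FK_scale hp K (t := (1 - η) * n) (c := 1 / (1 - η)) (by positivity)
        (by rw [le_div_iff₀ hη1]; linarith)
      have h3 : 1 / (1 - η) * ((1 - η) * (n : ℝ)) = n := by field_simp
      rw [h3] at h2
      calc (1 - η) * FK p K n ≤ (1 - η) * (1 / (1 - η) * FK p K ((1 - η) * n)) := by gcongr
        _ = FK p K ((1 - η) * n) := by field_simp
    have h4 : (1 - η) * FK p K n ≤ G (fun i => (1 - η) * p i) a n 0 K := by
      rw [← hfa, hsc]; exact h1
    have h5 : F1 ≤ G (fun i => (1 - η) * p i) a n 0 K := by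
      refine le_trans ?_ h4
      have : 0 < 2 / η := by positivity
      nlinarith
    have h6 := H1 (fun i => (1 - η) * p i) K n a h0' hs' hn0 ha hmin h5
    have h7 := thin_lower h0 hη.le (by linarith) h0' n ((1 - ε) * FK p K n)
    refine h7.trans ?_
    have h8 : (wordE (evE (fun i => (1 - η) * p i) 0 K h0') n).pr
        (fun w => (D K 0 w : ℝ) < (1 - ε) * FK p K n) ≤
        (wordE (evE (fun i => (1 - η) * p i) 0 K h0') n).pr
        (fun w => (D K 0 w : ℝ) < (1 - 8 * η) * G (fun i => (1 - η) * p i) a n 0 K) := by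
      refine Ex.pr_mono _ _ _ (fun w hw => lt_of_lt_of_le hw ?_)
      have h9 : (1 - 8 * η) * ((1 - η) * FK p K n)
          ≤ (1 - 8 * η) * G (fun i => (1 - η) * p i) a n 0 K :=
        mul_le_mul_of_nonneg_left h4 (by linarith)
      refine le_trans ?_ h9
      have h10 : 1 - ε ≤ (1 - 8 * η) * (1 - η) := by nlinarith
      calc (1 - ε) * FK p K n ≤ ((1 - 8 * η) * (1 - η)) * FK p K n := by gcongr
        _ = _ := by ring
    refine h8.trans (h6.trans ?_)
    have hGpos : 0 < G (fun i => (1 - η) * p i) a n 0 K := lt_of_lt_of_le hF1 h5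
    calc C1 / G (fun i => (1 - η) * p i) a n 0 K
        ≤ |C1| / G (fun i => (1 - η) * p i) a n 0 K :=
          div_le_div_of_nonneg_right (le_abs_self _) hGpos.le
      _ ≤ |C1| / ((1 - η) * FK p K n) :=
          div_le_div_of_nonneg_left (abs_nonneg _) (by positivity) h4
      _ ≤ |C1| / (1 / 2 * FK p K n) :=
          div_le_div_of_nonneg_left (abs_nonneg _) (by positivity)
            (mul_le_mul_of_nonneg_right (by linarith) hFpos.le)
      _ = 2 * |C1| / FK p K n := by field_simp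
      _ ≤ (2 * |C1| + 2 * |C2|) / FK p K n :=
          div_le_div_of_nonneg_right (by linarith [abs_nonneg C2]) hFpos.le
  · -- upper
    obtain ⟨T, hT⟩ : ∃ T : ℕ, T = ⌈(n : ℝ) / (1 - 2 * η)⌉₊ := ⟨_, rfl⟩
    have h2η : 0 < 1 - 2 * η := by linarith
    have hT1 : (n : ℝ) / (1 - 2 * η) ≤ T := by rw [hT]; exact Nat.le_ceil _
    have hT2 : (T : ℝ) < (n : ℝ) / (1 - 2 * η) + 1 := by
      rw [hT]; exact Nat.ceil_lt_add_one (by positivity)
    have hnT : (n : ℝ) ≤ (1 - 2 * η) * T := by
      rw [div_le_iff₀ h2η] at hT1; linarith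
    have hTr : (0 : ℝ) < T := lt_of_lt_of_le (by positivity) hT1
    have hT0 : 0 < T := by exact_mod_cast hTr
    obtain ⟨a, ha, hmin⟩ := exists_min (p := fun i => (1 - η) * p i) h0'.hp K hTr
    have hfa : FK (fun i => (1 - η) * p i) K T = G (fun i => (1 - η) * p i) a T 0 K :=
      FK_eq_G h0'.hp hTr ha hmin
    have hsc : FK (fun i => (1 - η) * p i) K T = FK p K ((1 - η) * T) := FK_smul K (1 - η) T
    have h1 : FK p K n ≤ G (fun i => (1 - η) * p i) a T 0 K := by
      rw [← hfa, hsc]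
      refine FK_mono hp K hnr ?_
      refine hnT.trans ?_
      exact mul_le_mul_of_nonneg_right (by linarith) hTr.le
    have h2 : G (fun i => (1 - η) * p i) a T 0 K ≤ (1 + 3 * η) * FK p K n := by
      rw [← hfa, hsc]
      have h3 : (1 - η) * T ≤ (1 + 3 * η) * n := by
        have h4 : (1 - η) * (n / (1 - 2 * η)) ≤ (1 + 2 * η) * n := by
          rw [← mul_div_assoc, div_le_iff₀ h2η]
          have : 1 - η ≤ (1 + 2 * η) * (1 - 2 * η) := by nlinarith
          calc (1 - η) * (n : ℝ) ≤ ((1 + 2 * η) * (1 - 2 * η)) * n := by gcongr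
            _ = _ := by ring
        have h5 : (1 - η) * T ≤ (1 - η) * ((n : ℝ) / (1 - 2 * η) + 1) := by gcongr
        have h6 : (1 - η) * ((n : ℝ) / (1 - 2 * η) + 1)
            = (1 - η) * (n / (1 - 2 * η)) + (1 - η) := by ring
        linarith
      have h7 : 0 < (1 - η) * (T : ℝ) := by positivity
      refine (FK_mono hp K h7 h3).trans (FK_scale hp K hnr (by linarith))
    have hGF : F2 ≤ G (fun i => (1 - η) * p i) a T 0 K := by
      refine le_trans ?_ h1
      have : 0 < 2 / η := by positivity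
      linarith
    have h6 := H2 (fun i => (1 - η) * p i) K T a h0' hs' hT0 ha hmin hGF
    have h7 := thin_upper h0 hη.le (by linarith) h0' n T hT0 hnT ((1 + ε) * FK p K n)
    refine h7.trans ?_
    have h8 : (wordE (evE (fun i => (1 - η) * p i) 0 K h0') T).pr
        (fun w => (1 + ε) * FK p K n < (D K 0 w : ℝ)) ≤
        (wordE (evE (fun i => (1 - η) * p i) 0 K h0') T).pr
        (fun w => (1 + η) * G (fun i => (1 - η) * p i) a T 0 K < (D K 0 w : ℝ)) := by
      refine Ex.pr_mono _ _ _ (fun w hw => lt_of_le_of_lt ?_ hw)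
      have h9 : (1 + η) * G (fun i => (1 - η) * p i) a T 0 K
          ≤ (1 + η) * ((1 + 3 * η) * FK p K n) :=
        mul_le_mul_of_nonneg_left h2 (by linarith)
      refine le_trans h9 ?_
      have h10 : (1 + η) * (1 + 3 * η) ≤ 1 + ε := by nlinarith
      calc (1 + η) * ((1 + 3 * η) * FK p K n) = ((1 + η) * (1 + 3 * η)) * FK p K n := by ring
        _ ≤ _ := by gcongr
    have hGpos : 0 < G (fun i => (1 - η) * p i) a T 0 K := lt_of_lt_of_le hF2 hGF
    have h11 : C2 / G (fun i => (1 - η) * p i) a T 0 K ≤ |C2| / FK p K n := by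
      calc C2 / G (fun i => (1 - η) * p i) a T 0 K
          ≤ |C2| / G (fun i => (1 - η) * p i) a T 0 K :=
            div_le_div_of_nonneg_right (le_abs_self _) hGpos.le
        _ ≤ |C2| / FK p K n := div_le_div_of_nonneg_left (abs_nonneg _) hFpos h1
    calc 2 * (wordE (evE (fun i => (1 - η) * p i) 0 K h0') T).pr
          (fun w => (1 + ε) * FK p K n < (D K 0 w : ℝ))
        ≤ 2 * (|C2| / FK p K n) := by linarith [h8.trans (h6.trans h11)]
      _ = 2 * |C2| / FK p K n := by ring
      _ ≤ (2 * |C1| + 2 * |C2|) / FK p K n :=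
          div_le_div_of_nonneg_right (by linarith [abs_nonneg C1]) hFpos.le

section Main

variable {Ω : Type*} [MeasurableSpace Ω] (μ : Measure Ω) [IsProbabilityMeasure μ]
  (X : ℕ → Ω → ℕ) (hX : ∀ k, Measurable (X k)) (hind : iIndepFun X μ)
  (p : ℕ → ℝ) (hp : ∀ k i, μ.real {ω | X k ω = i} = p i)

include hX hp in
theorem p_nonneg_sum : (∀ i, 0 ≤ p i) ∧ ∀ K, ∑ i ∈ range K, p i ≤ 1 := by
  refine ⟨fun i => by rw [← hp 0 i]; exact measureReal_nonneg, fun K => ?_⟩
  have hm : ∀ i, MeasurableSet {ω | X 0 ω = i} := fun i => hX 0 (measurableSet_singleton i)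
  have h1 : ∑ i ∈ range K, p i = μ.real (⋃ i ∈ range K, {ω | X 0 ω = i}) := by
    rw [measureReal_biUnion_finset]
    · exact Finset.sum_congr rfl (fun i _ => (hp 0 i).symm)
    · intro i _ j _ hij
      rw [Function.onFun, Set.disjoint_left]
      intro ω h1 h2
      exact hij (h1.symm.trans h2)
    · intro i _
      exact hm i
  rw [h1]
  exact measureReal_le_one

include hX hind hp in
theorem tail_bounds (ε : ℝ) (hε : 0 < ε) : ∃ C F0 : ℝ, ∀ n : ℕ, F0 ≤ fP p n →
    μ.real {ω | ε * fP p n < |(lis n (fun k : Fin n => X k ω) : ℝ) - fP p n|}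
      ≤ C / fP p n := by
  obtain ⟨hp0, hs⟩ := p_nonneg_sum μ X hX p hp
  obtain ⟨δ, hδ, hδ1, hδε⟩ : ∃ δ : ℝ, 0 < δ ∧ δ < 1 ∧ δ ≤ ε :=
    ⟨min (1 / 2) ε, by positivity, by
      have := min_le_left (1 / 2) ε; linarith, min_le_right _ _⟩
  obtain ⟨C, F0, hC, hF0, H⟩ := both_p (δ / 2) (by positivity) (by linarith)
  refine ⟨4 * C, 2 * F0, ?_⟩
  intro n hF
  have hFpos : 0 < fP p n := by linarith
  have hn0 : 0 < n := by
    rcases Nat.eq_zero_or_pos n with h | h
    · exfalso
      subst h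
      have : fP p ((0 : ℕ) : ℝ) = 0 := by
        have := fP_zero (p := p)
        simpa using this
      linarith
    · exact h
  have hnr : (0 : ℝ) < n := by exact_mod_cast hn0
  -- K large
  have htend := FK_tendsto hp0 hs hnr
  have hev : ∀ᶠ K in atTop, max ((1 - δ) / (1 - δ / 2)) (1 / 2) * fP p n < FK p K n := by
    refine htend.eventually_const_lt ?_
    have h1 : (1 - δ) / (1 - δ / 2) < 1 := by
      rw [div_lt_one (by linarith)]; linarith
    have h2 : max ((1 - δ) / (1 - δ / 2)) (1 / 2) < 1 := max_lt h1 (by norm_num)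
    nlinarith
  have hAdm : ∀ K, Adm p 0 K := fun K => ⟨hp0, le_rfl, by linarith [hs K]⟩
  have hKprop : ∀ K, max ((1 - δ) / (1 - δ / 2)) (1 / 2) * fP p n < FK p K n →
      F0 ≤ FK p K n ∧ (1 - δ) * fP p n ≤ (1 - δ / 2) * FK p K n ∧ fP p n ≤ 2 * FK p K n := by
    intro K hK
    have h1 : 1 / 2 * fP p n < FK p K n :=
      lt_of_le_of_lt (mul_le_mul_of_nonneg_right (le_max_right _ _) hFpos.le) hK
    have h2 : (1 - δ) / (1 - δ / 2) * fP p n < FK p K n :=
      lt_of_le_of_lt (mul_le_mul_of_nonneg_right (le_max_left _ _) hFpos.le) hK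
    refine ⟨by linarith, ?_, by linarith⟩
    have h3 : 0 < 1 - δ / 2 := by linarith
    rw [div_mul_eq_mul_div, div_lt_iff₀ h3] at h2
    linarith
  have hCle : ∀ K, fP p n ≤ 2 * FK p K n → C / FK p K n ≤ 2 * C / fP p n := by
    intro K hK
    have h1 : 0 < FK p K n := by linarith
    rw [div_le_div_iff₀ h1 hFpos]
    nlinarith
  -- lower tail
  have hlow : μ.real {ω | (lis n (fun k : Fin n => X k ω) : ℝ) < (1 - δ) * fP p n}
      ≤ 2 * C / fP p n := by
    obtain ⟨K, hK⟩ := hev.exists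
    obtain ⟨h1, h2, h3⟩ := hKprop K hK
    have h4 := (H p K n (hAdm K) h1).1
    have h5 := pr_transfer μ X hX hind p hp K (hAdm K) n
      (fun d => (d : ℝ) < (1 - δ / 2) * FK p K n)
    rw [← h5] at h4
    refine le_trans (measureReal_mono ?_) (h4.trans (hCle K h3))
    intro ω hω
    have hω' : (lis n (fun k : Fin n => X k ω) : ℝ) < (1 - δ) * fP p n := hω
    have h6 : (D K 0 (List.ofFn (fun k : Fin n => some (X k ω))) : ℝ)
        ≤ lis n (fun k : Fin n => X k ω) := by
      exact_mod_cast D_le_lis n (fun k : Fin n => X k ω) K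
    show (D K 0 (List.ofFn (fun k : Fin n => some (X k ω))) : ℝ) < (1 - δ / 2) * FK p K n
    linarith
  -- upper tail
  have hup : μ.real {ω | (1 + δ) * fP p n < (lis n (fun k : Fin n => X k ω) : ℝ)}
      ≤ 2 * C / fP p n := by
    obtain ⟨A, hA⟩ : ∃ A : ℕ → Set Ω, A = fun K => {ω | (1 + δ) * fP p n
      < (D K 0 (List.ofFn (fun k : Fin n => some (X k ω))) : ℝ)} := ⟨_, rfl⟩
    have hAmono : Monotone A := by
      intro K K' hKK ω hω
      rw [hA] at hω ⊢
      have h1 : (1 + δ) * fP p n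
        < (D K 0 (List.ofFn (fun k : Fin n => some (X k ω))) : ℝ) := hω
      have h2 : (D K 0 (List.ofFn (fun k : Fin n => some (X k ω))) : ℝ)
        ≤ (D K' 0 (List.ofFn (fun k : Fin n => some (X k ω))) : ℝ) := by
        exact_mod_cast D_hi_mono hKK 0 _
      exact lt_of_lt_of_le h1 h2
    have hAU : {ω | (1 + δ) * fP p n < (lis n (fun k : Fin n => X k ω) : ℝ)} ⊆ ⋃ K, A K := by
      intro ω hω
      have hω' : (1 + δ) * fP p n < (lis n (fun k : Fin n => X k ω) : ℝ) := hω
      obtain ⟨K, hK⟩ : ∃ K, ∀ k : Fin n, X k ω < K := by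
        refine ⟨∑ k : Fin n, X k ω + 1, fun k => Nat.lt_succ_of_le ?_⟩
        exact Finset.single_le_sum (f := fun k : Fin n => X k ω) (fun _ _ => Nat.zero_le _)
          (Finset.mem_univ k)
      rw [lis_eq_D n (fun k : Fin n => X k ω) K hK] at hω'
      refine Set.mem_iUnion.mpr ⟨K, ?_⟩
      rw [hA]
      exact hω'
    refine (measureReal_mono hAU).trans ?_
    have ht : Tendsto (fun K => μ.real (A K)) atTop (𝓝 (μ.real (⋃ K, A K))) := by
      have := tendsto_measure_iUnion_atTop (μ := μ) hAmono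
      exact (ENNReal.tendsto_toReal (measure_ne_top μ _)).comp this
    refine le_of_tendsto ht ?_
    filter_upwards [hev] with K hK
    obtain ⟨h1, h2, h3⟩ := hKprop K hK
    have h4 := (H p K n (hAdm K) h1).2
    have h5 := pr_transfer μ X hX hind p hp K (hAdm K) n
      (fun d => (1 + δ / 2) * FK p K n < (d : ℝ))
    rw [← h5] at h4
    refine le_trans (measureReal_mono ?_) (h4.trans (hCle K h3))
    intro ω hω
    rw [hA] at hω
    have hω' : (1 + δ) * fP p n
        < (D K 0 (List.ofFn (fun k : Fin n => some (X k ω))) : ℝ) := hω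
    show (1 + δ / 2) * FK p K n < (D K 0 (List.ofFn (fun k : Fin n => some (X k ω))) : ℝ)
    have h6 : FK p K n ≤ fP p n := FK_le_fP hp0 hs K hnr
    have h7 : 0 < FK p K n := by linarith
    nlinarith
  have hsub : {ω | ε * fP p n < |(lis n (fun k : Fin n => X k ω) : ℝ) - fP p n|} ⊆
      {ω | (lis n (fun k : Fin n => X k ω) : ℝ) < (1 - δ) * fP p n} ∪
      {ω | (1 + δ) * fP p n < (lis n (fun k : Fin n => X k ω) : ℝ)} := by
    intro ω hω
    have hω' : ε * fP p n < |(lis n (fun k : Fin n => X k ω) : ℝ) - fP p n| := hω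
    have h1 : δ * fP p n ≤ ε * fP p n := mul_le_mul_of_nonneg_right hδε hFpos.le
    have h2 := lt_of_le_of_lt h1 hω'
    rcases lt_abs.mp h2 with h | h
    · right
      show (1 + δ) * fP p n < (lis n (fun k : Fin n => X k ω) : ℝ)
      linarith
    · left
      show (lis n (fun k : Fin n => X k ω) : ℝ) < (1 - δ) * fP p n
      linarith
  refine (measureReal_mono hsub).trans ((measureReal_union_le _ _).trans ?_)
  calc _ ≤ 2 * C / fP p n + 2 * C / fP p n := add_le_add hlow hup
    _ = 4 * C / fP p n := by ring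

include hX hind hp in
/-- MP_6ef346_pr, Q1: for i.i.d. `X 0, X 1, …` with values in `ℕ` (in particular in `ℤ_{≥1}`)
and any law `p`, `L_n / f_n → 1` almost surely. -/
theorem main : ∀ᵐ ω ∂μ,
    Tendsto (fun n : ℕ => (lis n (fun k : Fin n => X k ω) : ℝ) / fP p n) atTop (𝓝 1) := by
  classical
  obtain ⟨hp0, hs⟩ := p_nonneg_sum μ X hX p hp
  by_cases hinf : {i | 0 < p i}.Infinite
  · obtain ⟨i0, hi0⟩ := hinf.nonempty
    refine as_of_prob μ (fun n ω => (lis n (fun k : Fin n => X k ω) : ℝ)) (fun n => fP p n)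
      (fun n => lis_measurable X hX n) ?_ (fun n ω => Nat.cast_nonneg _) ?_ ?_
      (fP_tendsto hp0 hs hinf) 2 (fun n hn => fP_add_one hp0 hs n hn)
      (fun ε hε => tail_bounds μ X hX hind p hp ε hε)
    · intro ω n m hnm
      exact Nat.cast_le.mpr (lis_mono (fun k => X k ω) hnm)
    · refine monotone_nat_of_le_succ (fun n => ?_)
      rcases Nat.eq_zero_or_pos n with h | h
      · subst h
        have h1 : fP p ((0 : ℕ) : ℝ) = 0 := by simpa using fP_zero (p := p)
        simp only [h1]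
        exact ENNReal.toReal_nonneg
      · exact fP_mono hp0 hs (by exact_mod_cast h) (by exact_mod_cast Nat.le_succ n)
    · intro n hn
      exact fP_pos hp0 hs i0 hi0 (by exact_mod_cast hn)
  · rw [Set.not_infinite] at hinf
    have hS : ∀ i, 0 < p i ↔ i ∈ hinf.toFinset := by
      intro i
      rw [Set.Finite.mem_toFinset]
      rfl
    have h1 := fP_eventually_card p hp0 hinf.toFinset hS
    have h2 := lis_eventually_card μ X hX hind p hp hinf.toFinset hS
    have hne : (hinf.toFinset.card : ℝ) ≠ 0 := by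
      intro h0
      have h3 : hinf.toFinset = ∅ := by
        rw [← Finset.card_eq_zero]; exact_mod_cast h0
      have h4 : ∀ i, p i = 0 := by
        intro i
        by_contra hi
        have : 0 < p i := lt_of_le_of_ne (hp0 i) (Ne.symm hi)
        rw [hS i, h3] at this
        simp at this
      have h5 : μ Set.univ = 0 := by
        have h6 : (Set.univ : Set Ω) = ⋃ i, {ω | X 0 ω = i} := by
          ext ω; simp
        rw [h6, measure_iUnion_null_iff]
        intro i
        have h7 := hp 0 i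
        rw [h4 i] at h7
        rwa [measureReal_eq_zero_iff] at h7
      simp at h5
    filter_upwards [h2] with ω hω
    have h3 : ∀ᶠ n : ℕ in atTop,
        (lis n (fun k : Fin n => X k ω) : ℝ) / fP p n = 1 := by
      filter_upwards [h1, hω] with n hn1 hn2
      rw [hn1, hn2]
      exact div_self hne
    exact (tendsto_congr' h3).mpr tendsto_const_nhds

end Main

end R776.LI
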